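import Pool.Agent.Helper24.AN.Pol
import Pool.Agent.Helper24.AN.CoefA

/-!
# Coefficient fields (block COEF)

`exists_coef`: `Algebra.FormallySmooth.liftAdicCompletionAux` for the residue field, and `eval₂Hom`; surjectivity by induction:
`R = B + m` where `B` is the inverse image of the range, a subring which contains the `x j`, so `R = B + m ^ k` for all `k`.

`coef`: `MvPolynomial (Fin d) (ResidueField R)` acts on `h ∈ E n` by `q • h = r • h`, `r` a lift of `φ n q`.
-/

namespace Pool.Agent.Helper24.AN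

open MvPolynomial IsLocalRing

universe u v

theorem exists_coef (p : ℕ) [Fact p.Prime] {R : Type u} [CommRing R] [IsLocalRing R] [CharP R p] {d : ℕ}
    (x : Fin d → R) (hx : Ideal.span (Set.range x) = maximalIdeal R) :
    ∃ φ : ∀ n : ℕ, MvPolynomial (Fin d) (ResidueField R) →+* R ⧸ maximalIdeal R ^ n,
      (∀ (n m : ℕ) (h : n ≤ m) (q : MvPolynomial (Fin d) (ResidueField R)) (r : R),
        Ideal.Quotient.mk _ r = φ m q → Ideal.Quotient.mk _ r = φ n q) ∧
      (∀ n, Function.Surjective (φ n)) ∧ ∀ n j, φ n (X j) = Ideal.Quotient.mk _ (x j) := by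
  let _ : Algebra (ZMod p) R := ZMod.algebra R p
  have : Algebra.FormallySmooth (ZMod p) (ResidueField R) := formallySmooth_zmod p _
  let f : ResidueField R →ₐ[ZMod p] R ⧸ maximalIdeal R := AlgHom.id _ _
  obtain ⟨g0, hg0⟩ := Algebra.FormallySmooth.exists_adicCompletionEvalOneₐ_comp_eq (I := maximalIdeal R) f
  let g : ∀ n : ℕ, ResidueField R →+* R ⧸ maximalIdeal R ^ n := fun n =>
    ((AdicCompletion.evalₐ (maximalIdeal R) n : AdicCompletion (maximalIdeal R) R →ₐ[R] R ⧸ maximalIdeal R ^ n) :
      AdicCompletion (maximalIdeal R) R →+* R ⧸ maximalIdeal R ^ n).comp (g0 : ResidueField R →+* _)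
  have hgdef : ∀ n a, g n a = AdicCompletion.evalₐ (maximalIdeal R) n (g0 a) := fun _ _ => rfl
  have hg : ∀ (n m : ℕ) (h : n ≤ m) (a : ResidueField R),
      Ideal.Quotient.factor (Ideal.pow_le_pow_right h) (g m a) = g n a := by
    intro n m h a
    rw [hgdef, hgdef]
    obtain ⟨c, hc⟩ := AdicCompletion.mk_surjective (maximalIdeal R) R (g0 a)
    rw [← hc, AdicCompletion.evalₐ_mk, AdicCompletion.evalₐ_mk, Ideal.Quotient.factor_mk, Ideal.Quotient.eq]
    have h1 := c.property h
    rw [SModEq.sub_mem] at h1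
    have h2 : (maximalIdeal R ^ n • ⊤ : Submodule R R) = maximalIdeal R ^ n := by
      rw [smul_eq_mul, Ideal.mul_top]
    rw [h2] at h1
    rw [← neg_mem_iff, neg_sub]
    exact h1
  have hg1 : ∀ (a : ResidueField R) (r : R), Ideal.Quotient.mk (maximalIdeal R ^ 1) r = g 1 a →
      residue R r = a := by
    intro a r h
    have h1 : AdicCompletion.evalOneₐ (maximalIdeal R) (g0 a) = f a := DFunLike.congr_fun hg0 a
    rw [← AdicCompletion.factorₐ_evalₐ_one, ← hgdef, ← h] at h1
    exact h1
  let φ : ∀ n : ℕ, MvPolynomial (Fin d) (ResidueField R) →+* R ⧸ maximalIdeal R ^ n := fun n =>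
    eval₂Hom (g n) (fun j => Ideal.Quotient.mk _ (x j))
  have hφC : ∀ n a, φ n (C a) = g n a := fun n a => eval₂Hom_C _ _ _
  have hφX : ∀ n j, φ n (X j) = Ideal.Quotient.mk _ (x j) := fun n j => eval₂Hom_X' _ _ _
  have hcomp : ∀ (n m : ℕ) (h : n ≤ m) (q : MvPolynomial (Fin d) (ResidueField R)) (r : R),
      Ideal.Quotient.mk _ r = φ m q → Ideal.Quotient.mk _ r = φ n q := by
    intro n m h q r hr
    have h1 : (Ideal.Quotient.factor (Ideal.pow_le_pow_right h)).comp (φ m) = φ n := by
      apply MvPolynomial.ringHom_ext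
      · intro a
        rw [RingHom.comp_apply, hφC, hφC, hg n m h]
      · intro j
        rw [RingHom.comp_apply, hφX, hφX, Ideal.Quotient.factor_mk]
    rw [← h1, RingHom.comp_apply, ← hr, Ideal.Quotient.factor_mk]
  refine ⟨φ, hcomp, fun n => ?_, hφX⟩
  rcases Nat.eq_zero_or_pos n with rfl | hn
  · have : Subsingleton (R ⧸ maximalIdeal R ^ 0) := by
      rw [Ideal.Quotient.subsingleton_iff, pow_zero, Ideal.one_eq_top]
    intro y
    exact ⟨0, Subsingleton.elim _ _⟩
  let B : Subring R := (φ n).range.comap (Ideal.Quotient.mk (maximalIdeal R ^ n))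
  have memB : ∀ r, r ∈ B ↔ ∃ q, φ n q = Ideal.Quotient.mk _ r := fun r => Iff.rfl
  have hxB : ∀ j, x j ∈ B := fun j => (memB _).mpr ⟨X j, hφX n j⟩
  have hQ0 : ∀ r : R, ∃ b ∈ B, r - b ∈ maximalIdeal R := by
    intro r
    obtain ⟨s, hs⟩ := Ideal.Quotient.mk_surjective (φ n (C (residue R r)))
    refine ⟨s, (memB s).mpr ⟨_, hs.symm⟩, ?_⟩
    have h1 := hcomp 1 n hn _ s hs
    rw [hφC] at h1
    have h2 := hg1 _ _ h1
    exact Ideal.Quotient.eq.mp h2.symm
  have hQ : ∀ k : ℕ, ∀ r ∈ maximalIdeal R ^ k, ∃ b ∈ B, r - b ∈ maximalIdeal R ^ (k + 1) := by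
    intro k
    induction k with
    | zero =>
      intro r _
      simpa using hQ0 r
    | succ k ih =>
      have hT : ∀ a ∈ maximalIdeal R, ∀ c ∈ maximalIdeal R ^ k, ∃ b ∈ B, a * c - b ∈ maximalIdeal R ^ (k + 1 + 1) := by
        intro a ha
        rw [← hx] at ha
        induction ha using Submodule.span_induction with
        | mem a ha =>
          obtain ⟨j, rfl⟩ := ha
          intro c hc
          obtain ⟨b, hb, hcb⟩ := ih c hc
          refine ⟨x j * b, Subring.mul_mem _ (hxB j) hb, ?_⟩
          rw [← mul_sub, pow_succ']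
          exact Ideal.mul_mem_mul (hx ▸ Ideal.subset_span ⟨j, rfl⟩) hcb
        | zero =>
          intro c _
          exact ⟨0, Subring.zero_mem _, by simp⟩
        | add a a' _ _ ha ha' =>
          intro c hc
          obtain ⟨b, hb, h1⟩ := ha c hc
          obtain ⟨b', hb', h1'⟩ := ha' c hc
          refine ⟨b + b', Subring.add_mem _ hb hb', ?_⟩
          have : (a + a') * c - (b + b') = (a * c - b) + (a' * c - b') := by ring
          rw [this]
          exact Ideal.add_mem _ h1 h1'
        | smul s a _ ha =>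
          intro c hc
          obtain ⟨b, hb, h1⟩ := ha (s * c) (Ideal.mul_mem_left _ _ hc)
          refine ⟨b, hb, ?_⟩
          have : s • a * c - b = a * (s * c) - b := by rw [smul_eq_mul]; ring
          rw [this]
          exact h1
      intro r hr
      rw [pow_succ'] at hr
      refine Submodule.mul_induction_on hr (fun a ha c hc => hT a ha c hc) ?_
      rintro a a' ⟨b, hb, h1⟩ ⟨b', hb', h1'⟩
      refine ⟨b + b', Subring.add_mem _ hb hb', ?_⟩
      have : (a + a') - (b + b') = (a - b) + (a' - b') := by ring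
      rw [this]
      exact Ideal.add_mem _ h1 h1'
  have hP : ∀ k : ℕ, ∀ r : R, ∃ b ∈ B, r - b ∈ maximalIdeal R ^ k := by
    intro k
    induction k with
    | zero =>
      intro r
      exact ⟨0, Subring.zero_mem _, by simp⟩
    | succ k ih =>
      intro r
      obtain ⟨b, hb, h1⟩ := ih r
      obtain ⟨b', hb', h2⟩ := hQ k _ h1
      refine ⟨b + b', Subring.add_mem _ hb hb', ?_⟩
      rwa [← sub_sub]
  intro y
  obtain ⟨r, rfl⟩ := Ideal.Quotient.mk_surjective y
  obtain ⟨b, hb, h1⟩ := hP n r
  obtain ⟨q, hq⟩ := (memB b).mp hb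
  exact ⟨q, by rw [hq]; exact (Ideal.Quotient.eq.mpr h1).symm⟩

theorem exists_module {R : Type*} [CommRing R] {I : Ideal R} {T : Type*} [CommRing T]
    (φ : ∀ n : ℕ, T →+* R ⧸ I ^ n)
    (hφ : ∀ (n m : ℕ) (h : n ≤ m) (q : T) (r : R), Ideal.Quotient.mk _ r = φ m q → Ideal.Quotient.mk _ r = φ n q)
    (M : Type*) [AddCommGroup M] [Module R M] (htor : Tor I M) :
    ∃ _ : Module T M, ∀ (n : ℕ), ∀ h ∈ E I M n, ∀ (q : T) (r : R), Ideal.Quotient.mk (I ^ n) r = φ n q →
      q • h = r • h := by
  choose lev hlev using htor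
  choose lift hlift using fun (n : ℕ) (q : T) => Ideal.Quotient.mk_surjective (φ n q)
  have hind : ∀ (n : ℕ) (h : M), h ∈ E I M n → ∀ (r r' : R), Ideal.Quotient.mk (I ^ n) r = Ideal.Quotient.mk (I ^ n) r' →
      r • h = r' • h := by
    intro n h hh r r' hr
    rw [← sub_eq_zero, ← sub_smul]
    exact hh _ (Ideal.Quotient.eq.mp hr)
  let sm : T → M → M := fun q h => lift (lev h) q • h
  have key : ∀ (n : ℕ) (h : M), h ∈ E I M n → ∀ (q : T) (r : R), Ideal.Quotient.mk (I ^ n) r = φ n q →
      sm q h = r • h := by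
    intro n h hh q r hr
    have h1 := hlift (max n (lev h)) q
    have h2 := hφ n _ (le_max_left _ _) q _ h1
    have h3 := hφ (lev h) _ (le_max_right _ _) q _ h1
    change lift (lev h) q • h = r • h
    rw [hind (lev h) h (hlev h) _ _ ((hlift (lev h) q).trans h3.symm), hind n h hh _ _ (hr.trans h2.symm)]
  have hmax : ∀ a b : M, a ∈ E I M (max (lev a) (lev b)) ∧ b ∈ E I M (max (lev a) (lev b)) := fun a b =>
    ⟨E_mono _ (le_max_left _ _) (hlev a), E_mono _ (le_max_right _ _) (hlev b)⟩
  let inst : Module T M :=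
    { smul := sm
      one_smul := fun h => by
        change sm 1 h = h
        rw [key (lev h) h (hlev h) 1 1 (by rw [map_one, map_one]), one_smul]
      mul_smul := fun q q' h => by
        change sm (q * q') h = sm q (sm q' h)
        have h1 := hlift (lev h) q
        have h2 := hlift (lev h) q'
        rw [key (lev h) h (hlev h) q' _ h2, key (lev h) _ (Submodule.smul_mem _ _ (hlev h)) q _ h1,
          key (lev h) h (hlev h) (q * q') (lift (lev h) q * lift (lev h) q') (by rw [map_mul, map_mul, h1, h2]),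
          mul_smul]
      smul_zero := fun q => by
        change sm q 0 = 0
        exact smul_zero _
      smul_add := fun q a b => by
        change sm q (a + b) = sm q a + sm q b
        obtain ⟨ha, hb⟩ := hmax a b
        have h1 := hlift (max (lev a) (lev b)) q
        rw [key _ _ (Submodule.add_mem _ ha hb) q _ h1, key _ _ ha q _ h1, key _ _ hb q _ h1, smul_add]
      add_smul := fun q q' h => by
        change sm (q + q') h = sm q h + sm q' h
        have h1 := hlift (lev h) q
        have h2 := hlift (lev h) q'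
        rw [key (lev h) h (hlev h) q _ h1, key (lev h) h (hlev h) q' _ h2,
          key (lev h) h (hlev h) (q + q') (lift (lev h) q + lift (lev h) q') (by rw [map_add, map_add, h1, h2]),
          add_smul]
      zero_smul := fun h => by
        change sm 0 h = 0
        rw [key (lev h) h (hlev h) 0 0 (by rw [map_zero, map_zero]), zero_smul] }
  exact ⟨inst, fun n h hh q r hr => key n h hh q r hr⟩

theorem coef (p : ℕ) [Fact p.Prime] {R : Type u} [CommRing R] [IsLocalRing R] [CharP R p] {d : ℕ}
    (x : Fin d → R) (hx : Ideal.span (Set.range x) = maximalIdeal R) (M : Type v) [AddCommGroup M] [Module R M]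
    (htor : Tor (maximalIdeal R) M) [IsArtinian R M] :
    ∃ (κ : Type u) (_ : Field κ) (_ : CharP κ p) (_ : Module (MvPolynomial (Fin d) κ) M),
      IsArtinian (MvPolynomial (Fin d) κ) M ∧ Tor (vars κ d) M ∧
      (∀ (n : ℕ) (h : M), h ∈ E (vars κ d) M n ↔ h ∈ E (maximalIdeal R) M n) ∧
      (∀ (q : MvPolynomial (Fin d) κ) (h : M), ∃ r : R, q • h = r • h) ∧
      ∀ G : M →+ M, (∀ (r : R) (h : M), G (r • h) = r ^ p • G h) →
        ∀ (q : MvPolynomial (Fin d) κ) (h : M), G (q • h) = q ^ p • G h := by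
  obtain ⟨φ, hφ, hsurj, hφX⟩ := exists_coef p x hx
  obtain ⟨inst, key⟩ := exists_module φ hφ M htor
  have hchar : CharP (ResidueField R) p := by
    have h0 : ((p : ℕ) : ResidueField R) = 0 := by
      rw [← map_natCast (residue R), CharP.cast_eq_zero, map_zero]
    exact (CharP.charP_iff_prime_eq_zero Fact.out).mpr h0
  -- the two actions
  have h1 : ∀ (q : MvPolynomial (Fin d) (ResidueField R)) (h : M), ∃ r : R, q • h = r • h := by
    intro q h
    obtain ⟨n, hn⟩ := htor h
    obtain ⟨r, hr⟩ := Ideal.Quotient.mk_surjective (φ n q)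
    exact ⟨r, key n h hn q r hr⟩
  have h2 : ∀ (r : R) (h : M), ∃ q : MvPolynomial (Fin d) (ResidueField R), r • h = q • h := by
    intro r h
    obtain ⟨n, hn⟩ := htor h
    obtain ⟨q, hq⟩ := hsurj n (Ideal.Quotient.mk _ r)
    exact ⟨q, (key n h hn q r hq.symm).symm⟩
  have hX : ∀ j (h : M), (X j : MvPolynomial (Fin d) (ResidueField R)) • h = x j • h := by
    intro j h
    obtain ⟨n, hn⟩ := htor h
    exact key n h hn _ _ (hφX n j).symm
  have hE : ∀ (n : ℕ) (h : M), h ∈ E (vars (ResidueField R) d) M n ↔ h ∈ E (maximalIdeal R) M n := by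
    intro n
    induction n with
    | zero =>
      intro h
      rw [E_zero, E_zero, Submodule.mem_bot, Submodule.mem_bot]
    | succ n ih =>
      intro h
      rw [mem_E_succ _ hx, mem_E_succ (vars (ResidueField R) d) (x := X) rfl]
      refine forall_congr' fun j => ?_
      rw [hX, ih]
  refine ⟨ResidueField R, inferInstance, hchar, inst, ?_, ?_, hE, h1, ?_⟩
  · -- Artinian
    rw [← monotone_stabilizes_iff_artinian]
    intro f
    let c : Submodule (MvPolynomial (Fin d) (ResidueField R)) M → Submodule R M := fun N =>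
      { carrier := N
        add_mem' := fun ha hb => N.add_mem ha hb
        zero_mem' := N.zero_mem
        smul_mem' := fun r a ha => by
          obtain ⟨q, hq⟩ := h2 r a
          rw [hq]
          exact N.smul_mem q ha }
    have hc : ∀ N m, m ∈ c N ↔ m ∈ N := fun N m => Iff.rfl
    obtain ⟨n, hn⟩ := monotone_stabilizes_iff_artinian.mpr (inferInstance : IsArtinian R M)
      ⟨fun k => OrderDual.toDual (c (OrderDual.ofDual (f k))), fun a b hab m hm => f.monotone hab hm⟩
    refine ⟨n, fun m hm => ?_⟩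
    have h3 : c (OrderDual.ofDual (f n)) = c (OrderDual.ofDual (f m)) := hn m hm
    have h4 : (OrderDual.ofDual (f n)) = (OrderDual.ofDual (f m)) := by
      ext a
      rw [← hc, h3, hc]
    exact h4
  · intro h
    obtain ⟨n, hn⟩ := htor h
    exact ⟨n, (hE n h).mpr hn⟩
  · intro G hG q h
    obtain ⟨n, hn⟩ := htor h
    obtain ⟨n', hn'⟩ := htor (G h)
    have ha := E_mono (maximalIdeal R) (le_max_left n n') hn
    have hb := E_mono (maximalIdeal R) (le_max_right n n') hn'
    obtain ⟨r, hr⟩ := Ideal.Quotient.mk_surjective (φ (max n n') q)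
    rw [key _ h ha q r hr, hG, key _ (G h) hb (q ^ p) (r ^ p) (by rw [map_pow, map_pow, hr])]

end Pool.Agent.Helper24.AN
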