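import Pool.Agent.Helper24.AN.Def

/-!
# Powers and Frobenius powers (block GROWTH)
-/

namespace Pool.Agent.Helper24.AN

open Pool.Agent.Helper24.AN

variable {R : Type*} [CommRing R] {d : ℕ} {I : Ideal R} {x : Fin d → R}

private theorem monomial_mem (hx : Ideal.span (Set.range x) = I) {p : ℕ} (hp : 0 < p) (b : ℕ)
    (a : Fin d → ℕ) (ha : p * b + d * (p - 1) ≤ ∑ i, a i) :
    ∏ i, x i ^ a i ∈ Ideal.span {s | ∃ r ∈ I ^ b, s = r ^ p} := by
  have h1 : ∏ i, x i ^ a i = (∏ i, x i ^ (a i % p)) * (∏ i, x i ^ (a i / p)) ^ p := by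
    rw [← Finset.prod_pow, ← Finset.prod_mul_distrib]
    refine Finset.prod_congr rfl fun i _ => ?_
    rw [← pow_mul, ← pow_add, mul_comm (a i / p) p, Nat.mod_add_div]
  rw [h1]
  refine Ideal.mul_mem_left _ _ (Ideal.subset_span ⟨_, ?_, rfl⟩)
  have h2 : b ≤ ∑ i, a i / p := by
    have h3 : ∑ i, a i ≤ p * (∑ i, a i / p) + d * (p - 1) := by
      calc ∑ i, a i = ∑ i, (p * (a i / p) + a i % p) :=
            Finset.sum_congr rfl fun i _ => (Nat.div_add_mod _ _).symm
        _ = p * (∑ i, a i / p) + ∑ i, a i % p := by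
            rw [Finset.sum_add_distrib, Finset.mul_sum]
        _ ≤ p * (∑ i, a i / p) + ∑ _i : Fin d, (p - 1) := by
            refine Nat.add_le_add_left (Finset.sum_le_sum fun i _ => ?_) _
            have := Nat.mod_lt (a i) hp
            omega
        _ = _ := by simp
    exact Nat.le_of_mul_le_mul_left (by omega) hp
  refine Ideal.pow_le_pow_right h2 ?_
  rw [← Finset.prod_pow_eq_pow_sum]
  refine Ideal.prod_mem_prod fun i _ => Ideal.pow_mem_pow ?_ _
  rw [← hx]
  exact Ideal.subset_span ⟨i, rfl⟩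

/-- pigeonhole: a product of `p b + d (p - 1)` generators is divisible by the `p`-th power of a product of
`b` generators -/
theorem pow_le_span_pow (hx : Ideal.span (Set.range x) = I) {p : ℕ} (hp : 0 < p) (b : ℕ) :
    I ^ (p * b + d * (p - 1)) ≤ Ideal.span {s | ∃ r ∈ I ^ b, s = r ^ p} := by
  intro z hz
  rw [← hx, Ideal.mem_span_pow_iff_exists_isHomogeneous] at hz
  obtain ⟨q, hq, rfl⟩ := hz
  rw [MvPolynomial.eval_eq']
  refine Ideal.sum_mem _ fun a ha => Ideal.mul_mem_left _ _ ?_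
  refine monomial_mem hx hp b (fun i => a i) ?_
  have h1 := hq (MvPolynomial.mem_support_iff.1 ha)
  rw [Finsupp.weight_apply, Finsupp.sum_fintype _ _ (by simp)] at h1
  simp only [Pi.one_apply, smul_eq_mul, mul_one] at h1
  rw [h1]

theorem growth (hx : Ideal.span (Set.range x) = I) {p : ℕ} (hp : 0 < p) {H : Type*} [AddCommGroup H]
    [Module R H] (G : H →+ H) (hG : ∀ (r : R) (h : H), G (r • h) = r ^ p • G h) (b : ℕ) (h : H)
    (hh : h ∈ E I H b) : G h ∈ E I H (p * b + d * (p - 1)) := by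
  intro s hs
  have h1 := pow_le_span_pow hx hp b hs
  refine Submodule.span_induction (p := fun s _ => s • G h = 0) ?_ ?_ ?_ ?_ h1
  · rintro _ ⟨r, hr, rfl⟩
    rw [← hG, hh r hr, map_zero]
  · rw [zero_smul]
  · intro s t _ _ hs ht
    rw [add_smul, hs, ht, add_zero]
  · intro a s _ hs
    rw [smul_eq_mul, mul_smul, hs, smul_zero]

end Pool.Agent.Helper24.AN
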