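import Pool.Agent.Helper24.AN.Ultra
import Pool.Agent.Helper24.AN.Coef
import Pool.Agent.Helper24.AN.Growth

/-!
# The rigidity theorem (block RIGID)
-/

namespace Pool.Agent.Helper24.AN

open IsLocalRing Filter

universe u v

/-- `y ^ (p - 1) F` is anti-nilpotent on the annihilator of `y`. -/
def ANK {R H : Type*} [CommRing R] [AddCommGroup H] [Module R H] (p : ℕ) (F : H → H) (y : R) : Prop :=
  ∀ N : Submodule R H, (∀ h ∈ N, y • h = 0) → (∀ h ∈ N, y ^ (p - 1) • F h ∈ N) →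
    ∀ η : H, y • η = 0 → y ^ (p - 1) • F η ∈ N → η ∈ N

section

variable {p : ℕ} [Fact p.Prime] {R : Type u} [CommRing R] [IsNoetherianRing R] [IsLocalRing R]
  {H : Type v} [AddCommGroup H] [Module R H]

omit [IsNoetherianRing R] in
theorem delta_smul {δ : ℕ → R} (hδ : ∀ t, δ t ∈ maximalIdeal R ^ t) {n t : ℕ} (h : n ≤ t) {η : H}
    (hη : η ∈ E (maximalIdeal R) H n) : δ t • η = 0 :=
  hη _ (Ideal.pow_le_pow_right h (hδ t))

omit [Fact p.Prime] [IsNoetherianRing R] in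
theorem pow_delta_smul {δ : ℕ → R} (hδ : ∀ t, δ t ∈ maximalIdeal R ^ t) (x : R) {n t : ℕ} (h : n ≤ t) {η : H}
    (hη : η ∈ E (maximalIdeal R) H n) : (x + δ t) ^ (p - 1) • η = x ^ (p - 1) • η := by
  obtain ⟨c, hc⟩ := sub_dvd_pow_sub_pow (x + δ t) x (p - 1)
  rw [add_sub_cancel_left] at hc
  rw [← sub_eq_zero, ← sub_smul, hc, mul_comm, mul_smul, delta_smul hδ h hη, smul_zero]

end

/-- Let `N0` be the limit of the submodules `N t` of the annihilators of the elements `x + δ t`, which are stable under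
`(x + δ t) ^ (p - 1) F`. Then `N t ∩ E k = N0 ∩ E k` for almost all `t`. -/
theorem rigid (p : ℕ) [Fact p.Prime] {R : Type u} [CommRing R] [IsNoetherianRing R] [IsLocalRing R] [CharP R p]
    {H : Type v} [AddCommGroup H] [Module R H] [IsArtinian R H] (F : H →+ H)
    (hF : ∀ (r : R) (h : H), F (r • h) = r ^ p • F h) {x : R} (hx : x ∈ maximalIdeal R) (hAN : ANK p F x)
    (U : Ultrafilter ℕ) (hU : ∀ n : ℕ, ∀ᶠ t in (U : Filter ℕ), n ≤ t) (δ : ℕ → R)
    (hδ : ∀ t, δ t ∈ maximalIdeal R ^ t) (N : ℕ → Submodule R H) (hN : ∀ t, ∀ h ∈ N t, (x + δ t) • h = 0)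
    (hNF : ∀ t, ∀ h ∈ N t, (x + δ t) ^ (p - 1) • F h ∈ N t) (N0 : Submodule R H)
    (hN0 : ∀ h, h ∈ N0 ↔ ∀ᶠ t in (U : Filter ℕ), h ∈ N t) (k : ℕ) :
    ∀ᶠ t in (U : Filter ℕ), ∀ h ∈ E (maximalIdeal R) H k, (h ∈ N t ↔ h ∈ N0) := by
  have hp : p.Prime := Fact.out
  have htor : Tor (maximalIdeal R) H := tor_of_isArtinian
  obtain ⟨d, g, hg⟩ := Submodule.fg_iff_exists_fin_generating_family.mp
    (IsNoetherian.noetherian (maximalIdeal R))
  replace hg : Ideal.span (Set.range g) = maximalIdeal R := hg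
  have hgr : ∀ b, ∀ h ∈ E (maximalIdeal R) H b, F h ∈ E (maximalIdeal R) H (p * b + d * (p - 1)) :=
    fun b h hh => growth hg hp.pos F hF b h hh
  -- elements of `N t` of bounded level are killed by `x`
  have hkill : ∀ {n t : ℕ}, n ≤ t → ∀ h ∈ E (maximalIdeal R) H n, h ∈ N t → x • h = 0 := by
    intro n t hnt h hh hht
    have h1 := hN t h hht
    rwa [add_smul, delta_smul hδ hnt hh, add_zero] at h1
  have hx0 : ∀ h ∈ N0, x • h = 0 := by
    intro h hh
    obtain ⟨n, hn⟩ := htor h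
    obtain ⟨t, ht, ht'⟩ := (((hN0 h).mp hh).and (hU n)).exists
    exact hkill ht' h hn ht
  have hst0 : ∀ h ∈ N0, x ^ (p - 1) • F h ∈ N0 := by
    intro h hh
    obtain ⟨n, hn⟩ := htor (F h)
    rw [hN0]
    filter_upwards [(hN0 h).mp hh, hU n] with t ht ht'
    rw [← pow_delta_smul hδ x ht' hn]
    exact hNF t h ht
  -- one inclusion
  have hsup : ∀ k, ∀ᶠ t in (U : Filter ℕ), ∀ h ∈ E (maximalIdeal R) H k, h ∈ N0 → h ∈ N t := by
    intro k
    have hfin : Module.Finite R (E (maximalIdeal R) H k) := fg_E k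
    have hfg : (N0 ⊓ E (maximalIdeal R) H k).FG := by
      have h1 : (N0.submoduleOf (E (maximalIdeal R) H k)).FG := IsNoetherian.noetherian _
      have h2 := h1.map (E (maximalIdeal R) H k).subtype
      have h3 : Submodule.map (E (maximalIdeal R) H k).subtype (N0.submoduleOf (E (maximalIdeal R) H k)) =
          N0 ⊓ E (maximalIdeal R) H k := by
        ext h
        constructor
        · rintro ⟨h', hh', rfl⟩
          exact ⟨hh', h'.2⟩
        · rintro ⟨h1, h2⟩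
          exact ⟨⟨h, h2⟩, h1, rfl⟩
      rwa [h3] at h2
    obtain ⟨s, hs⟩ := hfg
    have h1 : ∀ᶠ t in (U : Filter ℕ), ∀ h ∈ s, h ∈ N t := by
      rw [Filter.eventually_all_finset]
      intro h hh
      rw [← hN0]
      have : h ∈ N0 ⊓ E (maximalIdeal R) H k := hs ▸ Submodule.subset_span hh
      exact this.1
    filter_upwards [h1] with t ht h hh hh0
    have h2 : Submodule.span R (s : Set H) ≤ N t := Submodule.span_le.mpr ht
    rw [hs] at h2
    exact h2 ⟨hh0, hh⟩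
  -- the module `M`
  let Hx : Submodule R H := LinearMap.ker (LinearMap.lsmul R H x)
  have memHx : ∀ h, h ∈ Hx ↔ x • h = 0 := fun h => by
    rw [LinearMap.mem_ker, LinearMap.lsmul_apply]
  let Gx : Hx →+ Hx :=
    { toFun := fun h => ⟨x ^ (p - 1) • F h, by
        rw [memHx, smul_smul, ← pow_succ', Nat.sub_add_cancel hp.pos, ← hF, (memHx _).mp h.2, map_zero]⟩
      map_zero' := Subtype.ext (by
        change x ^ (p - 1) • F (0 : H) = 0
        rw [map_zero, smul_zero])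
      map_add' := fun a b => Subtype.ext (by
        change x ^ (p - 1) • F ((a : H) + b) = x ^ (p - 1) • F a + x ^ (p - 1) • F b
        rw [map_add, smul_add]) }
  have hGx : ∀ h : Hx, (Gx h : H) = x ^ (p - 1) • F h := fun _ => rfl
  let K : Submodule R Hx := N0.submoduleOf Hx
  have memK : ∀ h : Hx, h ∈ K ↔ (h : H) ∈ N0 := fun _ => Iff.rfl
  let G : (Hx ⧸ K) →+ (Hx ⧸ K) :=
    QuotientAddGroup.map K.toAddSubgroup K.toAddSubgroup Gx (fun h hh => hst0 _ hh)
  have hGmk : ∀ h : Hx, G (Submodule.Quotient.mk h) = Submodule.Quotient.mk (Gx h) := fun _ => rfl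
  have hG : ∀ (r : R) (m : Hx ⧸ K), G (r • m) = r ^ p • G m := by
    intro r m
    obtain ⟨h, rfl⟩ := Submodule.Quotient.mk_surjective _ m
    rw [← Submodule.Quotient.mk_smul, hGmk, hGmk, ← Submodule.Quotient.mk_smul]
    congr 1
    apply Subtype.ext
    rw [hGx, Submodule.coe_smul, hF, Submodule.coe_smul, hGx, smul_comm]
  have hinj : ∀ m, G m = 0 → m = 0 := by
    intro m hm
    obtain ⟨h, rfl⟩ := Submodule.Quotient.mk_surjective _ m
    rw [hGmk, Submodule.Quotient.mk_eq_zero, memK, hGx] at hm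
    rw [Submodule.Quotient.mk_eq_zero, memK]
    exact hAN N0 hx0 hst0 h ((memHx _).mp h.2) hm
  have hE : ∀ (n : ℕ) (h : Hx), (h : H) ∈ E (maximalIdeal R) H n →
      (Submodule.Quotient.mk h : Hx ⧸ K) ∈ E (maximalIdeal R) (Hx ⧸ K) n := by
    intro n h hh r hr
    rw [← Submodule.Quotient.mk_smul]
    have : r • h = 0 := Subtype.ext (hh r hr)
    rw [this]
    rfl
  have htorM : Tor (maximalIdeal R) (Hx ⧸ K) := by
    intro m
    obtain ⟨h, rfl⟩ := Submodule.Quotient.mk_surjective _ m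
    obtain ⟨n, hn⟩ := htor h
    exact ⟨n, hE n h hn⟩
  obtain ⟨κ, _, _, _, hart, htorP, hEP, hqr, hGP⟩ := coef p g hg (Hx ⧸ K) htorM
  let Fs : Set (ℕ → Hx ⧸ K) := {φ | ∃ (k : ℕ) (f : ℕ → H), ∀ᶠ t in (U : Filter ℕ), ∃ hh : f t ∈ Hx,
    f t ∈ N t ∧ f t ∈ E (maximalIdeal R) H k ∧ φ t = Submodule.Quotient.mk ⟨f t, hh⟩}
  have key := ultra p (κ := κ) htorP G (hGP G hG) hinj U Fs
    (by
      rintro φ ⟨k, f, hf⟩
      refine ⟨k, ?_⟩
      filter_upwards [hf] with t ⟨hh, h1, h2, h3⟩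
      rw [hEP, h3]
      exact hE k _ h2)
    (by
      rintro φ ⟨k, f, hf⟩ ψ hψ
      refine ⟨k, f, ?_⟩
      filter_upwards [hf, hψ] with t ⟨hh, h1, h2, h3⟩ h4
      exact ⟨hh, h1, h2, by rw [← h4, h3]⟩)
    (by
      refine ⟨0, fun _ => 0, Filter.Eventually.of_forall fun t => ⟨Submodule.zero_mem _, Submodule.zero_mem _,
        Submodule.zero_mem _, rfl⟩⟩)
    (by
      rintro φ ⟨k, f, hf⟩ ψ ⟨k', f', hf'⟩
      refine ⟨max k k', fun t => f t + f' t, ?_⟩
      filter_upwards [hf, hf'] with t ⟨hh, h1, h2, h3⟩ ⟨hh', h1', h2', h3'⟩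
      exact ⟨Submodule.add_mem _ hh hh', Submodule.add_mem _ h1 h1',
        Submodule.add_mem _ (E_mono _ (le_max_left _ _) h2) (E_mono _ (le_max_right _ _) h2'), by
          rw [h3, h3']; rfl⟩)
    (by
      rintro φ ⟨k, f, hf⟩ q
      choose r hr using fun t => hqr (q t) (φ t)
      refine ⟨k, fun t => r t • f t, ?_⟩
      filter_upwards [hf] with t ⟨hh, h1, h2, h3⟩
      exact ⟨Submodule.smul_mem _ _ hh, Submodule.smul_mem _ _ h1, Submodule.smul_mem _ _ h2, by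
        rw [hr, h3]; rfl⟩)
    (by
      rintro φ ⟨k, f, hf⟩
      refine ⟨p * k + d * (p - 1), fun t => x ^ (p - 1) • F (f t), ?_⟩
      filter_upwards [hf, hU (p * k + d * (p - 1))] with t ⟨hh, h1, h2, h3⟩ ht
      refine ⟨(Gx ⟨f t, hh⟩).2, ?_, Submodule.smul_mem _ _ (hgr k _ h2), by rw [h3]; rfl⟩
      rw [← pow_delta_smul hδ x ht (hgr k _ h2)]
      exact hNF t _ h1)
    (by
      rintro m ⟨k, f, hf⟩
      obtain ⟨h, rfl⟩ := Submodule.Quotient.mk_surjective _ m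
      obtain ⟨n, hn⟩ := htor h
      rw [Submodule.Quotient.mk_eq_zero, memK, hN0]
      filter_upwards [hf, hsup (max k n)] with t ⟨hh, h1, h2, h3⟩ h4
      rw [Submodule.Quotient.eq, memK] at h3
      have h5 : (h : H) - f t ∈ N0 := h3
      have h6 := h4 _ (Submodule.sub_mem _ (E_mono _ (le_max_right _ _) hn) (E_mono _ (le_max_left _ _) h2)) h5
      have h7 := Submodule.add_mem _ h6 h1
      rwa [sub_add_cancel] at h7)
  -- conclusion
  classical
  have hsub : ∀ᶠ t in (U : Filter ℕ), ∀ h ∈ E (maximalIdeal R) H k, h ∈ N t → h ∈ N0 := by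
    let f : ℕ → H := fun t =>
      if hbad : ∃ h, h ∈ E (maximalIdeal R) H k ∧ h ∈ N t ∧ h ∉ N0 then hbad.choose else 0
    have hf1 : ∀ t, f t ∈ E (maximalIdeal R) H k ∧ f t ∈ N t := by
      intro t
      by_cases hbad : ∃ h, h ∈ E (maximalIdeal R) H k ∧ h ∈ N t ∧ h ∉ N0
      · have : f t = hbad.choose := dif_pos hbad
        rw [this]
        exact ⟨hbad.choose_spec.1, hbad.choose_spec.2.1⟩
      · have : f t = 0 := dif_neg hbad
        rw [this]
        exact ⟨Submodule.zero_mem _, Submodule.zero_mem _⟩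
    let φ : ℕ → Hx ⧸ K := fun t => if hh : f t ∈ Hx then Submodule.Quotient.mk ⟨f t, hh⟩ else 0
    have hφ : φ ∈ Fs := by
      refine ⟨k, f, ?_⟩
      filter_upwards [hU k] with t ht
      have hh : f t ∈ Hx := (memHx _).mpr (hkill ht _ (hf1 t).1 (hf1 t).2)
      exact ⟨hh, (hf1 t).2, (hf1 t).1, dif_pos hh⟩
    filter_upwards [key φ hφ, hU k] with t ht ht' h hh hhN
    by_contra hcon
    have hbad : ∃ h, h ∈ E (maximalIdeal R) H k ∧ h ∈ N t ∧ h ∉ N0 := ⟨h, hh, hhN, hcon⟩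
    have hft : f t = hbad.choose := dif_pos hbad
    have hh : f t ∈ Hx := (memHx _).mpr (hkill ht' _ (hf1 t).1 (hf1 t).2)
    have h1 : φ t = Submodule.Quotient.mk ⟨f t, hh⟩ := dif_pos hh
    rw [h1, Submodule.Quotient.mk_eq_zero, memK] at ht
    have h2 : f t ∈ N0 := ht
    rw [hft] at h2
    exact hbad.choose_spec.2.2 h2
  filter_upwards [hsub, hsup k] with t h1 h2 h hh
  exact ⟨h1 h hh, h2 h hh⟩

end Pool.Agent.Helper24.AN
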