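import Pool.Agent.Helper24.AN.Rigid
import Pool.Agent.Helper24.AN.Dar
import Pool.Agent.Helper24.AN.Deep

/-!
# The abstract theorem (block ABS)

Proof. Otherwise there are `δ t ∈ m ^ t`, `N t` and `η t` which contradict `ANK p F (x + δ t)`. `N' t = N t + R η t` is also stable. Let `U` be
a nonprincipal ultrafilter, `N0` and `N0'` the limits. `N0' = N0`: if `h ∈ N t'` for almost all `t` then
`x ^ (p - 1) F h = (x + δ t) ^ (p - 1) F h ∈ N t` for almost all `t`, so `h ∈ N0` by `ANK p F x`. `N0` is generated by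
`x ^ (p - 1) F(N0)`: the submodule `N1` generated by it is stable, so `N0 ≤ N1` by `ANK p F x`. Apply `dar`, `star` (to the module
`N0`), `growth`, `deep` (`G = x ^ (p - 1) F`, `G' = (x + δ t) ^ (p - 1) F`, `G' - G` maps `E b` to
`E (p b + d' - t)`) and `rigid` (twice): `N' t ≤ N t` for almost all `t`, a contradiction.
-/

namespace Pool.Agent.Helper24.AN

open IsLocalRing Filter

universe u v

section

variable (p : ℕ) [Fact p.Prime] {R : Type u} [CommRing R] [IsNoetherianRing R] [IsLocalRing R]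
  {H : Type v} [AddCommGroup H] [Module R H] [IsArtinian R H] (F : H →+ H) {x : R}
  (U : Ultrafilter ℕ) (hU : ∀ n : ℕ, ∀ᶠ t in (U : Filter ℕ), n ≤ t) {δ : ℕ → R}
  (hδ : ∀ t, δ t ∈ maximalIdeal R ^ t) (N : ℕ → Submodule R H) (hN : ∀ t, ∀ h ∈ N t, (x + δ t) • h = 0)

/-- the limit of a sequence of submodules -/
def ulim : Submodule R H where
  carrier := {h | ∀ᶠ t in (U : Filter ℕ), h ∈ N t}
  zero_mem' := Eventually.of_forall fun t => Submodule.zero_mem _
  add_mem' := by
    intro a b ha hb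
    filter_upwards [ha, hb] with t h1 h2
    exact Submodule.add_mem _ h1 h2
  smul_mem' := by
    intro r a ha
    filter_upwards [ha] with t h1
    exact Submodule.smul_mem _ _ h1

include hU hδ hN in
theorem ulim_kill : ∀ h ∈ ulim U N, x • h = 0 := by
  intro h hh
  obtain ⟨n, hn⟩ := (tor_of_isArtinian : Tor (maximalIdeal R) H) h
  obtain ⟨t, ht, ht'⟩ := (Filter.Eventually.and hh (hU n)).exists
  have h1 := hN t h ht
  rwa [add_smul, delta_smul hδ ht' hn, add_zero] at h1

include hU hδ in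
theorem ulim_pow {N' : ℕ → Submodule R H} (hNF : ∀ t, ∀ h ∈ N' t, (x + δ t) ^ (p - 1) • F h ∈ N t) :
    ∀ h ∈ ulim U N', x ^ (p - 1) • F h ∈ ulim U N := by
  intro h hh
  obtain ⟨n, hn⟩ := (tor_of_isArtinian : Tor (maximalIdeal R) H) (F h)
  change ∀ᶠ t in (U : Filter ℕ), x ^ (p - 1) • F h ∈ N t
  have hh' : ∀ᶠ t in (U : Filter ℕ), h ∈ N' t := hh
  filter_upwards [hh', hU n] with t ht ht'
  rw [← pow_delta_smul hδ x ht' hn]
  exact hNF t h ht

end

theorem abs (p : ℕ) [Fact p.Prime] {R : Type u} [CommRing R] [IsNoetherianRing R] [IsLocalRing R] [CharP R p]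
    {H : Type v} [AddCommGroup H] [Module R H] [IsArtinian R H] (F : H →+ H)
    (hF : ∀ (r : R) (h : H), F (r • h) = r ^ p • F h) {x : R} (hx : x ∈ maximalIdeal R) (hAN : ANK p F x) :
    ∃ n : ℕ, ∀ δ ∈ maximalIdeal R ^ n, ANK p F (x + δ) := by
  have hp : p.Prime := Fact.out
  by_contra hcon
  push Not at hcon
  choose δ hδ hbad using hcon
  unfold ANK at hbad
  push Not at hbad
  choose N hN hNF η hη hηN hηn using hbad
  have htor : Tor (maximalIdeal R) H := tor_of_isArtinian
  obtain ⟨d, g, hg⟩ := Submodule.fg_iff_exists_fin_generating_family.mp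
    (IsNoetherian.noetherian (maximalIdeal R))
  replace hg : Ideal.span (Set.range g) = maximalIdeal R := hg
  have hgr : ∀ b, ∀ h ∈ E (maximalIdeal R) H b, F h ∈ E (maximalIdeal R) H (p * b + d * (p - 1)) :=
    fun b h hh => growth hg hp.pos F hF b h hh
  let U : Ultrafilter ℕ := hyperfilter ℕ
  have hU : ∀ n : ℕ, ∀ᶠ t in (U : Filter ℕ), n ≤ t := fun n =>
    (eventually_ge_atTop n).filter_mono Nat.hyperfilter_le_atTop
  let N' : ℕ → Submodule R H := fun t => N t ⊔ Submodule.span R {η t}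
  have hN' : ∀ t, ∀ h ∈ N' t, (x + δ t) • h = 0 := by
    intro t h hh
    obtain ⟨a, ha, b, hb, rfl⟩ := Submodule.mem_sup.mp hh
    obtain ⟨r, rfl⟩ := Submodule.mem_span_singleton.mp hb
    rw [smul_add, hN t a ha, smul_comm, hη, smul_zero, add_zero]
  have hNF' : ∀ t, ∀ h ∈ N' t, (x + δ t) ^ (p - 1) • F h ∈ N t := by
    intro t h hh
    obtain ⟨a, ha, b, hb, rfl⟩ := Submodule.mem_sup.mp hh
    obtain ⟨r, rfl⟩ := Submodule.mem_span_singleton.mp hb
    rw [map_add, smul_add, hF, smul_comm]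
    exact Submodule.add_mem _ (hNF t a ha) (Submodule.smul_mem _ _ (hηN t))
  -- the limits
  obtain ⟨N0, hN0⟩ : ∃ N0, N0 = ulim U N := ⟨_, rfl⟩
  have hx0 : ∀ h ∈ N0, x • h = 0 := by rw [hN0]; exact ulim_kill U hU hδ N hN
  have hst0 : ∀ h ∈ N0, x ^ (p - 1) • F h ∈ N0 := by rw [hN0]; exact ulim_pow p F U hU hδ N hNF
  have hlim : ulim U N' = N0 := by
    apply le_antisymm
    · intro h hh
      have h1 := ulim_kill U hU hδ N' hN' h hh
      have h2 := ulim_pow p F U hU hδ N hNF' h hh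
      rw [← hN0] at h2
      exact hAN N0 hx0 hst0 h h1 h2
    · rw [hN0]
      intro h hh
      have hh' : ∀ᶠ t in (U : Filter ℕ), h ∈ N t := hh
      change ∀ᶠ t in (U : Filter ℕ), h ∈ N' t
      filter_upwards [hh'] with t ht
      exact (le_sup_left : N t ≤ N' t) ht
  -- `N0` is generated by `G(N0)`
  let G : H →+ H :=
    { toFun := fun h => x ^ (p - 1) • F h
      map_zero' := by rw [map_zero, smul_zero]
      map_add' := fun a b => by rw [map_add, smul_add] }
  have hGdef : ∀ h, G h = x ^ (p - 1) • F h := fun _ => rfl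
  have hG : ∀ (r : R) (h : H), G (r • h) = r ^ p • G h := by
    intro r h
    rw [hGdef, hGdef, hF, smul_comm]
  have hfull : ∀ h ∈ N0, h ∈ Submodule.span R (G '' (N0 : Set H)) := by
    intro h hh
    have hle : Submodule.span R (G '' (N0 : Set H)) ≤ N0 := by
      rw [Submodule.span_le]
      rintro _ ⟨ν, hν, rfl⟩
      exact hst0 ν hν
    refine hAN (Submodule.span R (G '' (N0 : Set H))) (fun a ha => hx0 a (hle ha)) ?_ h (hx0 h hh)
      (Submodule.subset_span ⟨h, hh, rfl⟩)
    intro a ha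
    exact Submodule.subset_span ⟨a, hle ha, rfl⟩
  -- constants
  obtain ⟨c, hc⟩ := dar hg N0
  let G0 : N0 →+ N0 :=
    { toFun := fun h => ⟨G (h : H), hst0 h h.2⟩
      map_zero' := Subtype.ext (map_zero G)
      map_add' := fun a b => Subtype.ext (map_add G (a : H) (b : H)) }
  have hmapE : ∀ (n : ℕ) (h : N0), h ∈ E (maximalIdeal R) N0 n ↔ (h : H) ∈ E (maximalIdeal R) H n := by
    intro n h
    constructor
    · intro hh r hr
      exact congrArg Subtype.val (hh r hr)
    · intro hh r hr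
      exact Subtype.ext (hh r hr)
  have hart : IsArtinianRing (R ⧸ maximalIdeal R) :=
    Pool.Agent.Helper14.FFull.isArtinianRing_quotient_of_radical_eq _
      (maximalIdeal.isMaximal R).isPrime.radical
  obtain ⟨c', hc'⟩ := star p hg hart (N := N0) (fun h => by
      obtain ⟨n, hn⟩ := htor h
      exact ⟨n, (hmapE n h).mpr hn⟩) G0 (fun r h => Subtype.ext (hG r (h : H))) (by
      intro h
      have h1 := hfull h h.2
      have h2 : Submodule.span R (G '' (N0 : Set H)) ≤
          Submodule.map N0.subtype (Submodule.span R (Set.range G0)) := by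
        rw [Submodule.span_le]
        rintro _ ⟨ν, hν, rfl⟩
        exact ⟨G0 ⟨ν, hν⟩, Submodule.subset_span ⟨_, rfl⟩, rfl⟩
      obtain ⟨h', hh', he⟩ := h2 h1
      have : h' = h := Subtype.ext he
      rwa [this] at hh')
  have hstar : ∀ b n : ℕ, n + c' ≤ p * b → ∀ ζ ∈ N0 ⊓ E (maximalIdeal R) H n,
      ζ ∈ Submodule.span R (G '' ((N0 ⊓ E (maximalIdeal R) H b : Submodule R H) : Set H)) := by
    rintro b n hbn ζ ⟨h1, h2⟩
    have h3 := hc' b n hbn ⟨ζ, h1⟩ ((hmapE n ⟨ζ, h1⟩).mpr h2)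
    have h4 : Submodule.map N0.subtype (Submodule.span R (G0 '' (E (maximalIdeal R) N0 b : Set N0))) ≤
        Submodule.span R (G '' ((N0 ⊓ E (maximalIdeal R) H b : Submodule R H) : Set H)) := by
      rw [Submodule.map_span, Submodule.span_le]
      rintro _ ⟨_, ⟨ν, hν, rfl⟩, rfl⟩
      exact Submodule.subset_span ⟨ν, ⟨ν.2, (hmapE b ν).mp hν⟩, rfl⟩
    exact h4 ⟨_, h3, rfl⟩
  obtain ⟨k, N1, hdeep⟩ := deep htor hp.two_le (d * (p - 1)) c c' N0 G
    (fun b h hh => Submodule.smul_mem _ _ (hgr b h hh)) hc hstar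
  -- traces
  have hr1 := rigid p F hF hx hAN U hU δ hδ N hN hNF N0 (fun h => by rw [hN0]; rfl) k
  have hr2 := rigid p F hF hx hAN U hU δ hδ N' hN'
    (fun t h hh => (le_sup_left : N t ≤ N' t) (hNF' t h hh)) N0 (fun h => by rw [← hlim]; rfl) k
  obtain ⟨t, ⟨ht1, ht2⟩, ht3⟩ := ((hr1.and hr2).and (hU N1)).exists
  have hfin := hdeep
    { toFun := fun h => (x + δ t) ^ (p - 1) • F h
      map_zero' := by rw [map_zero, smul_zero]
      map_add' := fun a b => by rw [map_add, smul_add] }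
    (by
      intro b h hh
      change (x + δ t) ^ (p - 1) • F h - x ^ (p - 1) • F h ∈ _
      rw [← sub_smul]
      apply smul_mem_E _ _ (hgr b h hh)
      obtain ⟨e, he⟩ := sub_dvd_pow_sub_pow (x + δ t) x (p - 1)
      rw [add_sub_cancel_left] at he
      rw [he]
      exact Ideal.mul_mem_right _ _ (Ideal.pow_le_pow_right ht3 (hδ t)))
    (N t) (N' t) le_sup_left (fun h hh => hNF t h hh) (fun h hh => ⟨ht1 h hh, ht2 h hh⟩)
  exact hηn t (hfin ((le_sup_right : Submodule.span R {η t} ≤ N' t) (Submodule.mem_span_singleton_self _)))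

end Pool.Agent.Helper24.AN
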