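import Mathlib

/-!
# `K = κ K ^ p` implies that `K` is algebraic over `κ` (block ALG)

Proof. Every `κ`-derivation of `K` is zero on `κ` and on the `p`-th powers, so on `K`, so `Ω[K⁄κ] = 0`, `K` is formally
unramified over `κ` and finitely generated, so separable algebraic (`Algebra.FormallyUnramified.iff_isSeparable`).
-/

namespace Pool.Agent.Helper24.AN

/-- A finitely generated extension `L` of `k` with `L = k (L ^ p)` is algebraic; so it is `k`, if `k` is
algebraically closed in the ambient field. -/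
theorem isAlgebraic_of_frob {k K : Type*} [Field k] [Field K] [Algebra k K] (p : ℕ) [CharP K p]
    (L : IntermediateField k K) (hL : L.FG)
    (h : L ≤ IntermediateField.adjoin k ((fun y : K => y ^ p) '' (L : Set K))) :
    Algebra.IsAlgebraic k L := by
  have hE : Algebra.EssFiniteType k L := IntermediateField.essFiniteType_iff.2 hL
  let D := KaehlerDifferential.D k L
  have hp : (p : L) = 0 := by
    apply Subtype.val_injective
    push_cast
    exact CharP.cast_eq_zero K p
  have hD : ∀ x : K, x ∈ IntermediateField.adjoin k ((fun y : K => y ^ p) '' (L : Set K)) →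
      ∃ hx : x ∈ L, D ⟨x, hx⟩ = 0 := by
    intro x hx
    induction hx using IntermediateField.adjoin_induction with
    | mem x hx =>
      obtain ⟨y, hy, rfl⟩ := hx
      refine ⟨pow_mem hy p, ?_⟩
      have h1 : (⟨y ^ p, pow_mem hy p⟩ : L) = (⟨y, hy⟩ : L) ^ p := rfl
      change D (⟨y ^ p, pow_mem hy p⟩ : L) = 0
      rw [h1, Derivation.leibniz_pow, ← Nat.cast_smul_eq_nsmul L, hp, zero_smul]
    | algebraMap x =>
      exact ⟨L.algebraMap_mem x, D.map_algebraMap x⟩
    | add x y _ _ hx hy =>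
      obtain ⟨hx, hx'⟩ := hx
      obtain ⟨hy, hy'⟩ := hy
      refine ⟨add_mem hx hy, ?_⟩
      have h1 : (⟨x + y, add_mem hx hy⟩ : L) = ⟨x, hx⟩ + ⟨y, hy⟩ := rfl
      rw [h1, map_add, hx', hy', add_zero]
    | inv x _ hx =>
      obtain ⟨hx, hx'⟩ := hx
      refine ⟨inv_mem hx, ?_⟩
      have h1 : (⟨x⁻¹, inv_mem hx⟩ : L) = (⟨x, hx⟩ : L)⁻¹ := rfl
      rw [h1, Derivation.leibniz_inv, hx', smul_zero]
    | mul x y _ _ hx hy =>
      obtain ⟨hx, hx'⟩ := hx
      obtain ⟨hy, hy'⟩ := hy
      refine ⟨mul_mem hx hy, ?_⟩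
      have h1 : (⟨x * y, mul_mem hx hy⟩ : L) = ⟨x, hx⟩ * ⟨y, hy⟩ := rfl
      rw [h1, Derivation.leibniz, hx', hy', smul_zero, smul_zero, add_zero]
  have hD0 : ∀ x : L, D x = 0 := fun x => (hD x.1 (h x.2)).2
  have hU : Algebra.FormallyUnramified k L := by
    constructor
    rw [← Submodule.subsingleton_iff (R := L), ← subsingleton_iff_bot_eq_top,
      ← KaehlerDifferential.span_range_derivation, eq_comm, Submodule.span_eq_bot]
    rintro _ ⟨x, rfl⟩
    exact hD0 x
  have hS : Algebra.IsSeparable k L := Algebra.FormallyUnramified.isSeparable k L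
  infer_instance

theorem alg_of_pow {κ L : Type*} [Field κ] [Field L] [Algebra κ L] (p : ℕ) [Fact p.Prime] [CharP L p]
    (K : IntermediateField κ L) (hfg : K.FG) (h : K ≤ IntermediateField.adjoin κ {y | ∃ x ∈ K, y = x ^ p}) :
    ∀ x ∈ K, IsAlgebraic κ x := by
  have h0 : {y : L | ∃ x ∈ K, y = x ^ p} = (fun y : L => y ^ p) '' (K : Set L) := by
    ext y
    constructor
    · rintro ⟨x, hx, rfl⟩
      exact ⟨x, hx, rfl⟩
    · rintro ⟨x, hx, rfl⟩
      exact ⟨x, hx, rfl⟩
  rw [h0] at h
  have h1 := isAlgebraic_of_frob p K hfg h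
  intro x hx
  have h2 : IsAlgebraic κ (⟨x, hx⟩ : K) := h1.isAlgebraic _
  exact (isAlgebraic_algebraMap_iff (A := L) (algebraMap K L).injective).2 h2

end Pool.Agent.Helper24.AN
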