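import Mathlib

/-!
# Annihilators of the powers of an ideal
-/

namespace Pool.Agent.Helper24.AN

variable {R : Type*} [CommRing R] (I : Ideal R) (H : Type*) [AddCommGroup H] [Module R H]

/-- The elements of `H` which are killed by `I ^ n`. -/
def E (n : ℕ) : Submodule R H where
  carrier := {h | ∀ r ∈ I ^ n, r • h = 0}
  add_mem' := fun {a b} ha hb r hr => by rw [smul_add, ha r hr, hb r hr, add_zero]
  zero_mem' := fun r _ => smul_zero r
  smul_mem' := fun c h hh r hr => by rw [smul_comm, hh r hr, smul_zero]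

/-- Every element of `H` is killed by a power of `I`. -/
def Tor : Prop := ∀ h : H, ∃ n, h ∈ E I H n

variable {H}

theorem mem_E {n : ℕ} {h : H} : h ∈ E I H n ↔ ∀ r ∈ I ^ n, r • h = 0 := Iff.rfl

theorem E_zero : E I H 0 = ⊥ := by
  rw [eq_bot_iff]
  intro h hh
  have := hh 1 (by rw [pow_zero, Ideal.one_eq_top]; trivial)
  rwa [one_smul] at this

theorem E_mono {m n : ℕ} (h : m ≤ n) : E I H m ≤ E I H n :=
  fun _ hh r hr => hh r (Ideal.pow_le_pow_right h hr)

theorem smul_mem_E {j n : ℕ} {r : R} (hr : r ∈ I ^ j) {h : H} (hh : h ∈ E I H n) :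
    r • h ∈ E I H (n - j) := by
  intro s hs
  rw [smul_smul]
  apply hh
  rcases le_total j n with hjn | hjn
  · rw [← Nat.sub_add_cancel hjn, pow_add]
    exact Ideal.mul_mem_mul hs hr
  · exact Ideal.mul_mem_left _ _ (Ideal.pow_le_pow_right hjn hr)

theorem smul_mem_E_one {n : ℕ} {r : R} (hr : r ∈ I) {h : H} (hh : h ∈ E I H (n + 1)) :
    r • h ∈ E I H n :=
  smul_mem_E I (j := 1) (n := n + 1) (by rwa [pow_one]) hh

theorem mem_E_add {n j : ℕ} {h : H} : h ∈ E I H (n + j) ↔ ∀ r ∈ I ^ j, r • h ∈ E I H n := by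
  constructor
  · intro hh r hr
    have := smul_mem_E I hr hh
    rwa [Nat.add_sub_cancel] at this
  · intro hh r hr
    rw [add_comm, pow_add] at hr
    refine Submodule.smul_induction_on (p := fun r => r • h = 0) hr ?_ ?_
    · intro a ha b hb
      rw [smul_eq_mul, mul_comm, mul_smul]
      exact hh a ha b hb
    · intro a b ha hb
      rw [add_smul, ha, hb, add_zero]

theorem mem_E_succ {n : ℕ} {d : ℕ} {x : Fin d → R} (hx : Ideal.span (Set.range x) = I) {h : H} :
    h ∈ E I H (n + 1) ↔ ∀ j, x j • h ∈ E I H n := by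
  rw [mem_E_add, pow_one]
  constructor
  · intro hh j
    exact hh _ (hx ▸ Ideal.subset_span ⟨j, rfl⟩)
  · intro hh r hr
    rw [← hx] at hr
    induction hr using Submodule.span_induction with
    | mem y hy => obtain ⟨j, rfl⟩ := hy; exact hh j
    | zero => rw [zero_smul]; exact Submodule.zero_mem _
    | add a b _ _ ha hb => rw [add_smul]; exact Submodule.add_mem _ ha hb
    | smul a b _ hb => rw [smul_eq_mul, mul_smul]; exact Submodule.smul_mem _ _ hb

/-- the submodule generated by the image of `G` on `E n` is the typical target -/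
theorem E_one_iff {d : ℕ} {x : Fin d → R} (hx : Ideal.span (Set.range x) = I) {h : H} :
    h ∈ E I H 1 ↔ ∀ j, x j • h = 0 := by
  rw [show (1 : ℕ) = 0 + 1 from rfl, mem_E_succ I hx]
  simp only [E_zero, Submodule.mem_bot]

end Pool.Agent.Helper24.AN
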