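import Mathlib

/-!
# The field of definition of a subspace (block FD)

`V` is a vector space over `L` with a basis `b`. A vector is rational over `K` if its coordinates are in `K`.

Proof of `exists_field`. Choose a finite set `B` of indices of minimal size such that a vector of `S` with the
coordinates `i ∈ B` equal to `0` is `0`. By minimality there are vectors `v c`, `c ∈ B`, in `S` with the coordinates
`δ i c`, `i ∈ B`. Let `K` be the field generated by the coordinates of the `v c`. If `S` is spanned by
vectors rational over `K'`, then by `rat_ker` so is the line generated by `v c`, so `v c` is rational over `K'`.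

Proof of `rat_ker`. Let `v ∈ S`, `v = ∑ c i • z i` with `z i ∈ Z` rational over `K'`. Let `β l` be a basis of `L` over
`K'`, `c i = ∑ a i l β l` with `a i l ∈ K'`; then `v = ∑ β l • w l`, `w l = ∑ a i l • z i` in `Z`, rational
over `K'`; `0 = T s v = ∑ β l • T s (w l)`, the coordinates of `T s (w l)` are in `K'` and the `β l` are independent over `K'`, so
`T s (w l) = 0` and `w l ∈ S`.
-/

namespace Pool.Agent.Helper24.AN

open Module

variable {κ L : Type*} [Field κ] [Field L] [Algebra κ L] {V : Type*} [AddCommGroup V] [Module L V] {ι : Type*}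

/-- All coordinates of `v` are in `K`. -/
def Rat (b : Basis ι L V) (K : IntermediateField κ L) (v : V) : Prop := ∀ i, b.repr v i ∈ K

theorem Rat.zero {b : Basis ι L V} {K : IntermediateField κ L} : Rat b K 0 := fun i => by
  rw [map_zero, Finsupp.zero_apply]
  exact K.zero_mem

theorem Rat.add {b : Basis ι L V} {K : IntermediateField κ L} {v w : V} (hv : Rat b K v) (hw : Rat b K w) :
    Rat b K (v + w) := fun i => by
  rw [map_add, Finsupp.add_apply]
  exact K.add_mem (hv i) (hw i)

theorem Rat.smul {b : Basis ι L V} {K : IntermediateField κ L} {v : V} {c : L} (hc : c ∈ K) (hv : Rat b K v) :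
    Rat b K (c • v) := fun i => by
  rw [map_smul, Finsupp.smul_apply, smul_eq_mul]
  exact K.mul_mem hc (hv i)

theorem Rat.sum {b : Basis ι L V} {K : IntermediateField κ L} {J : Type*} (s : Finset J) (w : J → V)
    (h : ∀ j ∈ s, Rat b K (w j)) : Rat b K (∑ j ∈ s, w j) := fun i => by
  rw [map_sum, Finsupp.finsetSum_apply]
  exact K.sum_mem fun j hj => h j hj i

theorem Rat.basis {b : Basis ι L V} {K : IntermediateField κ L} (i : ι) : Rat b K (b i) := fun j => by
  classical
  rw [b.repr_self, Finsupp.single_apply]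
  split_ifs
  · exact K.one_mem
  · exact K.zero_mem

theorem exists_decomp (b : Basis ι L V) (K' : IntermediateField κ L) (Z : Submodule L V) {v : V}
    (hv : v ∈ Submodule.span L {v | v ∈ Z ∧ Rat b K' v}) {M : Type*} (β : Basis M K' L) :
    ∃ (s : Finset M) (w : M → V), (∀ m, w m ∈ Z ∧ Rat b K' (w m)) ∧ v = ∑ m ∈ s, β m • w m := by
  classical
  obtain ⟨n, f, g, rfl⟩ := Submodule.mem_span_set'.1 hv
  refine ⟨Finset.univ.biUnion fun i => (β.repr (f i)).support,
    fun m => ∑ i, ((β.repr (f i) m : K') : L) • (g i : V), fun m => ⟨?_, ?_⟩, ?_⟩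
  · exact Submodule.sum_mem _ fun i _ => Submodule.smul_mem _ _ (g i).2.1
  · exact Rat.sum _ _ fun i _ => Rat.smul (β.repr (f i) m).2 (g i).2.2
  · simp only [Finset.smul_sum]
    rw [Finset.sum_comm]
    refine Finset.sum_congr rfl fun i _ => ?_
    have h1 : f i = ∑ m ∈ Finset.univ.biUnion fun i => (β.repr (f i)).support,
        β m * ((β.repr (f i) m : K') : L) := by
      conv_lhs => rw [← β.linearCombination_repr (f i), Finsupp.linearCombination_apply]
      refine (Finsupp.sum_of_support_subset _ (s := Finset.univ.biUnion fun i => (β.repr (f i)).support)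
        (fun m hm => Finset.mem_biUnion.2 ⟨i, Finset.mem_univ _, hm⟩) (fun m a => a • β m)
        (fun m _ => zero_smul _ _)).trans ?_
      refine Finset.sum_congr rfl fun m _ => ?_
      rw [mul_comm]
      rfl
    conv_lhs => rw [h1, Finset.sum_smul]
    refine Finset.sum_congr rfl fun m _ => ?_
    rw [smul_smul]

theorem rat_ker (b : Basis ι L V) (K' : IntermediateField κ L) (Z : Submodule L V)
    (hZ : Z ≤ Submodule.span L {v | v ∈ Z ∧ Rat b K' v}) {J : Type*} (T : J → V →ₗ[L] V)
    (hT : ∀ s v, Rat b K' v → Rat b K' (T s v)) (S : Submodule L V)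
    (hS : ∀ v, v ∈ S ↔ v ∈ Z ∧ ∀ s, T s v = 0) : S ≤ Submodule.span L {v | v ∈ S ∧ Rat b K' v} := by
  classical
  intro v hv
  obtain ⟨hvZ, hvT⟩ := (hS v).1 hv
  let β := Basis.ofVectorSpace K' L
  obtain ⟨s, w, hw, rfl⟩ := exists_decomp b K' Z (hZ hvZ) β
  refine Submodule.sum_mem _ fun m hm => Submodule.smul_mem _ _ (Submodule.subset_span ⟨?_, (hw m).2⟩)
  rw [hS]
  refine ⟨(hw m).1, fun t => ?_⟩
  have h1 := hvT t
  rw [map_sum] at h1
  apply b.repr.injective
  ext i
  rw [map_zero, Finsupp.zero_apply]
  have h2 : ∑ m ∈ s, (⟨b.repr (T t (w m)) i, hT t _ (hw m).2 i⟩ : K') • β m = 0 := by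
    have h3 := congrArg (fun y => b.repr y i) h1
    simp only [map_sum, Finsupp.finsetSum_apply, map_smul, Finsupp.smul_apply, smul_eq_mul, map_zero,
      Finsupp.zero_apply] at h3
    rw [← h3]
    refine Finset.sum_congr rfl fun m _ => ?_
    rw [mul_comm]
    rfl
  have h4 := linearIndependent_iff'.1 β.linearIndependent s _ h2 m hm
  exact congrArg Subtype.val h4

theorem exists_field (κ : Type*) [Field κ] [Algebra κ L] (b : Basis ι L V) (S : Submodule L V)
    [FiniteDimensional L S] :
    ∃ K : IntermediateField κ L, K.FG ∧ S ≤ Submodule.span L {v | v ∈ S ∧ Rat b K v} ∧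
      ∀ K' : IntermediateField κ L, S ≤ Submodule.span L {v | v ∈ S ∧ Rat b K' v} → K ≤ K' := by
  classical
  -- a finite set of coordinates which separates the vectors of `S`
  have hex : ∃ n, ∃ B : Finset ι, B.card = n ∧ ∀ v ∈ S, (∀ i ∈ B, b.repr v i = 0) → v = 0 := by
    have hfg : S.FG := (Submodule.fg_iff_finiteDimensional S).2 inferInstance
    obtain ⟨A, hA⟩ := hfg
    refine ⟨_, A.biUnion fun a => (b.repr a).support, rfl, fun v hv h => ?_⟩
    apply b.repr.injective
    ext i
    rw [map_zero, Finsupp.zero_apply]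
    by_cases hi : i ∈ A.biUnion fun a => (b.repr a).support
    · exact h i hi
    · have h1 : S ≤ LinearMap.ker (b.coord i) := by
        rw [← hA, Submodule.span_le]
        intro a ha
        rw [SetLike.mem_coe, LinearMap.mem_ker, b.coord_apply]
        by_contra hne
        exact hi (Finset.mem_biUnion.2 ⟨a, ha, Finsupp.mem_support_iff.2 hne⟩)
      have h2 := h1 hv
      rwa [LinearMap.mem_ker, b.coord_apply] at h2
  -- a minimal such set
  obtain ⟨B, hBn, hB⟩ := Nat.find_spec hex
  have hmin : ∀ c ∈ B, ∃ v ∈ S, (∀ i ∈ B.erase c, b.repr v i = 0) ∧ v ≠ 0 := by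
    intro c hc
    by_contra hcon
    push Not at hcon
    have h1 : (B.erase c).card < Nat.find hex := by
      rw [← hBn]
      exact Finset.card_erase_lt_of_mem hc
    exact Nat.find_min hex h1 ⟨B.erase c, rfl, hcon⟩
  have hu : ∀ c, ∃ u : V, c ∈ B → u ∈ S ∧ b.repr u c = 1 ∧ ∀ i ∈ B, i ≠ c → b.repr u i = 0 := by
    intro c
    by_cases hc : c ∈ B
    · obtain ⟨v, hv, hv0, hne⟩ := hmin c hc
      have hvc : b.repr v c ≠ 0 := by
        intro h0
        apply hne
        apply hB v hv
        intro i hi
        by_cases hic : i = c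
        · rw [hic]
          exact h0
        · exact hv0 i (Finset.mem_erase.2 ⟨hic, hi⟩)
      refine ⟨(b.repr v c)⁻¹ • v, fun _ => ⟨Submodule.smul_mem _ _ hv, ?_, fun i hi hic => ?_⟩⟩
      · rw [map_smul, Finsupp.smul_apply, smul_eq_mul, inv_mul_cancel₀ hvc]
      · rw [map_smul, Finsupp.smul_apply, hv0 i (Finset.mem_erase.2 ⟨hic, hi⟩), smul_zero]
    · exact ⟨0, fun h => absurd h hc⟩
  choose u hu using hu
  -- the vectors of `S` in terms of the dual basis
  have hcomb : ∀ v ∈ S, v = ∑ c ∈ B, b.repr v c • u c := by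
    intro v hv
    rw [← sub_eq_zero]
    apply hB
    · exact Submodule.sub_mem _ hv (Submodule.sum_mem _ fun c hc => Submodule.smul_mem _ _ (hu c hc).1)
    · intro i hi
      rw [map_sub, Finsupp.sub_apply, map_sum, Finsupp.finsetSum_apply, Finset.sum_eq_single i]
      · rw [map_smul, Finsupp.smul_apply, (hu i hi).2.1, smul_eq_mul, mul_one, sub_self]
      · intro c hc hci
        rw [map_smul, Finsupp.smul_apply, (hu c hc).2.2 i hi (Ne.symm hci), smul_zero]
      · intro h
        exact absurd hi h
  refine ⟨IntermediateField.adjoin κ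
    (↑(B.biUnion fun c => (b.repr (u c)).support.image fun i => b.repr (u c) i) : Set L),
    IntermediateField.fg_adjoin_finset _, ?_, ?_⟩
  · intro v hv
    rw [hcomb v hv]
    refine Submodule.sum_mem _ fun c hc => Submodule.smul_mem _ _ (Submodule.subset_span ⟨(hu c hc).1, ?_⟩)
    intro i
    by_cases hi : b.repr (u c) i = 0
    · rw [hi]
      exact IntermediateField.zero_mem _
    · apply IntermediateField.subset_adjoin
      rw [Finset.mem_coe, Finset.mem_biUnion]
      exact ⟨c, hc, Finset.mem_image.2 ⟨i, Finsupp.mem_support_iff.2 hi, rfl⟩⟩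
  · intro K' hK'
    rw [IntermediateField.adjoin_le_iff]
    intro y hy
    rw [Finset.mem_coe, Finset.mem_biUnion] at hy
    obtain ⟨c, hc, hy⟩ := hy
    obtain ⟨i0, _, rfl⟩ := Finset.mem_image.1 hy
    -- the line generated by `u c`
    let T : {i // i ∈ B ∧ i ≠ c} → V →ₗ[L] V := fun i => (b.coord i).smulRight (b i)
    have hTapp : ∀ i v, T i v = b.repr v i • b i := fun i v => by
      change (b.coord i).smulRight (b i) v = _
      rw [LinearMap.smulRight_apply, b.coord_apply]
    let Sc : Submodule L V := S ⊓ ⨅ i, LinearMap.ker (T i)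
    have hSc : ∀ v, v ∈ Sc ↔ v ∈ S ∧ ∀ s, T s v = 0 := by
      intro v
      simp only [Sc, Submodule.mem_inf, Submodule.mem_iInf, LinearMap.mem_ker]
    have hTrat : ∀ s v, Rat b K' v → Rat b K' (T s v) := by
      intro s v hv
      rw [hTapp]
      exact Rat.smul (hv _) (Rat.basis _)
    have h1 := rat_ker b K' S hK' T hTrat Sc hSc
    have hTz : ∀ i v, T i v = 0 ↔ b.repr v i = 0 := by
      intro i v
      rw [hTapp]
      constructor
      · intro h
        have h2 := congrArg (fun y => b.repr y i) h
        simpa using h2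
      · intro h
        rw [h, zero_smul]
    have huc : u c ∈ Sc := by
      rw [hSc]
      refine ⟨(hu c hc).1, fun i => ?_⟩
      rw [hTz]
      exact (hu c hc).2.2 i i.2.1 i.2.2
    have hne : ∃ w ∈ Sc, Rat b K' w ∧ w ≠ 0 := by
      by_contra hcon
      push Not at hcon
      have h2 := h1 huc
      have h3 : Submodule.span L {v | v ∈ Sc ∧ Rat b K' v} = ⊥ := by
        rw [Submodule.span_eq_bot]
        intro v hv
        exact hcon v hv.1 hv.2
      rw [h3, Submodule.mem_bot] at h2
      have h4 := (hu c hc).2.1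
      rw [h2, map_zero, Finsupp.zero_apply] at h4
      exact zero_ne_one h4
    obtain ⟨w, hw, hwr, hw0⟩ := hne
    have hw1 : w = b.repr w c • u c := by
      have h2 := hcomb w ((hSc w).1 hw).1
      rw [Finset.sum_eq_single c] at h2
      · exact h2
      · intro i hi hic
        rw [(hTz ⟨i, hi, hic⟩ w).1 (((hSc w).1 hw).2 ⟨i, hi, hic⟩), zero_smul]
      · intro h
        exact absurd hc h
    have hwc : b.repr w c ≠ 0 := by
      intro h
      apply hw0
      rw [hw1, h, zero_smul]
    have h5 : u c = (b.repr w c)⁻¹ • w := by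
      conv_rhs => rw [hw1]
      rw [map_smul, Finsupp.smul_apply, (hu c hc).2.1, smul_eq_mul, mul_one, smul_smul, inv_mul_cancel₀ hwc, one_smul]
    rw [h5]
    exact Rat.smul (K'.inv_mem (hwr c)) hwr i0

end Pool.Agent.Helper24.AN
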