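import Pool.Agent.Helper24.AN.Tan
import Pool.Agent.Helper24.AN.Rigid

/-!
# Anti-nilpotency of a quotient ring and of the annihilator of `x` (block TAN2)

Proof. Compare `kerFull_of_TF`, `TF_of_kerFull` (Helper14/FFull/Claims.lean). A cocycle `ζ` of `A = R / x` is `piCC f a u` with
`DD u = x z`; `ζ ↦ z` is a surjective map from the cocycles of `A` to the classes `z` with `x z = 0`, compatible with `powCC` and
`x ^ (p - 1) F`; if `x` is surjective on the cohomology, its kernel is `Bc`.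
`TF_of_TAN`: the submodule `N` generated by `Bc` and the `powCC w`, `w` cocycle, is stable.
-/

namespace Pool.Agent.Helper24.AN

open Pool.Agent.Helper14.FFull

universe u

theorem mem_Zc_univ {A : Type u} [CommRing A] {n : ℕ} (b : Fin n → A) (z : CC b A) :
    z ∈ Zc b Finset.univ ↔ DD b A z = 0 :=
  ⟨fun h => funext fun σ => h σ (Finset.subset_univ σ), fun h σ _ => congrFun h σ⟩

theorem mem_Bc_univ {A : Type u} [CommRing A] {n : ℕ} (b : Fin n → A) (z : CC b A) :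
    z ∈ Bc b Finset.univ ↔ ∃ u, z = DD b A u :=
  ⟨fun ⟨u, hu⟩ => ⟨u, funext fun σ => hu σ (Finset.subset_univ σ)⟩, fun ⟨u, hu⟩ => ⟨u, fun σ _ => congrFun hu σ⟩⟩

theorem TF_of_TAN {A : Type u} [CommRing A] (p : ℕ) [Fact p.Prime] [CharP A p] {n : ℕ} (b : Fin n → A)
    (h : TAN b p Finset.univ) : TF b p Finset.univ := by
  set T : Submodule A (CC b A) := Submodule.span A {x : CC b A | ∃ w : CC b A,
    (∀ σ ⊆ Finset.univ, DD b A w σ = 0) ∧ x = powCC b p w} with hT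
  have hTZ : T ≤ Zc b Finset.univ := by
    rw [hT, Submodule.span_le]
    rintro _ ⟨w, hw, rfl⟩
    exact powCC_mem_Zc b p hw
  have hpow : ∀ w ∈ Zc b Finset.univ, powCC b p w ∈ T := fun w hw => Submodule.subset_span ⟨w, hw, rfl⟩
  intro z hz
  have h1 := h (T ⊔ Bc b Finset.univ) le_sup_right (sup_le hTZ (Bc_le_Zc b _)) (by
    intro w hw
    obtain ⟨a, ha, c, hc, rfl⟩ := Submodule.mem_sup.1 hw
    rw [powCC_add]
    exact Submodule.add_mem_sup (hpow a (hTZ ha)) (powCC_mem_Bc b p hc)) z hz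
    (Submodule.mem_sup_left (hpow z hz))
  obtain ⟨v, hv, c, ⟨u, hu⟩, rfl⟩ := Submodule.mem_sup.1 h1
  exact ⟨v, hv, u, fun σ hσ => by rw [Pi.add_apply, hu σ hσ]⟩

variable {R : Type u} [CommRing R] {A : Type u} [CommRing A] (f : R →+* A) {n : ℕ} (a : Fin n → R)
  (p : ℕ) [Fact p.Prime] [CharP R p]

theorem ANK_of_TAN (hf : Function.Surjective f) {x : R} (hx : x ∈ nonZeroDivisors R)
    (hker : ∀ r, f r = 0 ↔ x ∣ r) (h : TAN (fun j => f (a j)) p Finset.univ) : ANK p (frobCoh a p) x := by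
  have hp : p.Prime := Fact.out
  have hfx : f x = 0 := (hker x).mpr dvd_rfl
  intro N hNx hNF η hη hηN
  -- the submodule of the cochains of `A`
  let N' : Submodule A (CC (fun j => f (a j)) A) :=
    { carrier := {ζ | ∃ (u z : CC a R) (hz : DD a R z = 0), piCC f a u = ζ ∧ DD a R u = x • z ∧
        (Submodule.Quotient.mk ⟨z, hz⟩ : Coh (DD a R)) ∈ N}
      zero_mem' := ⟨0, 0, map_zero _, piCC_zero f a, by rw [map_zero, smul_zero], N.zero_mem⟩
      add_mem' := by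
        rintro _ _ ⟨u, z, hz, rfl, h1, h2⟩ ⟨u', z', hz', rfl, h1', h2'⟩
        exact ⟨u + u', z + z', by rw [map_add, hz, hz', add_zero], piCC_add f a _ _,
          by rw [map_add, h1, h1', smul_add], N.add_mem h2 h2'⟩
      smul_mem' := by
        rintro r _ ⟨u, z, hz, rfl, h1, h2⟩
        obtain ⟨r, rfl⟩ := hf r
        exact ⟨r • u, r • z, by rw [map_smul, hz, smul_zero], piCC_smul f a r u,
          by rw [map_smul, h1, smul_comm], N.smul_mem r h2⟩ }
  have memN' : ∀ ζ, ζ ∈ N' ↔ ∃ (u z : CC a R) (hz : DD a R z = 0), piCC f a u = ζ ∧ DD a R u = x • z ∧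
        (Submodule.Quotient.mk ⟨z, hz⟩ : Coh (DD a R)) ∈ N := fun ζ => Iff.rfl
  have hpow : ∀ (u z : CC a R) (hz : DD a R z = 0), DD a R u = x • z →
      x ^ (p - 1) • frobCoh a p (Submodule.Quotient.mk ⟨z, hz⟩) ∈ N →
      powCC (fun j => f (a j)) p (piCC f a u) ∈ N' := by
    intro u z hz h1 h2
    refine ⟨frobCC a p u, x ^ (p - 1) • frobCC a p z, ?_, piCC_powCC f a p u, ?_, h2⟩
    · rw [map_smul, frobCC_DD, hz, map_zero, smul_zero]
    · rw [frobCC_DD, h1, frobCC_smul, smul_smul, ← pow_succ', Nat.sub_add_cancel hp.pos]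
  obtain ⟨⟨z, hz⟩, rfl⟩ := Submodule.Quotient.mk_surjective _ η
  rw [LinearMap.mem_ker] at hz
  rw [← Submodule.Quotient.mk_smul, coh_mk_eq_zero] at hη
  obtain ⟨u, hu⟩ := hη
  replace hu : DD a R u = x • z := hu
  have h1 := h N' (by
      intro ζ hζ
      obtain ⟨u', rfl⟩ := (mem_Bc_univ _ ζ).1 hζ
      obtain ⟨v, rfl⟩ := piCC_surjective f a hf u'
      exact ⟨DD a R v, 0, map_zero _, piCC_DD f a v, by rw [DD_DD, smul_zero], N.zero_mem⟩) (by
      rintro _ ⟨u, z, hz, rfl, h1, h2⟩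
      rw [mem_Zc_univ, ← piCC_DD, h1, piCC_smul, hfx, zero_smul]) (by
      rintro _ ⟨u, z, hz, rfl, h1, h2⟩
      exact hpow u z hz h1 (hNF _ h2)) (piCC f a u) (by
      rw [mem_Zc_univ, ← piCC_DD, hu, piCC_smul, hfx, zero_smul]) (hpow u z hz hu hηN)
  obtain ⟨u', z', hz', h2, h3, h4⟩ := h1
  obtain ⟨w, hw⟩ := piCC_eq_zero f a (fun r => (hker r).mp)
    (show piCC f a (u - u') = 0 by rw [piCC_sub, h2, sub_self])
  have h5 : z - z' = DD a R w := by
    have : x • (z - z' - DD a R w) = 0 := by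
      rw [smul_sub, smul_sub, ← hu, ← h3, ← map_sub, ← map_smul, ← hw, sub_self]
    exact sub_eq_zero.mp (CC_smul_eq_zero a hx this)
  have h6 : (Submodule.Quotient.mk ⟨z, hz⟩ : Coh (DD a R)) = Submodule.Quotient.mk ⟨z', hz'⟩ := by
    rw [Submodule.Quotient.eq]
    exact ⟨w, h5.symm⟩
  rw [h6]
  exact h4

theorem TAN_of_ANK (hf : Function.Surjective f) {y : R} (hy : y ∈ nonZeroDivisors R)
    (hker : ∀ r, f r = 0 ↔ y ∣ r) (hdiv : ∀ η : Coh (DD a R), ∃ η', y • η' = η)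
    (h : ANK p (frobCoh a p) y) : TAN (fun j => f (a j)) p Finset.univ := by
  have hp : p.Prime := Fact.out
  have hfy : f y = 0 := (hker y).mpr dvd_rfl
  intro N' hB hZ hN' ζ hζ hpζ
  -- the submodule of the cohomology of `R`
  let N : Submodule R (Coh (DD a R)) :=
    { carrier := {η | ∃ (u z : CC a R) (hz : DD a R z = 0), (Submodule.Quotient.mk ⟨z, hz⟩ : Coh (DD a R)) = η ∧
        DD a R u = y • z ∧ piCC f a u ∈ N'}
      zero_mem' := ⟨0, 0, map_zero _, rfl, by rw [map_zero, smul_zero], by rw [piCC_zero]; exact N'.zero_mem⟩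
      add_mem' := by
        rintro _ _ ⟨u, z, hz, rfl, h1, h2⟩ ⟨u', z', hz', rfl, h1', h2'⟩
        exact ⟨u + u', z + z', by rw [map_add, hz, hz', add_zero], rfl,
          by rw [map_add, h1, h1', smul_add], by rw [piCC_add]; exact N'.add_mem h2 h2'⟩
      smul_mem' := by
        rintro r _ ⟨u, z, hz, rfl, h1, h2⟩
        exact ⟨r • u, r • z, by rw [map_smul, hz, smul_zero], rfl,
          by rw [map_smul, h1, smul_comm], by rw [piCC_smul]; exact N'.smul_mem _ h2⟩ }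
  have hpow : ∀ (u z : CC a R) (hz : DD a R z = 0), DD a R u = y • z →
      powCC (fun j => f (a j)) p (piCC f a u) ∈ N' →
      y ^ (p - 1) • frobCoh a p (Submodule.Quotient.mk ⟨z, hz⟩) ∈ N := by
    intro u z hz h1 h2
    refine ⟨frobCC a p u, y ^ (p - 1) • frobCC a p z, ?_, rfl, ?_, ?_⟩
    · rw [map_smul, frobCC_DD, hz, map_zero, smul_zero]
    · rw [frobCC_DD, h1, frobCC_smul, smul_smul, ← pow_succ', Nat.sub_add_cancel hp.pos]
    · rw [piCC_powCC]
      exact h2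
  obtain ⟨u, rfl⟩ := piCC_surjective f a hf ζ
  rw [mem_Zc_univ, ← piCC_DD] at hζ
  obtain ⟨z, hz⟩ := piCC_eq_zero f a (fun r => (hker r).mp) hζ
  have hz0 : DD a R z = 0 := by
    apply CC_smul_eq_zero a hy
    rw [← map_smul, ← hz, DD_DD]
  have h1 := h N (by
      rintro _ ⟨u, z, hz, rfl, h1, h2⟩
      rw [← Submodule.Quotient.mk_smul, coh_mk_eq_zero]
      exact ⟨u, h1⟩) (by
      rintro _ ⟨u, z, hz, rfl, h1, h2⟩
      exact hpow u z hz h1 (hN' _ h2)) (Submodule.Quotient.mk ⟨z, hz0⟩) (by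
      rw [← Submodule.Quotient.mk_smul, coh_mk_eq_zero]
      exact ⟨u, hz⟩) (hpow u z hz0 hz hpζ)
  obtain ⟨u', z', hz', e1, e2, e3⟩ := h1
  rw [Submodule.Quotient.eq] at e1
  obtain ⟨w, hw⟩ := e1
  replace hw : DD a R w = z' - z := hw
  have h2 : DD a R (u' - u - y • w) = 0 := by
    rw [map_sub, map_sub, map_smul, hz, e2, hw, smul_sub]; abel
  obtain ⟨η', hη'⟩ := hdiv (Submodule.Quotient.mk ⟨u' - u - y • w, h2⟩)
  obtain ⟨⟨q, hq⟩, rfl⟩ := Submodule.Quotient.mk_surjective _ η'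
  rw [← Submodule.Quotient.mk_smul, Submodule.Quotient.eq] at hη'
  obtain ⟨q', hq'⟩ := hη'
  replace hq' : DD a R q' = y • q - (u' - u - y • w) := hq'
  have h3 : u = u' + DD a R q' - y • (q + w) := by
    rw [hq', smul_add]; abel
  rw [h3, piCC_sub, piCC_smul, hfy, zero_smul, sub_zero, piCC_add, piCC_DD]
  exact N'.add_mem e3 (hB ((mem_Bc_univ _ _).2 ⟨_, rfl⟩))

end Pool.Agent.Helper24.AN
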