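import Pool.Agent.Helper24.AN.Abs
import Pool.Agent.Helper24.AN.TanClaims
import Pool.Agent.Helper14.FFull.Graded
import Pool.Agent.Helper14.FFull.Stable

/-!
# The graded form and the main theorem (block TAN3)

Compare `graded_of_TF`, `TF_of_graded`, `main` in Helper14/FFull/Graded.lean.
`graded_of_TAN`: for `N ≤ H^i` take the submodule of all cocycles `z` such that the class of the component of degree `i` is in `N`
(`degProj`). `TAN_of_graded`: let `N` be a stable submodule of the total cocycles and `powCC z ∈ N`; show by induction on `j` that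
`z` is in `N` modulo cocycles supported in degrees `≥ j`: `N_j` = classes in `H^j` of the components of degree `j` of the
elements of `N` supported in degrees `≥ j`; `N_j` is stable, the class of the component of degree `j` of `z` is in `N_j`.
-/

namespace Pool.Agent.Helper24.AN

open Pool.Agent.Helper14.FFull Pool.Agent.Helper14.FFull.Graded IsLocalRing

universe u

/-- `N` is stable under the Frobenius action. -/
def FStable {A : Type u} [CommRing A] {n : ℕ} (p : ℕ) (a : Fin n → A) (i : ℕ)
    (N : Submodule A (CechCohomology a i)) : Prop :=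
  ∀ z w : cocycles a i, (∀ σ, (w : CechCochain a) σ = (z : CechCochain a) σ ^ p) →
    (Submodule.Quotient.mk z : CechCohomology a i) ∈ N → (Submodule.Quotient.mk w : CechCohomology a i) ∈ N

/-- The Frobenius action on `H^i / N` is injective for all stable submodules `N`. -/
def GAN {A : Type u} [CommRing A] {n : ℕ} (p : ℕ) (a : Fin n → A) (i : ℕ) : Prop :=
  ∀ N : Submodule A (CechCohomology a i), FStable p a i N →
    ∀ z w : cocycles a i, (∀ σ, (w : CechCochain a) σ = (z : CechCochain a) σ ^ p) →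
      (Submodule.Quotient.mk w : CechCohomology a i) ∈ N → (Submodule.Quotient.mk z : CechCohomology a i) ∈ N

section Graded

variable {A : Type u} [CommRing A] {n : ℕ} (a : Fin n → A)

theorem mem_Zc_univ_g (z : CC a A) : z ∈ Zc a Finset.univ ↔ DD a A z = 0 :=
  ⟨fun h => funext fun σ => h σ (Finset.subset_univ σ), fun h σ _ => congrFun h σ⟩

theorem mem_Bc_univ_g (z : CC a A) : z ∈ Bc a Finset.univ ↔ ∃ u : CC a A, z = DD a A u := by
  constructor
  · rintro ⟨u, hu⟩
    exact ⟨u, funext fun σ => hu σ (Finset.subset_univ σ)⟩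
  · rintro ⟨u, hu⟩
    exact ⟨u, fun σ _ => congrFun hu σ⟩

theorem powCC_sub_g (p : ℕ) [Fact p.Prime] [CharP A p] (z w : CC a A) :
    powCC a p (z - w) = powCC a p z - powCC a p w :=
  map_sub (frobCC a p) z w

/-- cochains supported in degrees `≥ j` -/
def degGe (j : ℕ) : Submodule A (CC a A) where
  carrier := {z | ∀ σ : Finset (Fin n), σ.card < j → z σ = 0}
  zero_mem' := fun _ _ => rfl
  add_mem' := fun {z w} hz hw σ hσ => by rw [Pi.add_apply, hz σ hσ, hw σ hσ, add_zero]
  smul_mem' := fun r z hz σ hσ => by rw [Pi.smul_apply, hz σ hσ, smul_zero]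

theorem powCC_degGe {p : ℕ} (hp : p ≠ 0) {j : ℕ} {z : CC a A} (hz : z ∈ degGe a j) :
    powCC a p z ∈ degGe a j := by
  intro σ hσ
  have h2 : powCC a p z σ = powCC a p 0 σ := powCC_congr a (hz σ hσ)
  rw [h2]
  exact (zero_pow hp : (0 : Localization (Submonoid.powers (pr a σ))) ^ p = 0)

theorem cechDegree_le_degGe (j : ℕ) {z : CC a A} (hz : z ∈ cechDegree a j) : z ∈ degGe a j :=
  fun σ hσ => hz σ (ne_of_lt hσ)

/-- a coboundary of degree `i` is the differential of something, and lies in degree `i` -/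
theorem coboundary_spec {i : ℕ} {z : CechCochain a} (hz : z ∈ coboundaries a i) :
    (∃ u : CC a A, z = DD a A u) ∧ z ∈ cechDegree a i := by
  cases i with
  | zero =>
    have h0 : z = 0 := (Submodule.mem_bot A).mp hz
    subst h0
    exact ⟨⟨0, (map_zero _).symm⟩, Submodule.zero_mem _⟩
  | succ i =>
    obtain ⟨u, hu, rfl⟩ := hz
    refine ⟨⟨u, by rw [← cechD_eq]⟩, ?_⟩
    have h1 : cechD a u = degProj a (i + 1) (cechD a u) := by
      rw [← cechD_degProj, degProj_of_mem a hu]
    rw [h1]
    exact degProj_mem a _ _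

theorem degProj_coboundary (i : ℕ) (u : CC a A) : degProj a i (DD a A u) ∈ coboundaries a i := by
  rw [← cechD_eq]
  cases i with
  | zero => rw [degProj_zero_cechD]; exact Submodule.zero_mem _
  | succ i => exact ⟨degProj a i u, degProj_mem a i u, cechD_degProj a i u⟩

theorem cocycle_degProj (i : ℕ) {x : CC a A} (hx : DD a A x = 0) :
    degProj a i x ∈ cocycles a i := by
  refine ⟨degProj_mem a i x, ?_⟩
  change cechD a (degProj a i x) = 0
  rw [cechD_degProj, cechD_eq, hx, map_zero]

end Graded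

theorem graded_of_TAN {A : Type u} [CommRing A] {n : ℕ} (a : Fin n → A) (p : ℕ) [Fact p.Prime] [CharP A p]
    (h : TAN a p Finset.univ) (i : ℕ) : GAN p a i := by
  have hp : p ≠ 0 := (Fact.out : p.Prime).ne_zero
  intro N₀ hN₀ z w hw hwN
  let N : Submodule A (CC a A) :=
    { carrier := {x | DD a A x = 0 ∧ ∃ y : cocycles a i, (y : CechCochain a) = degProj a i x ∧
        (Submodule.Quotient.mk y : CechCohomology a i) ∈ N₀}
      zero_mem' := ⟨map_zero _, 0, by rw [map_zero]; rfl, Submodule.zero_mem _⟩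
      add_mem' := by
        rintro x x' ⟨hx, y, hy, hy'⟩ ⟨hx', y', hy1, hy1'⟩
        refine ⟨by rw [map_add, hx, hx', add_zero], y + y', by rw [Submodule.coe_add, hy, hy1, map_add], ?_⟩
        rw [Submodule.Quotient.mk_add]
        exact Submodule.add_mem _ hy' hy1'
      smul_mem' := by
        rintro r x ⟨hx, y, hy, hy'⟩
        refine ⟨by rw [map_smul, hx, smul_zero], r • y, by rw [Submodule.coe_smul, hy, map_smul], ?_⟩
        rw [Submodule.Quotient.mk_smul]
        exact Submodule.smul_mem _ _ hy' }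
  have hB : Bc a Finset.univ ≤ N := by
    intro x hx
    obtain ⟨u, rfl⟩ := (mem_Bc_univ_g a x).1 hx
    have h1 : DD a A (DD a A u) = 0 := DD_DD a u
    refine ⟨h1, ⟨degProj a i (DD a A u), cocycle_degProj a i h1⟩, rfl, ?_⟩
    have h2 : (Submodule.Quotient.mk (⟨degProj a i (DD a A u), cocycle_degProj a i h1⟩ : cocycles a i) :
        CechCohomology a i) = 0 := by
      rw [Submodule.Quotient.mk_eq_zero]
      exact degProj_coboundary a i u
    rw [h2]
    exact Submodule.zero_mem _
  have hZ : N ≤ Zc a Finset.univ := fun x hx => (mem_Zc_univ_g a x).2 hx.1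
  have hF : ∀ x ∈ N, powCC a p x ∈ N := by
    rintro x ⟨hx, y, hy, hy'⟩
    have h1 : DD a A (powCC a p x) = 0 := DD_powCC a p hx
    refine ⟨h1, ⟨degProj a i (powCC a p x), cocycle_degProj a i h1⟩, rfl, ?_⟩
    refine hN₀ y _ (fun σ => ?_) hy'
    have h2 := congrFun (degProj_pow a hp i x) σ
    refine h2.trans ?_
    rw [← hy]
    rfl
  have hz : (z : CechCochain a) ∈ Zc a Finset.univ := by
    rw [mem_Zc_univ_g, ← cechD_eq]
    exact z.2.2
  have hzN : powCC a p (z : CechCochain a) ∈ N := by
    have h0 : powCC a p (z : CechCochain a) = (w : CechCochain a) := funext fun σ => (hw σ).symm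
    refine ⟨DD_powCC a p ((mem_Zc_univ_g a _).1 hz), w, ?_, hwN⟩
    rw [h0, degProj_of_mem a w.2.1]
  obtain ⟨_, y, hy, hy'⟩ := h N hB hZ hF _ hz hzN
  have hyz : y = z := Subtype.ext (hy.trans (degProj_of_mem a z.2.1))
  rw [← hyz]
  exact hy'

theorem TAN_of_graded {A : Type u} [CommRing A] {n : ℕ} (a : Fin n → A) (p : ℕ) [Fact p.Prime] [CharP A p]
    (h : ∀ i, GAN p a i) : TAN a p Finset.univ := by
  have hp : p ≠ 0 := (Fact.out : p.Prime).ne_zero
  intro N hB hZ hF z hz hzN
  have key : ∀ j : ℕ, ∃ v ∈ N, z - v ∈ degGe a j := by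
    intro j
    induction j with
    | zero => exact ⟨0, Submodule.zero_mem _, fun σ hσ => absurd hσ (Nat.not_lt_zero _)⟩
    | succ j ih =>
      obtain ⟨v, hv, hvj⟩ := ih
      have hz' : DD a A (z - v) = 0 := by
        rw [map_sub, (mem_Zc_univ_g a z).1 hz, (mem_Zc_univ_g a v).1 (hZ hv), sub_zero]
      have hzN' : powCC a p (z - v) ∈ N := by
        rw [powCC_sub_g]
        exact Submodule.sub_mem _ hzN (hF v hv)
      let M : Submodule A (CechCohomology a j) :=
        { carrier := {η | ∃ y : cocycles a j, (y : CechCochain a) ∈ N.map (degProj a j) ⊓ ⊤ ∧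
            (∃ x ∈ N, x ∈ degGe a j ∧ (y : CechCochain a) = degProj a j x) ∧ η = Submodule.Quotient.mk y}
          zero_mem' := ⟨0, ⟨⟨0, Submodule.zero_mem _, map_zero _⟩, trivial⟩,
            ⟨0, Submodule.zero_mem _, Submodule.zero_mem _, by rw [map_zero]; rfl⟩, rfl⟩
          add_mem' := by
            rintro η η' ⟨y, _, ⟨x, hx, hx1, hx2⟩, rfl⟩ ⟨y', _, ⟨x', hx', hx1', hx2'⟩, rfl⟩
            have h1 : ((y + y' : cocycles a j) : CechCochain a) = degProj a j (x + x') := by
              rw [Submodule.coe_add, hx2, hx2', map_add]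
            exact ⟨y + y', ⟨⟨x + x', Submodule.add_mem _ hx hx', h1.symm⟩, trivial⟩,
              ⟨x + x', Submodule.add_mem _ hx hx', Submodule.add_mem _ hx1 hx1', h1⟩, rfl⟩
          smul_mem' := by
            rintro r η ⟨y, _, ⟨x, hx, hx1, hx2⟩, rfl⟩
            have h1 : ((r • y : cocycles a j) : CechCochain a) = degProj a j (r • x) := by
              rw [Submodule.coe_smul, hx2, map_smul]
            exact ⟨r • y, ⟨⟨r • x, Submodule.smul_mem _ _ hx, h1.symm⟩, trivial⟩,
              ⟨r • x, Submodule.smul_mem _ _ hx, Submodule.smul_mem _ _ hx1, h1⟩, rfl⟩ }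
      have hMmem : ∀ y : cocycles a j, (Submodule.Quotient.mk y : CechCohomology a j) ∈ M →
          ∃ x ∈ N, x ∈ degGe a j ∧ (y : CechCochain a) = degProj a j x := by
        rintro y ⟨y₁, _, ⟨x, hx, hx1, hx2⟩, hη⟩
        rw [Submodule.Quotient.eq] at hη
        obtain ⟨⟨u, hu⟩, hdeg⟩ := coboundary_spec a hη
        have hu' : (y : CechCochain a) - (y₁ : CechCochain a) = DD a A u := hu
        have hdeg' : DD a A u ∈ cechDegree a j := by
          rw [← hu']
          exact hdeg
        refine ⟨x + DD a A u, Submodule.add_mem _ hx (hB ((mem_Bc_univ_g a _).2 ⟨u, rfl⟩)),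
          Submodule.add_mem _ hx1 (cechDegree_le_degGe a j hdeg'), ?_⟩
        rw [map_add, ← hx2, degProj_of_mem a hdeg', ← hu']
        abel
      have hMmk : ∀ y : cocycles a j, (∃ x ∈ N, x ∈ degGe a j ∧ (y : CechCochain a) = degProj a j x) →
          (Submodule.Quotient.mk y : CechCohomology a j) ∈ M := by
        rintro y ⟨x, hx, hx1, hx2⟩
        exact ⟨y, ⟨⟨x, hx, hx2.symm⟩, trivial⟩, ⟨x, hx, hx1, hx2⟩, rfl⟩
      have hMF : FStable p a j M := by
        intro z₁ w₁ hzw hz₁
        obtain ⟨x, hx, hx1, hx2⟩ := hMmem z₁ hz₁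
        refine hMmk w₁ ⟨powCC a p x, hF x hx, powCC_degGe a hp hx1, ?_⟩
        rw [degProj_pow a hp, ← hx2]
        exact funext hzw
      -- the class of the component of degree j of z - v
      let y : cocycles a j := ⟨degProj a j (z - v), cocycle_degProj a j hz'⟩
      let w : cocycles a j := ⟨degProj a j (powCC a p (z - v)), cocycle_degProj a j (DD_powCC a p hz')⟩
      have hyw : ∀ σ, (w : CechCochain a) σ = (y : CechCochain a) σ ^ p := fun σ =>
        congrFun (degProj_pow a hp j (z - v)) σ
      have hw : (Submodule.Quotient.mk w : CechCohomology a j) ∈ M :=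
        hMmk w ⟨powCC a p (z - v), hzN', powCC_degGe a hp hvj, rfl⟩
      obtain ⟨x, hx, hx1, hx2⟩ := hMmem y (h j M hMF y w hyw hw)
      have hx2' : degProj a j (z - v) = degProj a j x := hx2
      refine ⟨v + x, Submodule.add_mem _ hv hx, fun σ hσ => ?_⟩
      rcases Nat.lt_succ_iff_lt_or_eq.1 hσ with h1 | h1
      · have h2 : (z - v) σ - x σ = 0 := by rw [hvj σ h1, hx1 σ h1, sub_zero]
        rw [← h2]
        simp only [Pi.sub_apply, Pi.add_apply]
        abel
      · have h2 := congrFun hx2' σ
        rw [degProj_apply_of_eq a h1, degProj_apply_of_eq a h1] at h2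
        have h3 : (z - v) σ - x σ = 0 := sub_eq_zero.2 h2
        rw [← h3]
        simp only [Pi.sub_apply, Pi.add_apply]
        abel
  obtain ⟨v, hv, hvn⟩ := key (n + 1)
  have h0 : z - v = 0 := by
    funext σ
    refine hvn σ ?_
    have := Finset.card_le_univ σ
    rw [Fintype.card_fin] at this
    omega
  rw [sub_eq_zero.1 h0]
  exact hv

/-- `A` is local and F-anti-nilpotent. -/
def IsAN (p : ℕ) (A : Type u) [CommRing A] : Prop :=
  ∃ _ : IsLocalRing A, ∀ (n : ℕ) (a : Fin n → A), (Ideal.span (Set.range a)).radical = maximalIdeal A →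
    ∀ i : ℕ, GAN p a i

theorem main (p : ℕ) (hp : p.Prime) (R : Type u) [CommRing R] [IsNoetherianRing R] [IsLocalRing R] [CharP R p]
    (x : R) (hxm : x ∈ maximalIdeal R) (hx : x ∈ nonZeroDivisors R) (h : IsAN p (R ⧸ Ideal.span {x})) :
    ∃ N : ℕ, ∀ δ ∈ maximalIdeal R ^ N, IsAN p (R ⧸ Ideal.span {x + δ}) := by
  have : Fact p.Prime := ⟨hp⟩
  -- a sequence generating the maximal ideal of R
  obtain ⟨n, a, ha⟩ := Submodule.fg_iff_exists_fin_generating_family.mp
    (IsNoetherian.noetherian (maximalIdeal R))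
  have ha' : Ideal.span (Set.range a) = maximalIdeal R := ha
  have harad : (Ideal.span (Set.range a)).radical = maximalIdeal R := by
    rw [ha', (maximalIdeal.isMaximal R).isPrime.radical]
  -- local structure of the quotients
  have hloc : ∀ y ∈ maximalIdeal R, ∃ (h1 : IsLocalRing (R ⧸ Ideal.span {y})),
      CharP (R ⧸ Ideal.span {y}) p ∧
      (Ideal.span (Set.range fun j => Ideal.Quotient.mk (Ideal.span {y}) (a j))).radical =
        maximalIdeal (R ⧸ Ideal.span {y}) := by
    intro y hy
    have hne : Ideal.span {y} ≠ ⊤ := by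
      intro h
      have : (⊤ : Ideal R) ≤ maximalIdeal R := by
        rw [← h, Ideal.span_le, Set.singleton_subset_iff]; exact hy
      exact (maximalIdeal.isMaximal R).ne_top (top_le_iff.mp this)
    have hnt : Nontrivial (R ⧸ Ideal.span {y}) := Ideal.Quotient.nontrivial_iff.mpr hne
    have h1 : IsLocalRing (R ⧸ Ideal.span {y}) :=
      IsLocalRing.of_surjective' (Ideal.Quotient.mk _) Ideal.Quotient.mk_surjective
    refine ⟨h1, ?_, ?_⟩
    · have h0 : ((p : ℕ) : R ⧸ Ideal.span {y}) = 0 := by
        rw [← map_natCast (Ideal.Quotient.mk (Ideal.span {y})), CharP.cast_eq_zero, map_zero]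
      exact (CharP.charP_iff_prime_eq_zero hp).mpr h0
    · have h2 : (Ideal.span (Set.range fun j => Ideal.Quotient.mk (Ideal.span {y}) (a j))) =
          (maximalIdeal R).map (Ideal.Quotient.mk (Ideal.span {y})) := by
        rw [← ha', Ideal.map_span, ← Set.range_comp]
        rfl
      have h3 : (maximalIdeal R).map (Ideal.Quotient.mk (Ideal.span {y})) =
          maximalIdeal (R ⧸ Ideal.span {y}) := by
        have h4 : ((maximalIdeal R).map (Ideal.Quotient.mk (Ideal.span {y}))).IsMaximal := by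
          rcases Ideal.map_eq_top_or_isMaximal_of_surjective (Ideal.Quotient.mk (Ideal.span {y}))
            Ideal.Quotient.mk_surjective (maximalIdeal.isMaximal R) with h | h
          · exfalso
            have h5 : (1 : R ⧸ Ideal.span {y}) ∈ (maximalIdeal R).map
              (Ideal.Quotient.mk (Ideal.span {y})) := by rw [h]; trivial
            obtain ⟨r, hr, hr1⟩ :=
              (Ideal.mem_map_iff_of_surjective _ Ideal.Quotient.mk_surjective).mp h5
            have h6 : r - 1 ∈ Ideal.span {y} := by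
              rw [← Ideal.Quotient.eq_zero_iff_mem, map_sub, hr1, map_one, sub_self]
            have h7 : r - 1 ∈ maximalIdeal R := by
              obtain ⟨s, hs⟩ := Ideal.mem_span_singleton.mp h6
              rw [hs]; exact Ideal.mul_mem_right _ _ hy
            have h8 : (1 : R) ∈ maximalIdeal R := by
              have := Ideal.sub_mem _ hr h7
              simp at this
            exact (Ideal.ne_top_iff_one _).mp (maximalIdeal.isMaximal R).ne_top h8
          · exact h
        exact IsLocalRing.eq_maximalIdeal h4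
      rw [h2, h3, (maximalIdeal.isMaximal _).isPrime.radical]
  -- apply the hypothesis
  obtain ⟨h1, hchar, hrad⟩ := hloc x hxm
  obtain ⟨h1', hAN⟩ := h
  have hTAN : TAN (fun j => Ideal.Quotient.mk (Ideal.span {x}) (a j)) p Finset.univ :=
    TAN_of_graded _ p (hAN n _ hrad)
  have hTF := TF_of_TAN p _ hTAN
  have hart := isArtinian_coh a harad
  have hkx : ∀ y r : R, Ideal.Quotient.mk (Ideal.span {y}) r = 0 ↔ y ∣ r := fun y r => by
    rw [Ideal.Quotient.eq_zero_iff_mem, Ideal.mem_span_singleton]
  have hkf := kerFull_of_TF (Ideal.Quotient.mk (Ideal.span {x})) a p Ideal.Quotient.mk_surjective hx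
    (hkx x) hTF
  obtain ⟨N1, hN1⟩ := stable_kerFull p (Fact.out : p.Prime) (frobCoh a p) (frobCoh_smul a p) hxm hkf
  obtain ⟨N2, hN2⟩ := exists_pow_add_mem_nonZeroDivisors hx
  have hANK : ANK p (frobCoh a p) x :=
    ANK_of_TAN (Ideal.Quotient.mk (Ideal.span {x})) a p Ideal.Quotient.mk_surjective hx (hkx x) hTAN
  obtain ⟨N3, hN3⟩ := abs p (frobCoh a p) (frobCoh_smul a p) hxm hANK
  refine ⟨max (max N1 N2) N3 + 1, fun δ hδ => ?_⟩
  have hδN : ∀ k ≤ max (max N1 N2) N3 + 1, δ ∈ maximalIdeal R ^ k := fun k hk =>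
    Ideal.pow_le_pow_right hk hδ
  have hδm : x + δ ∈ maximalIdeal R :=
    Ideal.add_mem _ hxm (Ideal.pow_le_self (Nat.succ_ne_zero _) hδ)
  obtain ⟨hdiv, _⟩ := hN1 δ (hδN N1 (by omega))
  have hreg := hN2 δ (hδN N2 (by omega))
  have hANK' := hN3 δ (hδN N3 (by omega))
  obtain ⟨h2, hchar2, hrad2⟩ := hloc (x + δ) hδm
  refine ⟨h2, fun m b hb i => ?_⟩
  apply graded_of_TAN b p
  rw [TAN_iff_of_radical_eq p b (fun j => Ideal.Quotient.mk (Ideal.span {x + δ}) (a j))
    (hb.trans hrad2.symm)]
  exact TAN_of_ANK (Ideal.Quotient.mk (Ideal.span {x + δ})) a p Ideal.Quotient.mk_surjective hreg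
    (hkx _) hdiv hANK'

end Pool.Agent.Helper24.AN
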