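import Pool.Agent.Helper24.AN.Def
import Pool.Agent.Helper14.FFull.Artin

/-!
# Melkersson's lemma for several elements (block GT)
-/

namespace Pool.Agent.Helper24.AN

open Pool.Agent.Helper14.FFull

/-- If every element of `G` is killed by a power of each `x i`, and the submodule of the elements
which are killed by all `x i` is Artinian, then `G` is Artinian. -/
theorem gt {R : Type*} [CommRing R] {d : ℕ} (x : Fin d → R) {G : Type*} [AddCommGroup G] [Module R G]
    (htor : ∀ i, ∀ g : G, ∃ k : ℕ, x i ^ k • g = 0)
    (K : Submodule R G) (hK : ∀ g, g ∈ K ↔ ∀ i, x i • g = 0) (hart : IsArtinian R K) :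
    IsArtinian R G := by
  induction d generalizing G with
  | zero =>
    have hT : K = ⊤ := by
      rw [eq_top_iff]
      intro g _
      rw [hK]
      intro i
      exact i.elim0
    subst hT
    exact isArtinian_of_linearEquiv (Submodule.topEquiv : (⊤ : Submodule R G) ≃ₗ[R] G)
  | succ d ih =>
    apply isArtinian_of_torsion (x 0) (htor 0)
    obtain ⟨L, hL⟩ : ∃ L, L = LinearMap.ker (LinearMap.lsmul R G (x 0)) := ⟨_, rfl⟩
    rw [← hL]
    have memL : ∀ g : G, g ∈ L ↔ x 0 • g = 0 := fun g => by
      rw [hL, LinearMap.mem_ker, LinearMap.lsmul_apply]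
    refine ih (fun i => x i.succ) (G := L) ?_ (K.comap L.subtype) ?_ ?_
    · intro i g
      obtain ⟨k, hk⟩ := htor i.succ (g : G)
      exact ⟨k, Subtype.ext (by simpa using hk)⟩
    · intro g
      rw [Submodule.mem_comap, Submodule.subtype_apply, hK]
      constructor
      · intro h i
        exact Subtype.ext (by simpa using h i.succ)
      · intro h i
        refine Fin.cases ?_ ?_ i
        · exact (memL _).1 g.2
        · intro j
          have := congrArg Subtype.val (h j)
          simpa using this
    · let f : (K.comap L.subtype) →ₗ[R] K :=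
        { toFun := fun g => ⟨(g.1 : G), g.2⟩
          map_add' := fun a b => rfl
          map_smul' := fun r a => rfl }
      have hf : Function.Injective f := by
        intro a b hab
        have := congrArg Subtype.val hab
        exact Subtype.ext (Subtype.ext this)
      exact isArtinian_of_injective f hf

/-- Elements of an Artinian module over a Noetherian local ring are killed by a power of the maximal
ideal. -/
theorem tor_of_isArtinian {R : Type*} [CommRing R] [IsNoetherianRing R] [IsLocalRing R] {H : Type*}
    [AddCommGroup H] [Module R H] [IsArtinian R H] : Tor (IsLocalRing.maximalIdeal R) H := by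
  intro h
  let J : Ideal R := LinearMap.ker (LinearMap.toSpanSingleton R H h)
  have hJ : ∀ r, r ∈ J ↔ r • h = 0 := fun r => by
    rw [LinearMap.mem_ker, LinearMap.toSpanSingleton_apply]
  have h1 : IsLocalRing.maximalIdeal R ≤ J.radical := by
    intro r hr
    obtain ⟨e, he⟩ := exists_pow_smul_eq_zero hr h
    exact ⟨e, (hJ _).mpr he⟩
  obtain ⟨n, hn⟩ := Ideal.exists_pow_le_of_le_radical_of_fg h1 (IsNoetherian.noetherian _)
  exact ⟨n, fun r hr => (hJ r).mp (hn hr)⟩

/-- `E n` has finite length. -/
theorem fg_E {R : Type*} [CommRing R] [IsNoetherianRing R] [IsLocalRing R] {H : Type*}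
    [AddCommGroup H] [Module R H] [IsArtinian R H] (n : ℕ) :
    Module.Finite R (E (IsLocalRing.maximalIdeal R) H n) := by
  rcases Nat.eq_zero_or_pos n with rfl | hn
  · rw [E_zero]
    infer_instance
  · have hI : (IsLocalRing.maximalIdeal R ^ n).radical = IsLocalRing.maximalIdeal R := by
      rw [Ideal.radical_pow _ hn.ne']
      exact (IsLocalRing.maximalIdeal.isMaximal R).isPrime.radical
    have := isArtinianRing_quotient_of_radical_eq _ hI
    apply finite_of_isArtinian_of_smul_eq_zero (IsLocalRing.maximalIdeal R ^ n)
    intro r hr m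
    exact Subtype.ext (m.2 r hr)

end Pool.Agent.Helper24.AN
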