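import Pool.Agent.Helper14.FFull.Artin

/-!
# Base change under the Frobenius map of the coefficients (first half of the block STAR)
-/

namespace Pool.Agent.Helper24.AN

open Pool.Agent.Helper14.FFull TensorProduct

universe u v

/-- `MvPolynomial (Fin d) R` as an algebra over itself by the Frobenius map of the coefficients. -/
def PolFrob (_p : ℕ) (R : Type u) (d : ℕ) [CommRing R] : Type u := MvPolynomial (Fin d) R

noncomputable instance (p : ℕ) (R : Type u) (d : ℕ) [CommRing R] : CommRing (PolFrob p R d) :=
  inferInstanceAs (CommRing (MvPolynomial (Fin d) R))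

noncomputable instance (p : ℕ) [Fact p.Prime] (R : Type u) (d : ℕ) [CommRing R] [CharP R p] :
    Algebra (MvPolynomial (Fin d) R) (PolFrob p R d) :=
  (MvPolynomial.map (frobenius R p) : MvPolynomial (Fin d) R →+* MvPolynomial (Fin d) R).toAlgebra

/-- a quotient of a Noetherian ring is Artinian if all primes over the ideal contain the kernel of
a surjection onto an Artinian ring -/
theorem isArtinianRing_quotient_of_ker_le {S T : Type*} [CommRing S] [IsNoetherianRing S] [CommRing T]
    [IsArtinianRing T] (I : Ideal S) (φ : S →+* T) (hφ : Function.Surjective φ)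
    (h : ∀ P : Ideal S, P.IsPrime → I ≤ P → RingHom.ker φ ≤ P) : IsArtinianRing (S ⧸ I) := by
  rw [isArtinianRing_iff_isNoetherianRing_krullDimLE_zero]
  refine ⟨inferInstance, Ring.krullDimLE_zero_iff.2 ?_⟩
  intro P hP
  have hP0 : (P.comap (Ideal.Quotient.mk I)).IsPrime := hP.comap _
  have hI0 : I ≤ P.comap (Ideal.Quotient.mk I) := by
    intro a ha
    rw [Ideal.mem_comap, Ideal.Quotient.eq_zero_iff_mem.2 ha]
    exact P.zero_mem
  have hker := h _ hP0 hI0
  have h1 : ((P.comap (Ideal.Quotient.mk I)).map φ).IsPrime := Ideal.map_isPrime_of_surjective hφ hker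
  have h2 : ((P.comap (Ideal.Quotient.mk I)).map φ).IsMaximal := IsArtinianRing.isMaximal_of_isPrime _
  have h3 : ((P.comap (Ideal.Quotient.mk I)).map φ).comap φ = P.comap (Ideal.Quotient.mk I) := by
    rw [Ideal.comap_map_of_surjective _ hφ]
    exact sup_eq_left.2 hker
  have h4 : (P.comap (Ideal.Quotient.mk I)).IsMaximal := by
    rw [← h3]
    exact Ideal.comap_isMaximal_of_surjective φ hφ
  refine ⟨⟨hP.ne_top, ?_⟩⟩
  intro Q hQ
  have h5 : P.comap (Ideal.Quotient.mk I) < Q.comap (Ideal.Quotient.mk I) := by
    refine lt_of_le_of_ne (Ideal.comap_mono hQ.le) ?_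
    intro hcon
    exact hQ.ne (Ideal.comap_injective_of_surjective _ Ideal.Quotient.mk_surjective hcon)
  have h6 := h4.1.2 _ h5
  rwa [Ideal.comap_eq_top_iff] at h6

theorem isArtinianRing_polynomial {R : Type u} [CommRing R] [IsNoetherianRing R] {d : ℕ} (x : Fin d → R)
    (hI : IsArtinianRing (R ⧸ Ideal.span (Set.range x))) (J : Ideal (MvPolynomial (Fin d) R)) (a b : ℕ)
    (hJ1 : ∀ i, (MvPolynomial.C (x i)) ^ a ∈ J) (hJ2 : ∀ i, (MvPolynomial.X i) ^ b ∈ J) :
    IsArtinianRing (MvPolynomial (Fin d) R ⧸ J) := by
  refine isArtinianRing_quotient_of_ker_le J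
    ((Ideal.Quotient.mk (Ideal.span (Set.range x))).comp MvPolynomial.constantCoeff) ?_ ?_
  · intro y
    obtain ⟨r, rfl⟩ := Ideal.Quotient.mk_surjective y
    exact ⟨MvPolynomial.C r, by simp⟩
  · intro P hP hJP f hf
    have hx : ∀ i, MvPolynomial.C (x i) ∈ P := fun i => hP.mem_of_pow_mem _ (hJP (hJ1 i))
    have hX : ∀ i, (MvPolynomial.X i : MvPolynomial (Fin d) R) ∈ P :=
      fun i => hP.mem_of_pow_mem _ (hJP (hJ2 i))
    have h1 : ∀ g : MvPolynomial (Fin d) R, g - MvPolynomial.C (MvPolynomial.constantCoeff g) ∈ P := by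
      intro g
      induction g using MvPolynomial.induction_on with
      | C r => simp
      | add g1 g2 h1 h2 =>
        have := P.add_mem h1 h2
        rw [map_add, map_add]
        convert this using 1
        ring
      | mul_X g i _ =>
        rw [map_mul, MvPolynomial.constantCoeff_X, mul_zero, map_zero, sub_zero]
        exact P.mul_mem_left _ (hX i)
    have h2 : MvPolynomial.constantCoeff f ∈ Ideal.span (Set.range x) := by
      rw [RingHom.mem_ker, RingHom.comp_apply] at hf
      exact Ideal.Quotient.eq_zero_iff_mem.1 hf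
    have h3 : Ideal.span (Set.range x) ≤ P.comap MvPolynomial.C := by
      rw [Ideal.span_le]
      rintro _ ⟨i, rfl⟩
      exact hx i
    have h4 : MvPolynomial.C (MvPolynomial.constantCoeff f) ∈ P := h3 h2
    have := P.add_mem (h1 f) h4
    rwa [sub_add_cancel] at this

/-- base change of an Artinian torsion module under the Frobenius map of the coefficients -/
theorem isArtinian_polFrob (p : ℕ) [Fact p.Prime] {R : Type u} [CommRing R] [IsNoetherianRing R]
    [CharP R p] {d : ℕ} (x : Fin d → R) (hI : IsArtinianRing (R ⧸ Ideal.span (Set.range x)))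
    (M : Type v) [AddCommGroup M] [Module (MvPolynomial (Fin d) R) M]
    [IsArtinian (MvPolynomial (Fin d) R) M]
    (h1 : ∀ i, ∀ m : M, ∃ e : ℕ, (MvPolynomial.C (x i) : MvPolynomial (Fin d) R) ^ e • m = 0)
    (h2 : ∀ i, ∀ m : M, ∃ e : ℕ, (MvPolynomial.X i : MvPolynomial (Fin d) R) ^ e • m = 0) :
    IsArtinian (PolFrob p R d) (PolFrob p R d ⊗[MvPolynomial (Fin d) R] M) := by
  let z : Fin (d + d) → MvPolynomial (Fin d) R :=
    Fin.append (fun i => MvPolynomial.C (x i)) (fun i => MvPolynomial.X i)
  refine isArtinian_baseChange z ?_ M ?_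
  · rintro M _ _ _ ⟨t, ht⟩
    have hc : ∀ i, ∀ m : M, (MvPolynomial.C (x i) : MvPolynomial (Fin d) R) ^ t • m = 0 := by
      intro i m
      have := ht (Fin.castAdd d i) m
      rwa [show z (Fin.castAdd d i) = _ from Fin.append_left _ _ i] at this
    have hX : ∀ i, ∀ m : M, (MvPolynomial.X i : MvPolynomial (Fin d) R) ^ t • m = 0 := by
      intro i m
      have := ht (Fin.natAdd d i) m
      rwa [show z (Fin.natAdd d i) = _ from Fin.append_right _ _ i] at this
    -- the ideal of the elements killing `M`
    have hfin : Module.Finite (MvPolynomial (Fin d) R) M := by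
      have := isArtinianRing_polynomial x hI (Module.annihilator (MvPolynomial (Fin d) R) M) t t
        (fun i => Module.mem_annihilator.2 (hc i)) (fun i => Module.mem_annihilator.2 (hX i))
      exact finite_of_isArtinian_of_smul_eq_zero (Module.annihilator (MvPolynomial (Fin d) R) M)
        (fun r hr m => Module.mem_annihilator.1 hr m)
    have hz : ∀ (s : MvPolynomial (Fin d) R), (∀ m : M, s • m = 0) →
        ∀ w : PolFrob p R d ⊗[MvPolynomial (Fin d) R] M,
          (algebraMap (MvPolynomial (Fin d) R) (PolFrob p R d) s) • w = 0 := by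
      intro s hs w
      rw [algebraMap_smul]
      induction w with
      | zero => simp
      | add a b ha hb => rw [smul_add, ha, hb, add_zero]
      | tmul a b => rw [← TensorProduct.tmul_smul, hs, TensorProduct.tmul_zero]
    have hmem : ∀ s s' : MvPolynomial (Fin d) R, (∀ m : M, s • m = 0) →
        MvPolynomial.map (frobenius R p) s = s' →
        (show PolFrob p R d from s') ∈
          Module.annihilator (PolFrob p R d) (PolFrob p R d ⊗[MvPolynomial (Fin d) R] M) := by
      intro s s' hs hs'
      refine Module.mem_annihilator.2 fun w => ?_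
      have h3 := hz s hs w
      have h4 : algebraMap (MvPolynomial (Fin d) R) (PolFrob p R d) s = (show PolFrob p R d from s') := hs'
      rwa [h4] at h3
    have hart : IsArtinianRing (PolFrob p R d ⧸
        (Module.annihilator (PolFrob p R d) (PolFrob p R d ⊗[MvPolynomial (Fin d) R] M))) := by
      refine isArtinianRing_polynomial (R := R) x hI _ (p * t) t ?_ ?_
      · intro i
        refine hmem _ _ (hc i) ?_
        rw [map_pow, MvPolynomial.map_C, frobenius_def, map_pow, ← pow_mul]
      · intro i
        refine hmem _ _ (hX i) ?_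
        rw [map_pow, MvPolynomial.map_X]
    exact isArtinian_of_finite_of_smul_eq_zero _ (fun r hr m => Module.mem_annihilator.1 hr m)
  · intro i
    refine Fin.addCases (fun i => ?_) (fun i => ?_) i
    · intro m
      obtain ⟨e, he⟩ := h1 i m
      exact ⟨e, by rw [show z (Fin.castAdd d i) = _ from Fin.append_left _ _ i]; exact he⟩
    · intro m
      obtain ⟨e, he⟩ := h2 i m
      exact ⟨e, by rw [show z (Fin.natAdd d i) = _ from Fin.append_right _ _ i]; exact he⟩

end Pool.Agent.Helper24.AN
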