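import Pool.Agent.Helper24.AN.Gt
import Pool.Agent.Helper24.AN.PolFrob

/-!
# Torsion modules over a polynomial ring over a field (block POL)
-/

namespace Pool.Agent.Helper24.AN

open MvPolynomial

/-- the ideal generated by the variables -/
noncomputable def vars (K : Type*) [Field K] (d : ℕ) : Ideal (MvPolynomial (Fin d) K) :=
  Ideal.span (Set.range X)

variable {K : Type*} [Field K] {d : ℕ} {V : Type*} [AddCommGroup V] [Module (MvPolynomial (Fin d) K) V]
  [Module K V] [IsScalarTower K (MvPolynomial (Fin d) K) V]

private theorem X_mem_vars (j : Fin d) : (X j : MvPolynomial (Fin d) K) ∈ vars K d :=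
  Ideal.subset_span ⟨j, rfl⟩

private theorem sub_C_mem (P : Ideal (MvPolynomial (Fin d) K)) (hX : ∀ i, X i ∈ P)
    (g : MvPolynomial (Fin d) K) : g - C (constantCoeff g) ∈ P := by
  induction g using MvPolynomial.induction_on with
  | C r => simp
  | add g1 g2 h1 h2 =>
    have := P.add_mem h1 h2
    rw [map_add, map_add]
    convert this using 1
    ring
  | mul_X g i _ =>
    rw [map_mul, MvPolynomial.constantCoeff_X, mul_zero, map_zero, sub_zero]
    exact P.mul_mem_left _ (hX i)

theorem isArtinianRing_quot (K : Type*) [Field K] (d : ℕ) :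
    IsArtinianRing (MvPolynomial (Fin d) K ⧸ vars K d) := by
  refine Pool.Agent.Helper24.AN.isArtinianRing_quotient_of_ker_le (vars K d) constantCoeff
    (fun y => ⟨C y, by simp⟩) ?_
  intro P _ hP f hf
  have h1 := sub_C_mem P (fun i => hP (Ideal.subset_span ⟨i, rfl⟩)) f
  rwa [(RingHom.mem_ker).1 hf, map_zero, sub_zero] at h1

private theorem smul_E_one (f : MvPolynomial (Fin d) K) {v : V} (hv : v ∈ E (vars K d) V 1) :
    f • v = constantCoeff f • v := by
  have h1 := sub_C_mem (vars K d) (fun i => Ideal.subset_span ⟨i, rfl⟩) f
  have h2 := hv _ (by rwa [pow_one])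
  rw [sub_smul, sub_eq_zero] at h2
  rw [h2, ← algebraMap_eq, algebraMap_smul]

private theorem fin_E_one [IsArtinian (MvPolynomial (Fin d) K) V] :
    FiniteDimensional K (E (vars K d) V 1) := by
  have := isArtinianRing_quot K d
  have hfin : Module.Finite (MvPolynomial (Fin d) K) (E (vars K d) V 1) :=
    Pool.Agent.Helper14.FFull.finite_of_isArtinian_of_smul_eq_zero (vars K d) (fun r hr m => by
      apply Subtype.ext
      exact m.2 r (by rwa [pow_one]))
  obtain ⟨s, hs⟩ := hfin.fg_top
  refine ⟨⟨s, ?_⟩⟩
  rw [eq_top_iff]
  intro v _
  have hv : v ∈ Submodule.span (MvPolynomial (Fin d) K) (s : Set (E (vars K d) V 1)) := hs ▸ trivial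
  induction hv using Submodule.span_induction with
  | mem y hy => exact Submodule.subset_span hy
  | zero => exact Submodule.zero_mem _
  | add a b _ _ ha hb => exact Submodule.add_mem _ (ha trivial) (hb trivial)
  | smul f b _ hb =>
    have : f • b = constantCoeff f • b := Subtype.ext (smul_E_one f b.2)
    rw [this]
    exact Submodule.smul_mem _ _ (hb trivial)

/-- The annihilators of the powers of `(X)` in an Artinian module are finite-dimensional. -/
theorem fin_E [IsArtinian (MvPolynomial (Fin d) K) V] (k : ℕ) :
    FiniteDimensional K (E (vars K d) V k) := by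
  induction k with
  | zero =>
    rw [E_zero]
    infer_instance
  | succ k ih =>
    let φ : E (vars K d) V (k + 1) →ₗ[K] (Fin d → E (vars K d) V k) :=
      { toFun := fun v j => ⟨(X j : MvPolynomial (Fin d) K) • (v : V),
          smul_mem_E_one _ (X_mem_vars j) v.2⟩
        map_add' := fun v w => by
          funext j
          apply Subtype.ext
          exact smul_add _ _ _
        map_smul' := fun c v => by
          funext j
          apply Subtype.ext
          change (X j : MvPolynomial (Fin d) K) • (c • (v : V)) = c • ((X j : MvPolynomial (Fin d) K) • (v : V))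
          rw [← algebraMap_smul (MvPolynomial (Fin d) K) c (v : V),
            ← algebraMap_smul (MvPolynomial (Fin d) K) c ((X j : MvPolynomial (Fin d) K) • (v : V)),
            smul_comm] }
    have h1 : FiniteDimensional K (E (vars K d) V 1) := fin_E_one
    let ψ : LinearMap.ker φ →ₗ[K] E (vars K d) V 1 :=
      { toFun := fun v => ⟨(v : E (vars K d) V (k + 1)), by
          rw [E_one_iff (vars K d) (x := X) rfl]
          intro j
          have h2 := v.2
          rw [LinearMap.mem_ker] at h2
          exact congrArg Subtype.val (congrFun h2 j)⟩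
        map_add' := fun v w => rfl
        map_smul' := fun c v => rfl }
    have hψ : Function.Injective ψ := by
      intro v w hvw
      apply Subtype.ext
      apply Subtype.ext
      exact congrArg (fun z : E (vars K d) V 1 => (z : V)) hvw
    have h3 : FiniteDimensional K (LinearMap.ker φ) := FiniteDimensional.of_injective ψ hψ
    have h5 : FiniteDimensional K (E (vars K d) V (k + 1) ⧸ LinearMap.ker φ) :=
      Module.Finite.equiv φ.quotKerEquivRange.symm
    exact Module.Finite.of_submodule_quotient (LinearMap.ker φ)

theorem isArtinian_of_fin (htor : Tor (vars K d) V) (h : FiniteDimensional K (E (vars K d) V 1)) :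
    IsArtinian (MvPolynomial (Fin d) K) V := by
  refine gt (X : Fin d → MvPolynomial (Fin d) K) ?_ (E (vars K d) V 1)
    (fun g => E_one_iff (vars K d) (x := X) rfl) (isArtinian_of_tower K inferInstance)
  intro i g
  obtain ⟨n, hn⟩ := htor g
  exact ⟨n, hn _ (Ideal.pow_mem_pow (X_mem_vars i) n)⟩

end Pool.Agent.Helper24.AN
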