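import Mathlib

/-!
# A field is algebraically closed in its ultrapower
-/

namespace Pool.Agent.Helper24.AN

open Filter

universe u

theorem rac_germ {κ : Type u} [Field κ] (U : Ultrafilter ℕ) (a : Germ (U : Filter ℕ) κ)
    [Algebra κ (Germ (U : Filter ℕ) κ)] (halg : ∀ c : κ, algebraMap κ (Germ (U : Filter ℕ) κ) c = (↑c : Germ (U : Filter ℕ) κ))
    (ha : IsAlgebraic κ a) : ∃ c : κ, (↑c : Germ (U : Filter ℕ) κ) = a := by
  classical
  obtain ⟨P, hP, hPx⟩ := ha
  induction a using Filter.Germ.inductionOn with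
  | _ f =>
    have h1 : Polynomial.aeval (↑f : Germ (U : Filter ℕ) κ) P =
        (Germ.coeRingHom (U : Filter ℕ) : (ℕ → κ) →+* Germ (U : Filter ℕ) κ) fun t => P.eval (f t) := by
      clear hP hPx
      have hf : (↑f : Germ (U : Filter ℕ) κ) = (Germ.coeRingHom (U : Filter ℕ) : (ℕ → κ) →+* Germ (U : Filter ℕ) κ) f := rfl
      have hc : ∀ c : κ, algebraMap κ (Germ (U : Filter ℕ) κ) c =
          (Germ.coeRingHom (U : Filter ℕ) : (ℕ → κ) →+* Germ (U : Filter ℕ) κ) fun _ => c := fun c => halg c
      rw [hf]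
      induction P using Polynomial.induction_on' with
      | add p q hp hq =>
        rw [map_add, hp, hq, ← map_add]
        congr 1
        funext t
        exact Polynomial.eval_add.symm
      | monomial n a =>
        rw [Polynomial.aeval_monomial, ← map_pow, hc, ← map_mul]
        congr 1
        funext t
        rw [Polynomial.eval_monomial]
        rfl
    rw [h1] at hPx
    have hPx' : ∀ᶠ t in (U : Filter ℕ), P.eval (f t) = 0 := Germ.coe_eq.1 hPx
    have h2 : ∀ᶠ t in (U : Filter ℕ), ∃ r ∈ (P.roots.toFinset : Set κ), f t = r := by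
      filter_upwards [hPx'] with t ht
      exact ⟨f t, by simpa using ⟨hP, ht⟩, rfl⟩
    obtain ⟨r, _, hr⟩ := (Ultrafilter.eventually_exists_mem_iff (Finset.finite_toSet _)).1 h2
    refine ⟨r, Germ.coe_eq.2 ?_⟩
    filter_upwards [hr] with t ht
    exact ht.symm

end Pool.Agent.Helper24.AN
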