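import Pool.Agent.Helper24.AN.Star
import Pool.Agent.Helper24.AN.Pol
import Pool.Agent.Helper24.AN.Fd
import Pool.Agent.Helper24.AN.Alg

/-!
# Rigidity (block RIG)

Proof. Let `N ≠ 0`, `s ∈ N`, `s ≠ 0`. The submodules `W e` generated by the `G ^ i s`, `i ≥ e`, stabilise, at `W`; then
`W ≠ 0` since `G` is injective, `G(W) ≤ W`, `W` is generated by `G(W)`, `W ≤ N`. By `star` for `W` and `k = c + 1`,
`S = W ∩ E k` is contained in the submodule `Z` generated by `G(S)`, `Z ≤ W`, so `S = Z ∩ E k`. Let `K` be the field of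
definition of `S` over `κ` (`exists_field`, `S` is finite-dimensional by `fin_E`). `Z` is spanned over `L` by the vectors
`X ^ α • G s`, `s ∈ S` rational over `K`, which are rational over `K' = κ(K ^ p)`; `E k` is the set of the `v` with
`X ^ α • v = 0`, `|α| = k`; by `rat_ker` `S` is spanned by vectors rational over `K'`, so `K ≤ K'`, `K` is algebraic over `κ`
(`alg_of_pow`), so `K = κ`, and `S` is spanned by vectors rational over `κ`, which are zero because `S ≤ N`. But `S ≠ 0`.
-/

namespace Pool.Agent.Helper24.AN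

open MvPolynomial Module

universe u v

section RatLemmas

variable {κ L : Type*} [Field κ] [Field L] [Algebra κ L] {V : Type*} [AddCommGroup V] [Module L V]
  {ι : Type*} {b : Basis ι L V} {K : IntermediateField κ L}

private theorem rat_zero : Rat b K 0 := fun i => by
  rw [map_zero]; exact zero_mem _

private theorem rat_add {v w : V} (hv : Rat b K v) (hw : Rat b K w) : Rat b K (v + w) := fun i => by
  rw [map_add, Finsupp.add_apply]; exact add_mem (hv i) (hw i)

private theorem rat_smul {c : L} (hc : c ∈ K) {v : V} (hv : Rat b K v) : Rat b K (c • v) := fun i => by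
  rw [map_smul, Finsupp.smul_apply, smul_eq_mul]; exact mul_mem hc (hv i)

private theorem rat_mono {K' : IntermediateField κ L} (h : K ≤ K') {v : V} (hv : Rat b K v) :
    Rat b K' v := fun i => h (hv i)

/-- image of a rational vector under a semilinear map which is rational on the basis -/
private theorem rat_map {K' : IntermediateField κ L} (φ : V →+ V) (σ : L → L)
    (hσ : ∀ c v, φ (c • v) = σ c • φ v) (hK : ∀ c ∈ K, σ c ∈ K') (hb : ∀ i, Rat b K' (φ (b i)))
    {v : V} (hv : Rat b K v) : Rat b K' (φ v) := by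
  have h1 : v = ∑ i ∈ (b.repr v).support, b.repr v i • b i := by
    conv_lhs => rw [← b.linearCombination_repr v, Finsupp.linearCombination_apply]
    rfl
  have h2 : φ v = ∑ i ∈ (b.repr v).support, σ (b.repr v i) • φ (b i) := by
    conv_lhs => rw [h1]
    rw [map_sum]
    exact Finset.sum_congr rfl fun i _ => hσ _ _
  rw [h2]
  exact Finset.sum_induction _ (Rat b K') (fun _ _ => rat_add) rat_zero
    (fun i _ => rat_smul (hK _ (hv i)) (hb i))

end RatLemmas

section ELemmas

variable {R : Type*} [CommRing R] {I : Ideal R}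

private theorem mem_E_sub {H : Type*} [AddCommGroup H] [Module R H] {W : Submodule R H} {n : ℕ} (w : W) :
    w ∈ E I W n ↔ (w : H) ∈ E I H n := by
  constructor
  · intro h r hr
    exact congrArg Subtype.val (h r hr)
  · intro h r hr
    exact Subtype.ext (h r hr)

private theorem mem_E_list {d : ℕ} {x : Fin d → R} (hx : Ideal.span (Set.range x) = I) {H : Type*}
    [AddCommGroup H] [Module R H] (n : ℕ) (h : H) :
    h ∈ E I H n ↔ ∀ l : List (Fin d), l.length = n → (l.map x).prod • h = 0 := by
  induction n generalizing h with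
  | zero =>
    rw [E_zero, Submodule.mem_bot]
    constructor
    · rintro rfl l _
      exact smul_zero _
    · intro h1
      have := h1 [] rfl
      rwa [List.map_nil, List.prod_nil, one_smul] at this
  | succ n ih =>
    rw [mem_E_succ I hx]
    constructor
    · intro h1 l hl
      cases l with
      | nil => simp at hl
      | cons j l =>
        rw [List.map_cons, List.prod_cons, mul_comm, mul_smul]
        exact (ih _).1 (h1 j) l (by simpa using hl)
    · intro h1 j
      rw [ih]
      intro l hl
      have := h1 (j :: l) (by simp [hl])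
      rwa [List.map_cons, List.prod_cons, mul_comm, mul_smul] at this

/-- a nonzero torsion submodule has nonzero elements killed by the ideal -/
private theorem exists_E_one {d : ℕ} {x : Fin d → R} (hx : Ideal.span (Set.range x) = I) {H : Type*}
    [AddCommGroup H] [Module R H] (W : Submodule R H) (n : ℕ) :
    ∀ w ∈ W, w ∈ E I H n → w ≠ 0 → ∃ w' ∈ W, w' ∈ E I H 1 ∧ w' ≠ 0 := by
  induction n with
  | zero =>
    intro w _ hw hw0
    rw [E_zero] at hw
    exact absurd hw hw0
  | succ n ih =>
    intro w hW hw hw0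
    by_cases h : ∀ j, x j • w = 0
    · exact ⟨w, hW, (E_one_iff I hx).2 h, hw0⟩
    · push Not at h
      obtain ⟨j, hj⟩ := h
      exact ih (x j • w) (W.smul_mem _ hW) ((mem_E_succ I hx).1 hw j) hj

end ELemmas

theorem rig (p : ℕ) [Fact p.Prime] {κ L : Type u} [Field κ] [Field L] [Algebra κ L] [CharP L p]
    (hrac : ∀ a : L, IsAlgebraic κ a → ∃ c : κ, algebraMap κ L c = a) {d : ℕ} {V : Type v} [AddCommGroup V]
    [Module (MvPolynomial (Fin d) L) V] [Module L V] [IsScalarTower L (MvPolynomial (Fin d) L) V]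
    [IsArtinian (MvPolynomial (Fin d) L) V] (htor : Tor (vars L d) V) {ι : Type*} (b : Basis ι L V)
    (hX : ∀ j i, Rat b (⊥ : IntermediateField κ L) ((X j : MvPolynomial (Fin d) L) • b i)) (G : V →+ V)
    (hG : ∀ (q : MvPolynomial (Fin d) L) (v : V), G (q • v) = q ^ p • G v)
    (hGb : ∀ i, Rat b (⊥ : IntermediateField κ L) (G (b i))) (hinj : ∀ v, G v = 0 → v = 0)
    (N : Submodule (MvPolynomial (Fin d) L) V) (hN : ∀ v ∈ N, G v ∈ N)
    (hN0 : ∀ v ∈ N, Rat b (⊥ : IntermediateField κ L) v → v = 0) : N = ⊥ := by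
  by_contra hne
  obtain ⟨s, hsN, hs0⟩ := N.ne_bot_iff.1 hne
  have hp2 : 2 ≤ p := (Fact.out : p.Prime).two_le
  have hGL : ∀ (c : L) (v : V), G (c • v) = c ^ p • G v := by
    intro c v
    rw [← algebraMap_smul (MvPolynomial (Fin d) L) c v, hG, ← map_pow, algebraMap_smul]
  -- the iterates
  let g : ℕ → V := fun i => G^[i] s
  have hg : ∀ i, g (i + 1) = G (g i) := fun i => Function.iterate_succ_apply' _ _ _
  have hg0 : ∀ i, g i ≠ 0 := by
    intro i
    induction i with
    | zero => exact hs0
    | succ i ih =>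
      rw [hg]
      exact fun h => ih (hinj _ h)
  have hgN : ∀ i, g i ∈ N := by
    intro i
    induction i with
    | zero => exact hsN
    | succ i ih =>
      rw [hg]
      exact hN _ ih
  let We : ℕ → Submodule (MvPolynomial (Fin d) L) V := fun e =>
    Submodule.span _ {v | ∃ i, e ≤ i ∧ g i = v}
  have hWe : ∀ e e', e ≤ e' → We e' ≤ We e := by
    intro e e' h
    apply Submodule.span_mono
    rintro _ ⟨i, hi, rfl⟩
    exact ⟨i, h.trans hi, rfl⟩
  obtain ⟨e0, he0⟩ := monotone_stabilizes_iff_artinian.mpr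
    (inferInstance : IsArtinian (MvPolynomial (Fin d) L) V)
    ⟨fun k => OrderDual.toDual (We k), fun e e' h => hWe e e' h⟩
  have he1 : We (e0 + 1) = We e0 := (he0 (e0 + 1) (Nat.le_succ _)).symm
  obtain ⟨W, hW⟩ : ∃ W, W = We e0 := ⟨_, rfl⟩
  have hWN : W ≤ N := by
    rw [hW, Submodule.span_le]
    rintro _ ⟨i, _, rfl⟩
    exact hgN i
  have hWG1 : ∀ v ∈ We e0, G v ∈ We (e0 + 1) := by
    intro v hv
    induction hv using Submodule.span_induction with
    | mem y hy =>
      obtain ⟨i, hi, rfl⟩ := hy
      rw [← hg]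
      exact Submodule.subset_span ⟨i + 1, Nat.succ_le_succ hi, rfl⟩
    | zero => rw [map_zero]; exact Submodule.zero_mem _
    | add a b _ _ ha hb => rw [map_add]; exact Submodule.add_mem _ ha hb
    | smul q a _ ha => rw [hG]; exact Submodule.smul_mem _ _ ha
  have hWG : ∀ v ∈ W, G v ∈ W := by
    intro v hv
    rw [hW] at hv ⊢
    rw [← he1]
    exact hWG1 v hv
  have hWfull : W ≤ Submodule.span _ (G '' (W : Set V)) := by
    rw [hW, ← he1, Submodule.span_le]
    rintro _ ⟨i, hi, rfl⟩
    obtain ⟨j, rfl⟩ : ∃ j, i = j + 1 := ⟨i - 1, by omega⟩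
    refine Submodule.subset_span ⟨g j, ?_, (hg j).symm⟩
    rw [he1]
    exact Submodule.subset_span ⟨j, by omega, rfl⟩
  have hWne : ∃ w ∈ W, w ≠ 0 := ⟨g e0, by rw [hW]; exact Submodule.subset_span ⟨e0, le_rfl, rfl⟩, hg0 e0⟩
  -- the restriction of G to W
  let GW : W →+ W :=
    { toFun := fun v => ⟨G v, hWG _ v.2⟩
      map_zero' := Subtype.ext (map_zero G)
      map_add' := fun v w => Subtype.ext (map_add G _ _) }
  obtain ⟨c, hc⟩ := star p (R := MvPolynomial (Fin d) L) (I := vars L d) (x := X) rfl
    (isArtinianRing_quot L d) (N := W) (fun w => by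
      obtain ⟨n, hn⟩ := htor (w : V)
      exact ⟨n, (mem_E_sub w).2 hn⟩) GW (fun r h => Subtype.ext (hG r h)) (fun h => by
      have h1 := hWfull h.2
      have h2 : Submodule.span (MvPolynomial (Fin d) L) (G '' (W : Set V)) =
          (Submodule.span (MvPolynomial (Fin d) L) (Set.range GW)).map W.subtype := by
        rw [Submodule.map_span]
        congr 1
        ext y
        constructor
        · rintro ⟨w, hw, rfl⟩
          exact ⟨GW ⟨w, hw⟩, ⟨⟨w, hw⟩, rfl⟩, rfl⟩
        · rintro ⟨_, ⟨w, rfl⟩, rfl⟩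
          exact ⟨w, w.2, rfl⟩
      rw [h2] at h1
      obtain ⟨h', hh', hh''⟩ := h1
      rwa [show h = h' from Subtype.ext hh''.symm])
  obtain ⟨k, hk⟩ : ∃ k, k = c + 1 := ⟨_, rfl⟩
  -- the space S
  let S : Submodule L V := (W ⊓ E (vars L d) V k).restrictScalars L
  have hS : ∀ v, v ∈ S ↔ v ∈ W ∧ v ∈ E (vars L d) V k := fun v => Iff.rfl
  let Z : Submodule (MvPolynomial (Fin d) L) V := Submodule.span _ (G '' (S : Set V))
  have hZW : Z ≤ W := by
    rw [Submodule.span_le]
    rintro _ ⟨v, hv, rfl⟩
    exact hWG v ((hS v).1 hv).1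
  have hSZ : ∀ v ∈ S, v ∈ Z := by
    intro v hv
    obtain ⟨h1, h2⟩ := (hS v).1 hv
    have h3 := hc k k (by nlinarith) ⟨v, h1⟩ ((mem_E_sub _).2 h2)
    have h4 : (v : V) ∈ (Submodule.span (MvPolynomial (Fin d) L)
        (GW '' (E (vars L d) W k : Set W))).map W.subtype := ⟨⟨v, h1⟩, h3, rfl⟩
    rw [Submodule.map_span] at h4
    refine Submodule.span_mono ?_ h4
    rintro _ ⟨_, ⟨w, hw, rfl⟩, rfl⟩
    exact ⟨w, ⟨w.2, (mem_E_sub w).1 hw⟩, rfl⟩
  have hSfin : FiniteDimensional L S := by
    have h1 : FiniteDimensional L (E (vars L d) V k) := fin_E k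
    let ψ : S →ₗ[L] E (vars L d) V k :=
      { toFun := fun v => ⟨v, ((hS v).1 v.2).2⟩
        map_add' := fun _ _ => rfl
        map_smul' := fun _ _ => rfl }
    refine FiniteDimensional.of_injective ψ ?_
    intro v w hvw
    exact Subtype.ext (congrArg (fun z : E (vars L d) V k => (z : V)) hvw)
  obtain ⟨K, hKfg, hKS, hKmin⟩ := exists_field κ b S
  obtain ⟨K', hK'⟩ : ∃ K' : IntermediateField κ L, K' = IntermediateField.adjoin κ {y | ∃ x ∈ K, y = x ^ p} :=
    ⟨_, rfl⟩
  have hratX : ∀ (j : Fin d) (v : V), Rat b K' v → Rat b K' ((X j : MvPolynomial (Fin d) L) • v) := by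
    intro j v hv
    refine rat_map (DistribSMul.toAddMonoidHom V (X j : MvPolynomial (Fin d) L)) id ?_
      (fun c hc => hc) (fun i => rat_mono bot_le (hX j i)) hv
    intro c v
    change (X j : MvPolynomial (Fin d) L) • (c • v) = c • ((X j : MvPolynomial (Fin d) L) • v)
    rw [← algebraMap_smul (MvPolynomial (Fin d) L) c v,
      ← algebraMap_smul (MvPolynomial (Fin d) L) c ((X j : MvPolynomial (Fin d) L) • v), smul_comm]
  have hratl : ∀ (l : List (Fin d)) (v : V), Rat b K' v →
      Rat b K' ((l.map (X : Fin d → MvPolynomial (Fin d) L)).prod • v) := by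
    intro l
    induction l with
    | nil =>
      intro v hv
      rwa [List.map_nil, List.prod_nil, one_smul]
    | cons j l ih =>
      intro v hv
      rw [List.map_cons, List.prod_cons, mul_smul]
      exact hratX j _ (ih v hv)
  have hratG : ∀ v, Rat b K v → Rat b K' (G v) := by
    intro v hv
    refine rat_map G (fun c => c ^ p) hGL (fun c hc => ?_) (fun i => rat_mono bot_le (hGb i)) hv
    rw [hK']
    exact IntermediateField.subset_adjoin _ _ ⟨c, hc, rfl⟩
  -- `Z` is spanned by vectors rational over `K'`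
  have hZrat : Z.restrictScalars L ≤ Submodule.span L {v | v ∈ Z.restrictScalars L ∧ Rat b K' v} := by
    have hstab : ∀ (q : MvPolynomial (Fin d) L) (v : V),
        v ∈ Submodule.span L {v | v ∈ Z.restrictScalars L ∧ Rat b K' v} →
        q • v ∈ Submodule.span L {v | v ∈ Z.restrictScalars L ∧ Rat b K' v} := by
      intro q
      induction q using MvPolynomial.induction_on with
      | C r =>
        intro v hv
        rw [← algebraMap_eq, algebraMap_smul]
        exact Submodule.smul_mem _ _ hv
      | add q1 q2 h1 h2 =>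
        intro v hv
        rw [add_smul]
        exact Submodule.add_mem _ (h1 v hv) (h2 v hv)
      | mul_X q j h1 =>
        intro v hv
        rw [mul_smul]
        apply h1
        induction hv using Submodule.span_induction with
        | mem y hy => exact Submodule.subset_span ⟨Z.smul_mem _ hy.1, hratX j y hy.2⟩
        | zero => rw [smul_zero]; exact Submodule.zero_mem _
        | add a b _ _ ha hb => rw [smul_add]; exact Submodule.add_mem _ ha hb
        | smul c a _ ha =>
          rw [← algebraMap_smul (MvPolynomial (Fin d) L) c a, smul_comm, algebraMap_smul]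
          exact Submodule.smul_mem _ _ ha
    intro v hv
    have hv' : v ∈ Z := hv
    induction hv' using Submodule.span_induction with
    | mem y hy =>
      obtain ⟨w, hw, rfl⟩ := hy
      have hw' := hKS hw
      clear hw hv
      induction hw' using Submodule.span_induction with
      | mem z hz => exact Submodule.subset_span ⟨Submodule.subset_span ⟨z, hz.1, rfl⟩, hratG z hz.2⟩
      | zero => rw [map_zero]; exact Submodule.zero_mem _
      | add a b _ _ ha hb => rw [map_add]; exact Submodule.add_mem _ ha hb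
      | smul c a _ ha => rw [hGL]; exact Submodule.smul_mem _ _ ha
    | zero => exact Submodule.zero_mem _
    | add a b ha' hb' ha hb => exact Submodule.add_mem _ (ha ha') (hb hb')
    | smul q a ha' ha => exact hstab q a (ha ha')
  have hSrat := rat_ker b K' (Z.restrictScalars L) hZrat
    (J := {l : List (Fin d) // l.length = k})
    (fun l =>
      { toFun := fun v => (l.1.map (X : Fin d → MvPolynomial (Fin d) L)).prod • v
        map_add' := fun _ _ => smul_add _ _ _
        map_smul' := fun c v => by
          rw [← algebraMap_smul (MvPolynomial (Fin d) L) c v, smul_comm, algebraMap_smul]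
          rfl })
    (fun l v hv => hratl l.1 v hv) S (fun v => by
      rw [hS]
      constructor
      · rintro ⟨h1, h2⟩
        exact ⟨hSZ v ⟨h1, h2⟩, fun l => (mem_E_list (x := X) rfl k v).1 h2 l.1 l.2⟩
      · rintro ⟨h1, h2⟩
        exact ⟨hZW h1, (mem_E_list (x := X) rfl k v).2 fun l hl => h2 ⟨l, hl⟩⟩)
  have hKK' := hKmin K' hSrat
  rw [hK'] at hKK'
  have halg := alg_of_pow p K hKfg hKK'
  have hKbot : K ≤ ⊥ := by
    intro x hx
    obtain ⟨c, hc⟩ := hrac x (halg x hx)
    exact IntermediateField.mem_bot.2 ⟨c, hc⟩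
  have hSbot : ∀ v ∈ S, v = 0 := by
    intro v hv
    have h1 : S ≤ ⊥ := by
      refine hKS.trans ?_
      rw [Submodule.span_le]
      rintro w ⟨hw, hwr⟩
      exact hN0 w (hWN ((hS w).1 hw).1) (rat_mono hKbot hwr)
    exact (Submodule.mem_bot L).1 (h1 hv)
  obtain ⟨w, hw, hw0⟩ := hWne
  obtain ⟨n, hn⟩ := htor w
  obtain ⟨w', hw', hw1, hw0'⟩ := exists_E_one (x := X) rfl W n w hw hn hw0
  exact hw0' (hSbot w' ⟨hw', E_mono _ (by omega) hw1⟩)

end Pool.Agent.Helper24.AN
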