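import Pool.Agent.Helper24.AN.Lam
import Pool.Agent.Helper24.AN.PolFrob

/-!
# The growth bound (★) (block STAR)
-/

namespace Pool.Agent.Helper24.AN

open Pool.Agent.Helper14.FFull TensorProduct

universe u v

section

variable (p : ℕ) [Fact p.Prime] {R : Type u} [CommRing R] [CharP R p]

/-- A module over the polynomial ring which is the target of a semilinear map with spanning image
is Artinian. -/
theorem isArtinian_of_semilinear [IsNoetherianRing R] {d : ℕ} (x : Fin d → R)
    (hI : IsArtinianRing (R ⧸ Ideal.span (Set.range x)))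
    (M : Type v) [AddCommGroup M] [Module (MvPolynomial (Fin d) R) M]
    [IsArtinian (MvPolynomial (Fin d) R) M]
    (h1 : ∀ i, ∀ m : M, ∃ e : ℕ, (MvPolynomial.C (x i) : MvPolynomial (Fin d) R) ^ e • m = 0)
    (h2 : ∀ i, ∀ m : M, ∃ e : ℕ, (MvPolynomial.X i : MvPolynomial (Fin d) R) ^ e • m = 0)
    (T : Type v) [AddCommGroup T] [Module (MvPolynomial (Fin d) R) T]
    (Φ : M →+ T) (hΦ : ∀ (q : MvPolynomial (Fin d) R) (m : M),
      Φ (q • m) = MvPolynomial.map (frobenius R p) q • Φ m)
    (hs : ∀ t : T, t ∈ Submodule.span (MvPolynomial (Fin d) R) (Set.range Φ)) :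
    IsArtinian (MvPolynomial (Fin d) R) T := by
  have hart := isArtinian_polFrob p x hI M h1 h2
  let _ : Module (PolFrob p R d) T := inferInstanceAs (Module (MvPolynomial (Fin d) R) T)
  let toP : MvPolynomial (Fin d) R ≃+* PolFrob p R d := RingEquiv.refl _
  have halg : ∀ q : MvPolynomial (Fin d) R,
      algebraMap (MvPolynomial (Fin d) R) (PolFrob p R d) q =
        toP (MvPolynomial.map (frobenius R p) q) := fun q => rfl
  have hsm : ∀ (q : MvPolynomial (Fin d) R) (t : T), toP q • t = q • t := fun q t => rfl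
  let ψ : PolFrob p R d ⊗[MvPolynomial (Fin d) R] M →+ T :=
    TensorProduct.liftAddHom
      { toFun := fun s =>
          { toFun := fun m => s • Φ m
            map_zero' := by rw [map_zero, smul_zero]
            map_add' := by intro a b; rw [map_add, smul_add] }
        map_zero' := by ext h; simp
        map_add' := by intro a b; ext h; simp [add_smul] }
      (by
        intro q s m
        change (q • s) • Φ m = s • Φ (q • m)
        rw [hΦ, Algebra.smul_def, halg, mul_comm, mul_smul, hsm])
  have hψ : ∀ (s : PolFrob p R d) (m : M), ψ (s ⊗ₜ m) = s • Φ m := fun s m => rfl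
  let ψ' : PolFrob p R d ⊗[MvPolynomial (Fin d) R] M →ₗ[PolFrob p R d] T :=
    { toFun := ψ
      map_add' := map_add ψ
      map_smul' := by
        intro s g
        change ψ (s • g) = s • ψ g
        induction g with
        | zero => rw [smul_zero, map_zero, smul_zero]
        | add a b ha hb => rw [smul_add, map_add, ha, hb, map_add, smul_add]
        | tmul t m =>
          rw [TensorProduct.smul_tmul', hψ, hψ, smul_eq_mul, mul_smul] }
  have hsurj : Function.Surjective ψ' := by
    intro t
    have := hs t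
    induction this using Submodule.span_induction with
    | mem y hy =>
      obtain ⟨m, rfl⟩ := hy
      refine ⟨1 ⊗ₜ m, ?_⟩
      change ψ (1 ⊗ₜ m) = _
      rw [hψ, one_smul]
    | zero => exact ⟨0, map_zero _⟩
    | add a b _ _ ha hb =>
      obtain ⟨a', ha'⟩ := ha
      obtain ⟨b', hb'⟩ := hb
      exact ⟨a' + b', by rw [map_add, ha', hb']⟩
    | smul q b _ hb =>
      obtain ⟨b', hb'⟩ := hb
      exact ⟨toP q • b', by rw [map_smul, hb', hsm]⟩
  have h3 : IsArtinian (PolFrob p R d) T := isArtinian_of_surjective _ ψ' hsurj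
  exact h3

end

/-- the map of `Lam x N` to `Lam (x ^ p) N` given by `G` -/
noncomputable def lamG {p : ℕ} {R : Type u} [CommRing R] {d : ℕ} (x : Fin d → R) {N : Type v}
    [AddCommGroup N] (G : N →+ N) : Lam x N →+ Lam (fun j => x j ^ p) N :=
  (Finsupp.mapRange.addMonoidHom G : (ℕ →₀ N) →+ (ℕ →₀ N))

theorem lamG_at {p : ℕ} {R : Type u} [CommRing R] {d : ℕ} (x : Fin d → R) {N : Type v}
    [AddCommGroup N] (G : N →+ N) (f : Lam x N) (n : ℕ) : (lamG (p := p) x G f).at n = G (f.at n) := rfl

theorem lamG_smul {p : ℕ} [Fact p.Prime] {R : Type u} [CommRing R] [CharP R p] {d : ℕ} (x : Fin d → R)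
    {N : Type v} [AddCommGroup N] [Module R N] (G : N →+ N)
    (hG : ∀ (r : R) (h : N), G (r • h) = r ^ p • G h) (q : MvPolynomial (Fin d) R) (f : Lam x N) :
    lamG (p := p) x G (q • f) = MvPolynomial.map (frobenius R p) q • lamG (p := p) x G f := by
  induction q using MvPolynomial.induction_on generalizing f with
  | C r =>
    rw [MvPolynomial.map_C, Lam.C_smul, Lam.C_smul, frobenius_def]
    apply Lam.ext
    intro n
    rw [lamG_at, Lam.at_smul, hG, Lam.at_smul, lamG_at]
  | add a b ha hb => rw [add_smul, map_add, ha, hb, map_add, add_smul]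
  | mul_X a j ha =>
    rw [mul_smul, ha, map_mul, MvPolynomial.map_X, mul_smul]
    congr 1
    apply Lam.ext
    intro n
    rw [lamG_at, Lam.X_smul, Lam.X_smul, lamG_at, hG]

theorem star (p : ℕ) [Fact p.Prime] {R : Type u} [CommRing R] [IsNoetherianRing R] [CharP R p]
    {d : ℕ} {I : Ideal R} {x : Fin d → R} (hx : Ideal.span (Set.range x) = I)
    (hI : IsArtinianRing (R ⧸ I)) {N : Type v} [AddCommGroup N] [Module R N] [IsArtinian R N]
    (htor : Tor I N) (G : N →+ N) (hG : ∀ (r : R) (h : N), G (r • h) = r ^ p • G h)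
    (hfull : ∀ h : N, h ∈ Submodule.span R (Set.range G)) :
    ∃ c : ℕ, ∀ b n : ℕ, n + c ≤ p * b → ∀ ζ ∈ E I N n,
      ζ ∈ Submodule.span R (G '' (E I N b : Set N)) := by
  classical
  have hxI : ∀ j, x j ∈ I := fun j => hx ▸ Ideal.subset_span ⟨j, rfl⟩
  have hE : ∀ n j, ∀ h ∈ E I N (n + 1), x j • h ∈ E I N n := fun n j h hh =>
    smul_mem_E_one I (hxI j) hh
  let z : Fin d → R := fun j => x j ^ p
  let K0 : ℕ → Submodule R N := fun n => Submodule.span R (G '' (E I N n : Set N))
  have hK0 : ∀ n j, ∀ h ∈ K0 (n + 1), z j • h ∈ K0 n := by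
    intro n j h hh
    induction hh using Submodule.span_induction with
    | mem y hy =>
      obtain ⟨ν, hν, rfl⟩ := hy
      refine Submodule.subset_span ⟨x j • ν, hE n j ν hν, ?_⟩
      rw [hG]
    | zero => rw [smul_zero]; exact Submodule.zero_mem _
    | add a b _ _ ha hb => rw [smul_add]; exact Submodule.add_mem _ ha hb
    | smul r b _ hb => rw [smul_comm]; exact Submodule.smul_mem _ _ hb
  have hK0m : ∀ m n, m ≤ n → K0 m ≤ K0 n := fun m n hmn =>
    Submodule.span_mono (Set.image_mono (E_mono I hmn))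
  -- the Artinian module `M`
  let P : Submodule (MvPolynomial (Fin d) R) (Lam x N) := Sys (z := x) (fun n => E I N n) hE
  have hM : IsArtinian (MvPolynomial (Fin d) R) (Lam x N ⧸ P) := isArtinian_Lam hx
  let Q : Submodule (MvPolynomial (Fin d) R) (Lam z N) := Sys (z := z) K0 hK0
  have hCpow : ∀ (i : Fin d) (k : ℕ) (f : Lam x N) (n : ℕ),
      ((MvPolynomial.C (x i) : MvPolynomial (Fin d) R) ^ k • f).at n = x i ^ k • f.at n := by
    intro i k f n
    rw [← map_pow, Lam.C_smul, Lam.at_smul]
  have hXpow : ∀ (j : Fin d) (k : ℕ) (f : Lam x N) (n : ℕ),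
      ((MvPolynomial.X j : MvPolynomial (Fin d) R) ^ k • f).at n = x j ^ k • f.at (n + k) := by
    intro j k f
    induction k with
    | zero =>
      intro n
      rw [pow_zero, one_smul, pow_zero, one_smul, add_zero]
    | succ k ih =>
      intro n
      rw [pow_succ', mul_smul, Lam.X_smul, ih, smul_smul, ← pow_succ', add_right_comm, add_assoc]
  have h1 : ∀ i, ∀ m : Lam x N ⧸ P,
      ∃ e : ℕ, (MvPolynomial.C (x i) : MvPolynomial (Fin d) R) ^ e • m = 0 := by
    intro i m
    obtain ⟨f, rfl⟩ := Submodule.Quotient.mk_surjective _ m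
    obtain ⟨k, hk⟩ := f.finite
    have h3 : ∃ e : ℕ, ∀ n < k, x i ^ e • f.at n = 0 := by
      choose e he using fun n => htor (f.at n)
      refine ⟨(Finset.range k).sup e, fun n hn => ?_⟩
      refine he n _ ?_
      exact Ideal.pow_le_pow_right (Finset.le_sup (f := e) (Finset.mem_range.mpr hn))
        (Ideal.pow_mem_pow (hxI i) _)
    obtain ⟨e, he⟩ := h3
    refine ⟨e, ?_⟩
    rw [← Submodule.Quotient.mk_smul]
    have h4 : (MvPolynomial.C (x i) : MvPolynomial (Fin d) R) ^ e • f = 0 := by
      apply Lam.ext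
      intro n
      rw [hCpow, Lam.at_zero]
      rcases Nat.lt_or_ge n k with hn | hn
      · exact he n hn
      · rw [hk n hn, smul_zero]
    rw [h4, Submodule.Quotient.mk_zero]
  have h2 : ∀ i, ∀ m : Lam x N ⧸ P,
      ∃ e : ℕ, (MvPolynomial.X i : MvPolynomial (Fin d) R) ^ e • m = 0 := by
    intro j m
    obtain ⟨f, rfl⟩ := Submodule.Quotient.mk_surjective _ m
    obtain ⟨k, hk⟩ := f.finite
    refine ⟨k, ?_⟩
    rw [← Submodule.Quotient.mk_smul]
    have h4 : (MvPolynomial.X j : MvPolynomial (Fin d) R) ^ k • f = 0 := by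
      apply Lam.ext
      intro n
      rw [hXpow, hk (n + k) (by omega), smul_zero, Lam.at_zero]
    rw [h4, Submodule.Quotient.mk_zero]
  have hPQ : ∀ f ∈ P, lamG (p := p) x G f ∈ Q := by
    intro f hf
    rw [mem_Sys] at hf ⊢
    intro n
    rw [lamG_at]
    exact Submodule.subset_span ⟨f.at n, hf n, rfl⟩
  let Φ : (Lam x N ⧸ P) →+ (Lam z N ⧸ Q) :=
    QuotientAddGroup.map P.toAddSubgroup Q.toAddSubgroup (lamG (p := p) x G) hPQ
  have hΦmk : ∀ f : Lam x N, Φ (Submodule.Quotient.mk f) =
      Submodule.Quotient.mk (lamG (p := p) x G f) := fun f => rfl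
  have hΦ : ∀ (q : MvPolynomial (Fin d) R) (m : Lam x N ⧸ P),
      Φ (q • m) = MvPolynomial.map (frobenius R p) q • Φ m := by
    intro q m
    obtain ⟨f, rfl⟩ := Submodule.Quotient.mk_surjective _ m
    rw [← Submodule.Quotient.mk_smul, hΦmk, hΦmk, lamG_smul x G hG, ← Submodule.Quotient.mk_smul]
  have hsp : ∀ t : Lam z N ⧸ Q,
      t ∈ Submodule.span (MvPolynomial (Fin d) R) (Set.range Φ) := by
    intro t
    obtain ⟨f, rfl⟩ := Submodule.Quotient.mk_surjective _ t
    -- single elements
    have hsingle : ∀ (n : ℕ) (h : N), (Submodule.Quotient.mk (Lam.of z (Finsupp.single n h)) :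
        Lam z N ⧸ Q) ∈ Submodule.span (MvPolynomial (Fin d) R) (Set.range Φ) := by
      intro n h
      have := hfull h
      induction this using Submodule.span_induction with
      | mem y hy =>
        obtain ⟨ν, rfl⟩ := hy
        refine Submodule.subset_span ⟨Submodule.Quotient.mk (Lam.of x (Finsupp.single n ν)), ?_⟩
        rw [hΦmk]
        congr 1
        apply Lam.ext
        intro i
        rw [lamG_at, Lam.at_of, Lam.at_of]
        by_cases hi : n = i
        · subst hi
          rw [Finsupp.single_eq_same, Finsupp.single_eq_same]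
        · rw [Finsupp.single_eq_of_ne' hi, Finsupp.single_eq_of_ne' hi, map_zero]
      | zero =>
        rw [Finsupp.single_zero]
        exact Submodule.zero_mem _
      | add a b _ _ ha hb =>
        rw [Finsupp.single_add]
        exact Submodule.add_mem _ ha hb
      | smul r b _ hb =>
        have h5 : (Submodule.Quotient.mk (Lam.of z (Finsupp.single n (r • b))) : Lam z N ⧸ Q) =
            (MvPolynomial.C r : MvPolynomial (Fin d) R) •
              (Submodule.Quotient.mk (Lam.of z (Finsupp.single n b)) : Lam z N ⧸ Q) := by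
          rw [← Submodule.Quotient.mk_smul]
          congr 1
          apply Lam.ext
          intro i
          rw [Lam.C_smul, Lam.at_smul, Lam.at_of, Lam.at_of, ← Finsupp.smul_apply,
            Finsupp.smul_single]
        rw [h5]
        exact Submodule.smul_mem _ _ hb
    let g : ℕ →₀ N := f
    have hg : (Submodule.Quotient.mk (Lam.of z g) : Lam z N ⧸ Q) ∈
        Submodule.span (MvPolynomial (Fin d) R) (Set.range Φ) := by
      induction g using Finsupp.induction with
      | zero => exact Submodule.zero_mem _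
      | single_add n h g _ _ ih => exact Submodule.add_mem _ (hsingle n h) ih
    exact hg
  have hT : IsArtinian (MvPolynomial (Fin d) R) (Lam z N ⧸ Q) :=
    isArtinian_of_semilinear p x (hx ▸ hI) (Lam x N ⧸ P) h1 h2 (Lam z N ⧸ Q) Φ hΦ hsp
  -- the descending sequence of systems
  let K : ℕ → ℕ → Submodule R N := fun s b => E I N (p * b - s) ⊔ K0 b
  have hK : ∀ s b j, ∀ h ∈ K s (b + 1), z j • h ∈ K s b := by
    intro s b j h hh
    obtain ⟨e, he, k, hk, rfl⟩ := Submodule.mem_sup.mp hh
    rw [smul_add]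
    refine Submodule.add_mem_sup ?_ (hK0 b j k hk)
    have h5 := smul_mem_E I (Ideal.pow_mem_pow (hxI j) p) he
    have h6 : p * (b + 1) - s - p = p * b - s := by
      rw [Nat.mul_succ]; omega
    rwa [h6] at h5
  obtain ⟨c0, hc0⟩ := dcc (z := z) (K0 := K0) (hK0 := hK0) hT K hK (fun s n => le_sup_right)
    (fun s n => sup_le_sup_right (E_mono I (by omega)) _)
  refine ⟨c0, fun b n hn ζ hζ => ?_⟩
  have h5 : ζ ∈ K c0 b := Submodule.mem_sup_left (E_mono I (by omega) hζ)
  rw [← hc0 (max c0 (p * b)) (le_max_left _ _) b] at h5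
  have h6 : p * b - max c0 (p * b) = 0 := by omega
  have h7 : K (max c0 (p * b)) b = K0 b := by
    change E I N (p * b - max c0 (p * b)) ⊔ K0 b = K0 b
    rw [h6, E_zero, bot_sup_eq]
  rw [h7] at h5
  exact h5

end Pool.Agent.Helper24.AN
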