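import Pool.Agent.Helper14.FFull.Reindex

/-!
# Anti-nilpotency of the Čech complex does not depend on the sequence (block TAN1)

Proof. As `TF_insert_iff`, `TF_subset_iff`, `TF_reindex`, `TF_iff_of_radical_eq` (Helper14/FFull/Indep.lean, Reindex.lean). For
`j ∉ S`: `Zc (insert j S) ≤ Zc S`, `Bc (insert j S) ≤ Bc S`, `Zc S = Zc (insert j S) + Bc S` (`extend_cocycle`) and
`Zc (insert j S) ∩ Bc S = Bc (insert j S)` (`K_acyclic`). `TAN S → TAN (insert j S)`: replace `N` by `N + Bc S`.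
`TAN (insert j S) → TAN S`: replace `N` by `N ∩ Zc (insert j S)`.
-/

namespace Pool.Agent.Helper24.AN

open Pool.Agent.Helper14.FFull

universe u

variable {A : Type u} [CommRing A] {n : ℕ} (c : Fin n → A)

/-- cocycles on the subsets of `S` -/
def Zc (S : Finset (Fin n)) : Submodule A (CC c A) where
  carrier := {z | ∀ σ ⊆ S, DD c A z σ = 0}
  zero_mem' := fun σ _ => by rw [map_zero]; rfl
  add_mem' := fun {z w} hz hw σ hσ => by rw [map_add, Pi.add_apply, hz σ hσ, hw σ hσ, add_zero]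
  smul_mem' := fun r z hz σ hσ => by rw [map_smul, Pi.smul_apply, hz σ hσ, smul_zero]

/-- coboundaries on the subsets of `S` -/
def Bc (S : Finset (Fin n)) : Submodule A (CC c A) where
  carrier := {z | ∃ u : CC c A, ∀ σ ⊆ S, z σ = DD c A u σ}
  zero_mem' := ⟨0, fun σ _ => by rw [map_zero]⟩
  add_mem' := by
    rintro z w ⟨u, hu⟩ ⟨v, hv⟩
    exact ⟨u + v, fun σ hσ => by rw [map_add, Pi.add_apply, Pi.add_apply, hu σ hσ, hv σ hσ]⟩
  smul_mem' := by
    rintro r z ⟨u, hu⟩
    exact ⟨r • u, fun σ hσ => by rw [map_smul, Pi.smul_apply, Pi.smul_apply, hu σ hσ]⟩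

/-- total anti-nilpotency of the Čech complex on the subsets of `S` -/
def TAN (p : ℕ) (S : Finset (Fin n)) : Prop :=
  ∀ N : Submodule A (CC c A), Bc c S ≤ N → N ≤ Zc c S → (∀ z ∈ N, powCC c p z ∈ N) →
    ∀ z ∈ Zc c S, powCC c p z ∈ N → z ∈ N

/-! ## Basic facts -/

theorem Zc_mono {S T : Finset (Fin n)} (h : S ⊆ T) : Zc c T ≤ Zc c S :=
  fun _ hz σ hσ => hz σ (hσ.trans h)

theorem Bc_mono {S T : Finset (Fin n)} (h : S ⊆ T) : Bc c T ≤ Bc c S := by
  rintro z ⟨u, hu⟩
  exact ⟨u, fun σ hσ => hu σ (hσ.trans h)⟩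

theorem Bc_le_Zc (S : Finset (Fin n)) : Bc c S ≤ Zc c S := by
  rintro z ⟨u, hu⟩ σ hσ
  rw [DD_congr c hu σ hσ, DD_DD]
  rfl

/-- a cochain which vanishes on `S` is a coboundary on `S` -/
theorem mem_Bc_of_zero {S : Finset (Fin n)} {z : CC c A} (h : ∀ σ ⊆ S, z σ = 0) : z ∈ Bc c S :=
  ⟨0, fun σ hσ => by rw [h σ hσ, map_zero]; rfl⟩

variable (p : ℕ) [Fact p.Prime] [CharP A p]

theorem powCC_eq (z : CC c A) : powCC c p z = frobCC c p z := rfl

theorem powCC_add (z w : CC c A) : powCC c p (z + w) = powCC c p z + powCC c p w := by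
  rw [powCC_eq, powCC_eq, powCC_eq, map_add]

theorem powCC_sub (z w : CC c A) : powCC c p (z - w) = powCC c p z - powCC c p w := by
  rw [powCC_eq, powCC_eq, powCC_eq, map_sub]

theorem powCC_smul (r : A) (z : CC c A) : powCC c p (r • z) = r ^ p • powCC c p z := by
  rw [powCC_eq, powCC_eq, LinearMap.map_smulₛₗ]
  rfl

theorem powCC_mem_Zc {S : Finset (Fin n)} {z : CC c A} (hz : z ∈ Zc c S) : powCC c p z ∈ Zc c S := by
  intro σ hσ
  rw [powCC_eq, frobCC_DD, frobCC_apply, hz σ hσ]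
  exact zero_pow (Fact.out : p.Prime).ne_zero

theorem powCC_mem_Bc {S : Finset (Fin n)} {z : CC c A} (hz : z ∈ Bc c S) : powCC c p z ∈ Bc c S := by
  obtain ⟨u, hu⟩ := hz
  refine ⟨frobCC c p u, fun σ hσ => ?_⟩
  rw [frobCC_DD, powCC_congr c (hu σ hσ)]
  rfl

/-! ## One more element -/

theorem exists_extend {S : Finset (Fin n)} {j : Fin n} (hj : j ∉ S)
    (hrad : c j ∈ (Ideal.span (c '' S)).radical) {z : CC c A} (hz : z ∈ Zc c S) :
    ∃ z' ∈ Zc c (insert j S), ∀ σ ⊆ S, z' σ = z σ :=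
  extend_cocycle c hj hrad z hz

theorem mem_Bc_insert {S : Finset (Fin n)} {j : Fin n} (hj : j ∉ S)
    (hrad : c j ∈ (Ideal.span (c '' S)).radical) {z : CC c A} (hz : z ∈ Zc c (insert j S))
    (hb : z ∈ Bc c S) : z ∈ Bc c (insert j S) := by
  have hsub : ∀ σ ⊆ insert j S, j ∉ σ → σ ⊆ S := fun σ hσ h =>
    (Finset.subset_insert_iff_of_notMem h).mp hσ
  obtain ⟨u, hu⟩ := hb
  obtain ⟨k, -, hk'⟩ := K_acyclic c hj hrad (z - DD c A u)
    (fun σ hσ => by rw [map_sub, DD_DD, sub_zero]; exact hz σ hσ)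
    (fun σ hσ h => by rw [Pi.sub_apply, hu σ (hsub σ hσ h), sub_self])
  refine ⟨u + k, fun σ hσ => ?_⟩
  rw [map_add, Pi.add_apply, hk' σ hσ, Pi.sub_apply]
  abel

theorem TAN_insert_iff {S : Finset (Fin n)} {j : Fin n} (hj : j ∉ S)
    (hrad : c j ∈ (Ideal.span (c '' S)).radical) : TAN c p (insert j S) ↔ TAN c p S := by
  have hSS : S ⊆ insert j S := Finset.subset_insert j S
  constructor
  · intro h N hB hZ hN z hz hpz
    obtain ⟨z', hz', hzz'⟩ := exists_extend c hj hrad hz
    have hd : ∀ w w' : CC c A, (∀ σ ⊆ S, w' σ = w σ) → (w' ∈ N ↔ w ∈ N) := by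
      intro w w' hww
      have h1 : w' - w ∈ N := hB (mem_Bc_of_zero c fun σ hσ => by rw [Pi.sub_apply, hww σ hσ, sub_self])
      constructor
      · intro h2
        have := N.sub_mem h2 h1
        rwa [sub_sub_cancel] at this
      · intro h2
        have := N.add_mem h1 h2
        rwa [sub_add_cancel] at this
    have h2 := h (N ⊓ Zc c (insert j S)) (le_inf ((Bc_mono c hSS).trans hB) (Bc_le_Zc c _)) inf_le_right
      (fun w hw => ⟨hN w hw.1, powCC_mem_Zc c p hw.2⟩) z' hz'
      ⟨(hd _ _ fun σ hσ => powCC_congr c (hzz' σ hσ)).2 hpz, powCC_mem_Zc c p hz'⟩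
    exact (hd z z' hzz').1 h2.1
  · intro h N hB hZ hN z hz hpz
    have h1 := h (N ⊔ Bc c S) le_sup_right (sup_le (hZ.trans (Zc_mono c hSS)) (Bc_le_Zc c S)) (by
      intro w hw
      obtain ⟨a, ha, b, hb, rfl⟩ := Submodule.mem_sup.1 hw
      rw [powCC_add]
      exact Submodule.add_mem_sup (hN a ha) (powCC_mem_Bc c p hb)) z (Zc_mono c hSS hz)
      (Submodule.mem_sup_left hpz)
    obtain ⟨a, ha, b, hb, rfl⟩ := Submodule.mem_sup.1 h1
    refine N.add_mem ha (hB (mem_Bc_insert c hj hrad ?_ hb))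
    have := (Zc c (insert j S)).sub_mem hz (hZ ha)
    rwa [add_sub_cancel_left] at this

theorem TAN_subset_iff {S T : Finset (Fin n)} (hST : S ⊆ T)
    (hrad : ∀ j ∈ T, c j ∈ (Ideal.span (c '' S)).radical) : TAN c p T ↔ TAN c p S := by
  obtain ⟨U, rfl⟩ : ∃ U, T = S ∪ U := ⟨T, (Finset.union_eq_right.mpr hST).symm⟩
  clear hST
  induction U using Finset.induction_on with
  | empty => rw [Finset.union_empty]
  | insert j U hjU ih =>
    have ih' := ih (fun i hi => hrad i (Finset.union_subset_union_right (Finset.subset_insert j U) hi))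
    rw [Finset.union_insert]
    by_cases hj : j ∈ S ∪ U
    · rw [Finset.insert_eq_of_mem hj]; exact ih'
    · rw [TAN_insert_iff c p hj, ih']
      have h1 := hrad j (by simp)
      refine Ideal.radical_mono (Ideal.span_mono (Set.image_mono ?_)) h1
      intro x hx
      exact Finset.mem_coe.mpr (Finset.mem_union_left _ hx)

/-! ## Change of the index set -/

section reindex

variable {m : ℕ} (a : Fin n → A) (d : Fin m → A) (e : Fin n ↪o Fin m) (hce : ∀ i, d (e i) = a i)

omit [Fact p.Prime] [CharP A p] in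
theorem mem_Zc_em (w : CC d A) : w ∈ Zc d (em e Finset.univ) ↔ phi a d e hce w ∈ Zc a Finset.univ := by
  have h1 : w ∈ Zc d (em e Finset.univ) ↔ ∀ σ : Finset (Fin n), DD d A w (em e σ) = 0 :=
    subset_em_iff e (fun τ => DD d A w τ = 0)
  rw [h1]
  constructor
  · intro h σ _
    rw [← phi_DD]
    exact (phi_apply_eq_zero a d e hce _ σ).mpr (h σ)
  · intro h σ
    have h2 := h σ (Finset.subset_univ σ)
    rw [← phi_DD] at h2
    exact (phi_apply_eq_zero a d e hce _ σ).mp h2

omit [Fact p.Prime] [CharP A p] in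
theorem mem_Bc_em (w : CC d A) : w ∈ Bc d (em e Finset.univ) ↔ phi a d e hce w ∈ Bc a Finset.univ := by
  constructor
  · rintro ⟨u, hu⟩
    refine ⟨phi a d e hce u, fun σ _ => ?_⟩
    rw [← phi_DD, ← sub_eq_zero, ← Pi.sub_apply, ← map_sub]
    refine (phi_apply_eq_zero a d e hce _ σ).mpr ?_
    rw [Pi.sub_apply, hu _ (Finset.map_subset_map.mpr (Finset.subset_univ σ)), sub_self]
  · rintro ⟨u, hu⟩
    obtain ⟨u, rfl⟩ := phi_surjective a d e hce u
    refine ⟨u, (subset_em_iff e (fun τ => w τ = DD d A u τ)).2 fun σ => ?_⟩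
    have h1 := hu σ (Finset.subset_univ σ)
    rw [← phi_DD, ← sub_eq_zero, ← Pi.sub_apply, ← map_sub] at h1
    have h2 := (phi_apply_eq_zero a d e hce _ σ).mp h1
    rwa [Pi.sub_apply, sub_eq_zero] at h2

omit [Fact p.Prime] [CharP A p] in
include hce in
theorem TAN_reindex : TAN d p (em e Finset.univ) ↔ TAN a p Finset.univ := by
  constructor
  · intro h N hB hZ hN z hz hpz
    obtain ⟨z, rfl⟩ := phi_surjective a d e hce z
    exact h (N.comap (phi a d e hce)) (fun w hw => hB ((mem_Bc_em a d e hce w).1 hw))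
      (fun w hw => (mem_Zc_em a d e hce w).2 (hZ hw)) (fun w hw => by
        rw [Submodule.mem_comap, phi_pow]
        exact hN _ hw) z ((mem_Zc_em a d e hce z).2 hz) (by
        rw [Submodule.mem_comap, phi_pow]
        exact hpz)
  · intro h N hB hZ hN z hz hpz
    have hker : ∀ w w' : CC d A, phi a d e hce w = phi a d e hce w' → w ∈ N → w' ∈ N := by
      intro w w' hww hw
      have h1 : w - w' ∈ N := by
        refine hB ((mem_Bc_em a d e hce _).2 ?_)
        rw [map_sub, hww, sub_self]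
        exact Submodule.zero_mem _
      have := N.sub_mem hw h1
      rwa [sub_sub_cancel] at this
    have h1 := h (N.map (phi a d e hce)) (fun w hw => by
        obtain ⟨w, rfl⟩ := phi_surjective a d e hce w
        exact ⟨w, hB ((mem_Bc_em a d e hce w).2 hw), rfl⟩) (by
        rintro _ ⟨w, hw, rfl⟩
        exact (mem_Zc_em a d e hce w).1 (hZ hw)) (by
        rintro _ ⟨w, hw, rfl⟩
        exact ⟨powCC d p w, hN w hw, phi_pow a d e hce p w⟩) (phi a d e hce z)
        ((mem_Zc_em a d e hce z).1 hz) ⟨powCC d p z, hpz, phi_pow a d e hce p z⟩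
    obtain ⟨w, hw, hwz⟩ := h1
    exact hker w z hwz hw

end reindex

theorem TAN_iff_of_radical_eq {A : Type u} [CommRing A] (p : ℕ) [Fact p.Prime] [CharP A p] {n m : ℕ}
    (a : Fin n → A) (b : Fin m → A)
    (h : (Ideal.span (Set.range a)).radical = (Ideal.span (Set.range b)).radical) :
    TAN a p Finset.univ ↔ TAN b p Finset.univ := by
  let c : Fin (n + m) → A := Fin.append a b
  have h1 : TAN c p (em (Fin.castAddOrderEmb m) Finset.univ) ↔ TAN a p Finset.univ :=
    TAN_reindex p a c (Fin.castAddOrderEmb m) (fun i => Fin.append_left a b i)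
  have h2 : TAN c p (em (Fin.natAddOrderEmb n) Finset.univ) ↔ TAN b p Finset.univ :=
    TAN_reindex p b c (Fin.natAddOrderEmb n) (fun i => Fin.append_right a b i)
  have ha : ∀ i, a i ∈ (Ideal.span (Set.range a)).radical := fun i =>
    Ideal.le_radical (Ideal.subset_span ⟨i, rfl⟩)
  have hb : ∀ i, b i ∈ (Ideal.span (Set.range b)).radical := fun i =>
    Ideal.le_radical (Ideal.subset_span ⟨i, rfl⟩)
  have hca : c '' (em (Fin.castAddOrderEmb m) Finset.univ : Finset (Fin (n + m))) = Set.range a := by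
    ext x
    constructor
    · rintro ⟨j, hj, rfl⟩
      obtain ⟨i, _, rfl⟩ := Finset.mem_map.mp (Finset.mem_coe.mp hj)
      exact ⟨i, (Fin.append_left a b i).symm⟩
    · rintro ⟨i, rfl⟩
      exact ⟨Fin.castAdd m i, Finset.mem_coe.mpr (Finset.mem_map.mpr ⟨i, Finset.mem_univ _, rfl⟩),
        Fin.append_left a b i⟩
  have hcb : c '' (em (Fin.natAddOrderEmb n) Finset.univ : Finset (Fin (n + m))) = Set.range b := by
    ext x
    constructor
    · rintro ⟨j, hj, rfl⟩
      obtain ⟨i, _, rfl⟩ := Finset.mem_map.mp (Finset.mem_coe.mp hj)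
      exact ⟨i, (Fin.append_right a b i).symm⟩
    · rintro ⟨i, rfl⟩
      exact ⟨Fin.natAdd n i, Finset.mem_coe.mpr (Finset.mem_map.mpr ⟨i, Finset.mem_univ _, rfl⟩),
        Fin.append_right a b i⟩
  have hc : ∀ j, c j ∈ (Ideal.span (Set.range a)).radical := by
    intro j
    induction j using Fin.addCases with
    | left i => rw [show c (Fin.castAdd m i) = a i from Fin.append_left a b i]; exact ha i
    | right i => rw [show c (Fin.natAdd n i) = b i from Fin.append_right a b i, h]; exact hb i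
  rw [← h1, ← h2, ← TAN_subset_iff c p (Finset.subset_univ _) (fun j _ => by rw [hca]; exact hc j),
    ← TAN_subset_iff c p (Finset.subset_univ (em (Fin.natAddOrderEmb n) Finset.univ))
      (fun j _ => by rw [hcb, ← h]; exact hc j)]

end Pool.Agent.Helper24.AN
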