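import Pool.Agent.Helper24.AN.Rig
import Pool.Agent.Helper24.AN.Growth
import Pool.Agent.Helper24.AN.Rac

/-!
# Rigidity in the ultrapower (block ULTRA)
-/

namespace Pool.Agent.Helper24.AN

open MvPolynomial Filter

universe u v

section Bounded

variable (κ : Type u) [Field κ] (d : ℕ) (M : Type v) [AddCommGroup M]
  [Module (MvPolynomial (Fin d) κ) M] (U : Ultrafilter ℕ)

/-- the germs of the bounded functions -/
def BG : Submodule (Germ (U : Filter ℕ) (MvPolynomial (Fin d) κ)) (Germ (U : Filter ℕ) M) where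
  carrier := {v | ∃ k, v.LiftPred (· ∈ E (vars κ d) M k)}
  add_mem' := by
    rintro a b ⟨k, hk⟩ ⟨l, hl⟩
    induction a using Germ.inductionOn with | _ f
    induction b using Germ.inductionOn with | _ g
    refine ⟨max k l, ?_⟩
    rw [Germ.liftPred_coe] at hk hl
    rw [← Germ.coe_add, Germ.liftPred_coe]
    filter_upwards [hk, hl] with t h1 h2
    exact Submodule.add_mem _ (E_mono _ (le_max_left _ _) h1) (E_mono _ (le_max_right _ _) h2)
  zero_mem' := by
    refine ⟨0, ?_⟩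
    rw [← Germ.coe_zero, Germ.liftPred_coe]
    exact Filter.Eventually.of_forall fun t => Submodule.zero_mem _
  smul_mem' := by
    rintro q a ⟨k, hk⟩
    induction a using Germ.inductionOn with | _ f
    induction q using Germ.inductionOn with | _ g
    refine ⟨k, ?_⟩
    rw [Germ.liftPred_coe] at hk
    rw [← Germ.coe_smul', Germ.liftPred_coe]
    filter_upwards [hk] with t h1
    exact Submodule.smul_mem _ _ h1

/-- the module of the germs of the bounded functions -/
def BV : Type v := BG κ d M U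

noncomputable instance : AddCommGroup (BV κ d M U) := inferInstanceAs (AddCommGroup (BG κ d M U))

/-- constants -/
noncomputable def gC : Germ (U : Filter ℕ) κ →+* Germ (U : Filter ℕ) (MvPolynomial (Fin d) κ) where
  toFun := Germ.map C
  map_one' := by
    rw [← Germ.coe_one, Germ.map_coe, ← Germ.coe_one]
    refine congrArg (fun f : ℕ → MvPolynomial (Fin d) κ => (f : Germ (U : Filter ℕ) (MvPolynomial (Fin d) κ))) ?_
    funext t
    exact map_one C
  map_mul' a b := by
    induction a using Germ.inductionOn with | _ f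
    induction b using Germ.inductionOn with | _ g
    rw [← Germ.coe_mul, Germ.map_coe, Germ.map_coe, Germ.map_coe, ← Germ.coe_mul]
    congr 1
    funext t
    exact map_mul C _ _
  map_zero' := by
    rw [← Germ.coe_zero, Germ.map_coe, ← Germ.coe_zero]
    congr 1
    funext t
    exact map_zero C
  map_add' a b := by
    induction a using Germ.inductionOn with | _ f
    induction b using Germ.inductionOn with | _ g
    rw [← Germ.coe_add, Germ.map_coe, Germ.map_coe, Germ.map_coe, ← Germ.coe_add]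
    congr 1
    funext t
    exact map_add C _ _

/-- polynomials over the ultrapower as germs of polynomials -/
noncomputable def phi : MvPolynomial (Fin d) (Germ (U : Filter ℕ) κ) →+*
    Germ (U : Filter ℕ) (MvPolynomial (Fin d) κ) :=
  eval₂Hom (gC κ d U) (fun j => ((fun _ => X j : ℕ → MvPolynomial (Fin d) κ) :
    Germ (U : Filter ℕ) (MvPolynomial (Fin d) κ)))

noncomputable instance : Module (MvPolynomial (Fin d) (Germ (U : Filter ℕ) κ)) (BV κ d M U) :=
  Module.compHom (BG κ d M U) (phi κ d U)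

noncomputable instance : Module (Germ (U : Filter ℕ) κ) (BV κ d M U) :=
  Module.compHom (BG κ d M U) (gC κ d U)

theorem BV.poly_smul_def (q : MvPolynomial (Fin d) (Germ (U : Filter ℕ) κ)) (v : BV κ d M U) :
    q • v = (show BV κ d M U from (phi κ d U q • (show BG κ d M U from v))) := rfl

theorem BV.field_smul_def (c : Germ (U : Filter ℕ) κ) (v : BV κ d M U) :
    c • v = (show BV κ d M U from (gC κ d U c • (show BG κ d M U from v))) := rfl

instance : IsScalarTower (Germ (U : Filter ℕ) κ) (MvPolynomial (Fin d) (Germ (U : Filter ℕ) κ))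
    (BV κ d M U) where
  smul_assoc c q v := by
    have h : phi κ d U (C c) = gC κ d U c := eval₂Hom_C _ _ _
    have h1 : phi κ d U (c • q) = gC κ d U c * phi κ d U q := by
      rw [smul_eq_C_mul, RingHom.map_mul, h]
    have h2 : ∀ w : BG κ d M U, phi κ d U (c • q) • w = gC κ d U c • phi κ d U q • w := by
      intro w
      rw [h1, mul_smul]
    exact h2 v

variable {κ d M U}

/-- the class of a bounded function -/
def BV.mk (f : ℕ → M) (h : ∃ k, ∀ᶠ t in (U : Filter ℕ), f t ∈ E (vars κ d) M k) : BV κ d M U :=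
  ⟨(f : Germ (U : Filter ℕ) M), h⟩

theorem BV.exists_mk (v : BV κ d M U) : ∃ (f : ℕ → M)
    (h : ∃ k, ∀ᶠ t in (U : Filter ℕ), f t ∈ E (vars κ d) M k), v = BV.mk f h := by
  obtain ⟨v, hv⟩ := v
  induction v using Germ.inductionOn with | _ f
  exact ⟨f, hv, rfl⟩

theorem BV.mk_eq_iff {f g : ℕ → M} {h : ∃ k, ∀ᶠ t in (U : Filter ℕ), f t ∈ E (vars κ d) M k}
    {h' : ∃ k, ∀ᶠ t in (U : Filter ℕ), g t ∈ E (vars κ d) M k} :
    (BV.mk f h : BV κ d M U) = BV.mk g h' ↔ ∀ᶠ t in (U : Filter ℕ), f t = g t := by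
  constructor
  · intro h1
    exact Germ.coe_eq.mp (congrArg Subtype.val h1)
  · intro h1
    exact Subtype.ext (Germ.coe_eq.mpr h1)

theorem BV.mk_congr {f g : ℕ → M} {h : ∃ k, ∀ᶠ t in (U : Filter ℕ), f t ∈ E (vars κ d) M k}
    {h' : ∃ k, ∀ᶠ t in (U : Filter ℕ), g t ∈ E (vars κ d) M k} (hfg : ∀ t, f t = g t) :
    (BV.mk f h : BV κ d M U) = BV.mk g h' :=
  BV.mk_eq_iff.mpr (Filter.Eventually.of_forall hfg)

theorem bd_add {f g : ℕ → M} (h : ∃ k, ∀ᶠ t in (U : Filter ℕ), f t ∈ E (vars κ d) M k)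
    (h' : ∃ k, ∀ᶠ t in (U : Filter ℕ), g t ∈ E (vars κ d) M k) :
    ∃ k, ∀ᶠ t in (U : Filter ℕ), f t + g t ∈ E (vars κ d) M k :=
  (BG κ d M U).add_mem (x := (f : Germ (U : Filter ℕ) M)) (y := (g : Germ (U : Filter ℕ) M)) h h'

theorem bd_smul {f : ℕ → M} (h : ∃ k, ∀ᶠ t in (U : Filter ℕ), f t ∈ E (vars κ d) M k)
    (q : ℕ → MvPolynomial (Fin d) κ) :
    ∃ k, ∀ᶠ t in (U : Filter ℕ), q t • f t ∈ E (vars κ d) M k :=
  (BG κ d M U).smul_mem (q : Germ (U : Filter ℕ) (MvPolynomial (Fin d) κ))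
    (x := (f : Germ (U : Filter ℕ) M)) h

theorem bd_zero : ∃ k, ∀ᶠ t in (U : Filter ℕ), (fun _ => 0 : ℕ → M) t ∈ E (vars κ d) M k :=
  (BG κ d M U).zero_mem

theorem BV.mk_add {f g : ℕ → M} (h : ∃ k, ∀ᶠ t in (U : Filter ℕ), f t ∈ E (vars κ d) M k)
    (h' : ∃ k, ∀ᶠ t in (U : Filter ℕ), g t ∈ E (vars κ d) M k) :
    (BV.mk f h : BV κ d M U) + BV.mk g h' = BV.mk (fun t => f t + g t) (bd_add h h') := rfl

theorem BV.mk_zero : (BV.mk (fun _ => 0) bd_zero : BV κ d M U) = 0 := rfl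

theorem BV.mk_eq_zero {f : ℕ → M} {h : ∃ k, ∀ᶠ t in (U : Filter ℕ), f t ∈ E (vars κ d) M k} :
    (BV.mk f h : BV κ d M U) = 0 ↔ ∀ᶠ t in (U : Filter ℕ), f t = 0 := by
  rw [← BV.mk_zero, BV.mk_eq_iff]

theorem BV.exists_smul (q : MvPolynomial (Fin d) (Germ (U : Filter ℕ) κ)) :
    ∃ q' : ℕ → MvPolynomial (Fin d) κ, phi κ d U q = (q' : Germ (U : Filter ℕ) (MvPolynomial (Fin d) κ)) := by
  obtain ⟨q', hq'⟩ : ∃ q', q' = phi κ d U q := ⟨_, rfl⟩
  rw [← hq']
  clear hq'
  induction q' using Germ.inductionOn with | _ f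
  exact ⟨f, rfl⟩

theorem BV.smul_mk {q : MvPolynomial (Fin d) (Germ (U : Filter ℕ) κ)} {q' : ℕ → MvPolynomial (Fin d) κ}
    (hq : phi κ d U q = (q' : Germ (U : Filter ℕ) (MvPolynomial (Fin d) κ))) {f : ℕ → M}
    (h : ∃ k, ∀ᶠ t in (U : Filter ℕ), f t ∈ E (vars κ d) M k) :
    q • (BV.mk f h : BV κ d M U) = BV.mk (fun t => q' t • f t) (bd_smul h q') := by
  rw [BV.poly_smul_def, hq]
  rfl

theorem phi_pow {q : MvPolynomial (Fin d) (Germ (U : Filter ℕ) κ)} {q' : ℕ → MvPolynomial (Fin d) κ}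
    (hq : phi κ d U q = (q' : Germ (U : Filter ℕ) (MvPolynomial (Fin d) κ))) (n : ℕ) :
    phi κ d U (q ^ n) = ((fun t => q' t ^ n : ℕ → MvPolynomial (Fin d) κ) :
      Germ (U : Filter ℕ) (MvPolynomial (Fin d) κ)) := by
  rw [map_pow, hq]
  rfl

theorem BV.X_smul_mk (j : Fin d) {f : ℕ → M}
    (h : ∃ k, ∀ᶠ t in (U : Filter ℕ), f t ∈ E (vars κ d) M k) :
    (X j : MvPolynomial (Fin d) (Germ (U : Filter ℕ) κ)) • (BV.mk f h : BV κ d M U) =
      BV.mk (fun t => (X j : MvPolynomial (Fin d) κ) • f t) (bd_smul h _) :=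
  BV.smul_mk (eval₂Hom_X' _ _ _) h

theorem BV.field_smul_mk (c : ℕ → κ) {f : ℕ → M}
    (h : ∃ k, ∀ᶠ t in (U : Filter ℕ), f t ∈ E (vars κ d) M k) :
    (c : Germ (U : Filter ℕ) κ) • (BV.mk f h : BV κ d M U) =
      BV.mk (fun t => (C (c t) : MvPolynomial (Fin d) κ) • f t) (bd_smul h _) := by
  rw [BV.field_smul_def]
  rfl

theorem BV.mem_E_of_eventually (k : ℕ) : ∀ {f : ℕ → M}
    (h : ∃ k, ∀ᶠ t in (U : Filter ℕ), f t ∈ E (vars κ d) M k),
    (∀ᶠ t in (U : Filter ℕ), f t ∈ E (vars κ d) M k) →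
    (BV.mk f h : BV κ d M U) ∈ E (vars (Germ (U : Filter ℕ) κ) d) (BV κ d M U) k := by
  induction k with
  | zero =>
    intro f h hf
    rw [E_zero, Submodule.mem_bot, BV.mk_eq_zero]
    filter_upwards [hf] with t ht
    rwa [E_zero, Submodule.mem_bot] at ht
  | succ k ih =>
    intro f h hf
    rw [mem_E_succ (vars (Germ (U : Filter ℕ) κ) d) rfl]
    intro j
    rw [BV.X_smul_mk]
    apply ih
    filter_upwards [hf] with t ht
    rw [mem_E_succ (vars κ d) rfl] at ht
    exact ht j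

theorem BV.tor : Tor (vars (Germ (U : Filter ℕ) κ) d) (BV κ d M U) := by
  intro v
  obtain ⟨f, h, rfl⟩ := BV.exists_mk v
  obtain ⟨k, hk⟩ := h
  exact ⟨k, BV.mem_E_of_eventually k ⟨k, hk⟩ hk⟩

theorem BV.eventually_of_mem_E_one {f : ℕ → M}
    {h : ∃ k, ∀ᶠ t in (U : Filter ℕ), f t ∈ E (vars κ d) M k}
    (hf : (BV.mk f h : BV κ d M U) ∈ E (vars (Germ (U : Filter ℕ) κ) d) (BV κ d M U) 1) :
    ∀ᶠ t in (U : Filter ℕ), f t ∈ E (vars κ d) M 1 := by
  rw [E_one_iff (vars (Germ (U : Filter ℕ) κ) d) rfl] at hf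
  have h1 : ∀ j : Fin d, ∀ᶠ t in (U : Filter ℕ), (X j : MvPolynomial (Fin d) κ) • f t = 0 := by
    intro j
    have := hf j
    rwa [BV.X_smul_mk, BV.mk_eq_zero] at this
  filter_upwards [Filter.eventually_all.mpr h1] with t ht
  rw [E_one_iff (vars κ d) rfl]
  exact ht

/-- the class of a constant function -/
def BV.cst (U : Ultrafilter ℕ) (htor : Tor (vars κ d) M) (m : M) : BV κ d M U :=
  BV.mk (fun _ => m) (by
    obtain ⟨k, hk⟩ := htor m
    exact ⟨k, Filter.Eventually.of_forall fun _ => hk⟩)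

theorem BV.cst_add (htor : Tor (vars κ d) M) (a b : M) :
    BV.cst U htor (a + b) = BV.cst U htor a + BV.cst U htor b := rfl

theorem BV.cst_zero (htor : Tor (vars κ d) M) : BV.cst U htor (0 : M) = 0 := rfl

theorem BV.poly_smul_cst (htor : Tor (vars κ d) M) (j : Fin d) (m : M) :
    (X j : MvPolynomial (Fin d) (Germ (U : Filter ℕ) κ)) • BV.cst U htor m =
      BV.cst U htor ((X j : MvPolynomial (Fin d) κ) • m) := BV.X_smul_mk j _

variable [Module κ M] [IsScalarTower κ (MvPolynomial (Fin d) κ) M]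

theorem C_smul_eq (c : κ) (m : M) : (C c : MvPolynomial (Fin d) κ) • m = c • m :=
  algebraMap_smul (MvPolynomial (Fin d) κ) c m

theorem BV.cst_smul (htor : Tor (vars κ d) M) (c : κ) (m : M) :
    BV.cst U htor (c • m) = ((fun _ => c : ℕ → κ) : Germ (U : Filter ℕ) κ) • BV.cst U htor m := by
  rw [BV.cst, BV.cst, BV.field_smul_mk]
  exact BV.mk_congr fun t => (C_smul_eq c m).symm

theorem BV.sum_mk (htor : Tor (vars κ d) M) {ι : Type*} (s : Finset ι) (c : ι → ℕ → κ) (w : ι → M) :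
    ∃ h, ∑ i ∈ s, ((c i : Germ (U : Filter ℕ) κ)) • BV.cst U htor (w i) =
      BV.mk (fun t => ∑ i ∈ s, c i t • w i) h := by
  classical
  induction s using Finset.induction_on with
  | empty => exact ⟨bd_zero, rfl⟩
  | insert a s ha ih =>
    obtain ⟨h, hh⟩ := ih
    have h0 : ∃ k, ∀ᶠ t in (U : Filter ℕ), c a t • w a ∈ E (vars κ d) M k := by
      obtain ⟨k, hk⟩ := htor (w a)
      refine ⟨k, Filter.Eventually.of_forall fun t => ?_⟩
      rw [← C_smul_eq (d := d)]
      exact Submodule.smul_mem _ _ hk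
    have h1 : ((c a : Germ (U : Filter ℕ) κ)) • BV.cst U htor (w a) =
        BV.mk (fun t => c a t • w a) h0 := by
      rw [BV.cst, BV.field_smul_mk]
      exact BV.mk_congr fun t => C_smul_eq (c a t) (w a)
    have h2 : ∀ t, ∑ i ∈ insert a s, c i t • w i = c a t • w a + ∑ i ∈ s, c i t • w i := fun t =>
      Finset.sum_insert ha
    simp only [h2]
    refine ⟨bd_add h0 h, ?_⟩
    rw [Finset.sum_insert ha, hh, h1, BV.mk_add]

theorem BV.mem_span (htor : Tor (vars κ d) M) (W : Submodule κ M) {ι : Type*} [Fintype ι]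
    (w : Module.Basis ι κ W) {f : ℕ → M} (h : ∃ k, ∀ᶠ t in (U : Filter ℕ), f t ∈ E (vars κ d) M k)
    (hf : ∀ᶠ t in (U : Filter ℕ), f t ∈ W) :
    (BV.mk f h : BV κ d M U) ∈ Submodule.span (Germ (U : Filter ℕ) κ)
      (Set.range fun i => BV.cst U htor (w i : M)) := by
  classical
  let c : ι → ℕ → κ := fun i t => if ht : f t ∈ W then w.repr ⟨f t, ht⟩ i else 0
  obtain ⟨h', hh'⟩ := BV.sum_mk (U := U) htor Finset.univ c (fun i => (w i : M))
  have h1 : (BV.mk f h : BV κ d M U) = BV.mk (fun t => ∑ i, c i t • (w i : M)) h' := by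
    rw [BV.mk_eq_iff]
    filter_upwards [hf] with t ht
    have h2 := w.sum_repr ⟨f t, ht⟩
    have h3 := congrArg Subtype.val h2
    rw [Submodule.coe_sum] at h3
    refine h3.symm.trans (Finset.sum_congr rfl fun i _ => ?_)
    simp only [c, dif_pos ht]
    rfl
  rw [h1, ← hh']
  exact Submodule.sum_mem _ fun i _ => Submodule.smul_mem _ _ (Submodule.subset_span ⟨i, rfl⟩)

omit [Field κ] in
theorem germ_exists_rep (c : Germ (U : Filter ℕ) κ) : ∃ f : ℕ → κ, c = (f : Germ (U : Filter ℕ) κ) := by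
  induction c using Germ.inductionOn with | _ f
  exact ⟨f, rfl⟩

theorem BV.linearIndependent (htor : Tor (vars κ d) M) {ι : Type*} {e : ι → M}
    (he : LinearIndependent κ e) :
    LinearIndependent (Germ (U : Filter ℕ) κ) fun i => BV.cst U htor (e i) := by
  rw [linearIndependent_iff']
  intro s g hg i hi
  choose c hc using fun i => germ_exists_rep (g i)
  simp only [hc] at hg ⊢
  obtain ⟨h, hh⟩ := BV.sum_mk (U := U) htor s c e
  rw [hh, BV.mk_eq_zero] at hg
  rw [← Germ.coe_zero, Germ.coe_eq]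
  filter_upwards [hg] with t ht
  rw [linearIndependent_iff'] at he
  exact he s (fun i => c i t) ht i hi

theorem BV.cst_mem_span (htor : Tor (vars κ d) M) {ι : Type*} (e : Module.Basis ι κ M) (m : M) :
    BV.cst U htor m ∈ Submodule.span (Germ (U : Filter ℕ) κ) (Set.range fun i => BV.cst U htor (e i)) := by
  have := e.mem_span m
  induction this using Submodule.span_induction with
  | mem y hy =>
    obtain ⟨i, rfl⟩ := hy
    exact Submodule.subset_span ⟨i, rfl⟩
  | zero => exact Submodule.zero_mem _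
  | add a b _ _ ha hb => rw [BV.cst_add]; exact Submodule.add_mem _ ha hb
  | smul r b _ hb => rw [BV.cst_smul]; exact Submodule.smul_mem _ _ hb

theorem BV.span_eq_top [IsArtinian (MvPolynomial (Fin d) κ) M] (htor : Tor (vars κ d) M) {ι : Type*}
    (e : Module.Basis ι κ M) :
    ⊤ ≤ Submodule.span (Germ (U : Filter ℕ) κ) (Set.range fun i => BV.cst U htor (e i)) := by
  rintro v -
  obtain ⟨f, h, rfl⟩ := BV.exists_mk v
  obtain ⟨k, hk⟩ := h
  have hfin : FiniteDimensional κ ((E (vars κ d) M k).restrictScalars κ) := fin_E (K := κ) k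
  have h1 := BV.mem_span (U := U) htor ((E (vars κ d) M k).restrictScalars κ)
    (Module.finBasis κ ((E (vars κ d) M k).restrictScalars κ)) ⟨k, hk⟩ hk
  refine Submodule.span_le.mpr ?_ h1
  rintro _ ⟨i, rfl⟩
  exact BV.cst_mem_span htor e _

/-- the basis of the bounded germs given by a basis of `M` -/
noncomputable def BV.basis (U : Ultrafilter ℕ) [IsArtinian (MvPolynomial (Fin d) κ) M]
    (htor : Tor (vars κ d) M) {ι : Type*} (e : Module.Basis ι κ M) :
    Module.Basis ι (Germ (U : Filter ℕ) κ) (BV κ d M U) :=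
  Module.Basis.mk (BV.linearIndependent htor e.linearIndependent) (BV.span_eq_top htor e)

theorem BV.basis_apply [IsArtinian (MvPolynomial (Fin d) κ) M] (htor : Tor (vars κ d) M)
    {ι : Type*} (e : Module.Basis ι κ M) (i : ι) : BV.basis U htor e i = BV.cst U htor (e i) :=
  Module.Basis.mk_apply _ _ _

theorem BV.repr_cst [IsArtinian (MvPolynomial (Fin d) κ) M] (htor : Tor (vars κ d) M)
    {ι : Type*} (e : Module.Basis ι κ M) (m : M) (i : ι) :
    (BV.basis U htor e).repr (BV.cst U htor m) i =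
      ((fun _ => e.repr m i : ℕ → κ) : Germ (U : Filter ℕ) κ) := by
  classical
  have := e.mem_span m
  induction this using Submodule.span_induction with
  | mem y hy =>
    obtain ⟨j, rfl⟩ := hy
    rw [← BV.basis_apply, Module.Basis.repr_self, Module.Basis.repr_self]
    by_cases hij : j = i
    · subst hij
      rw [Finsupp.single_eq_same, Finsupp.single_eq_same]
      rfl
    · rw [Finsupp.single_eq_of_ne' hij, Finsupp.single_eq_of_ne' hij]
      rfl
  | zero =>
    rw [BV.cst_zero, map_zero, map_zero]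
    rfl
  | add a b _ _ ha hb =>
    rw [BV.cst_add, map_add, map_add, Finsupp.add_apply, ha, hb]
    rfl
  | smul r b _ hb =>
    rw [BV.cst_smul, map_smul, map_smul, Finsupp.smul_apply, hb]
    rfl

theorem BV.exists_cst_of_rat [IsArtinian (MvPolynomial (Fin d) κ) M] (htor : Tor (vars κ d) M)
    {ι : Type*} (e : Module.Basis ι κ M) (v : BV κ d M U)
    (hv : ∀ i, ∃ c : κ, (BV.basis U htor e).repr v i = ((fun _ => c : ℕ → κ) : Germ (U : Filter ℕ) κ)) :
    ∃ m : M, v = BV.cst U htor m := by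
  classical
  choose c hc using hv
  refine ⟨∑ i ∈ ((BV.basis U htor e).repr v).support, c i • e i, ?_⟩
  have h1 : ∀ s : Finset ι, BV.cst U htor (∑ i ∈ s, c i • e i) =
      ∑ i ∈ s, (BV.basis U htor e).repr v i • BV.basis U htor e i := by
    intro s
    induction s using Finset.induction_on with
    | empty => rfl
    | insert a s ha ih =>
      rw [Finset.sum_insert ha, Finset.sum_insert ha, BV.cst_add, ih, BV.cst_smul, hc,
        BV.basis_apply]
  rw [h1]
  exact ((BV.basis U htor e).linearCombination_repr v).symm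

end Bounded

section Frobenius

variable {κ : Type u} [Field κ] {d : ℕ} {M : Type v} [AddCommGroup M]
  [Module (MvPolynomial (Fin d) κ) M] {U : Ultrafilter ℕ}

theorem bd_frob {p : ℕ} (hp : 0 < p) (G : M →+ M)
    (hG : ∀ (q : MvPolynomial (Fin d) κ) (m : M), G (q • m) = q ^ p • G m) {f : ℕ → M}
    (h : ∃ k, ∀ᶠ t in (U : Filter ℕ), f t ∈ E (vars κ d) M k) :
    ∃ k, ∀ᶠ t in (U : Filter ℕ), G (f t) ∈ E (vars κ d) M k := by
  obtain ⟨k, hk⟩ := h
  refine ⟨p * k + d * (p - 1), ?_⟩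
  filter_upwards [hk] with t ht
  exact growth (x := fun j : Fin d => (X j : MvPolynomial (Fin d) κ)) rfl hp G hG k (f t) ht

/-- the map on the bounded germs -/
def BV.frob (U : Ultrafilter ℕ) {p : ℕ} (hp : 0 < p) (G : M →+ M)
    (hG : ∀ (q : MvPolynomial (Fin d) κ) (m : M), G (q • m) = q ^ p • G m) :
    BV κ d M U →+ BV κ d M U where
  toFun v := ⟨Germ.map G v.1, by
    obtain ⟨f, h, rfl⟩ := BV.exists_mk v
    exact bd_frob hp G hG h⟩
  map_zero' := by
    rw [← BV.mk_zero]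
    exact BV.mk_congr (U := U) (h := bd_frob hp G hG bd_zero) fun t => map_zero G
  map_add' v w := by
    obtain ⟨f, h, rfl⟩ := BV.exists_mk v
    obtain ⟨g, h', rfl⟩ := BV.exists_mk w
    exact BV.mk_congr (U := U) (h := bd_frob hp G hG (bd_add h h'))
      (h' := bd_add (bd_frob hp G hG h) (bd_frob hp G hG h')) fun t => map_add G _ _

theorem BV.frob_mk {p : ℕ} (hp : 0 < p) (G : M →+ M)
    (hG : ∀ (q : MvPolynomial (Fin d) κ) (m : M), G (q • m) = q ^ p • G m) {f : ℕ → M}
    (h : ∃ k, ∀ᶠ t in (U : Filter ℕ), f t ∈ E (vars κ d) M k) :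
    BV.frob U hp G hG (BV.mk f h) = BV.mk (fun t => G (f t)) (bd_frob hp G hG h) := rfl

theorem BV.frob_cst {p : ℕ} (hp : 0 < p) (G : M →+ M)
    (hG : ∀ (q : MvPolynomial (Fin d) κ) (m : M), G (q • m) = q ^ p • G m)
    (htor : Tor (vars κ d) M) (m : M) :
    BV.frob U hp G hG (BV.cst U htor m) = BV.cst U htor (G m) := rfl

theorem BV.frob_smul {p : ℕ} (hp : 0 < p) (G : M →+ M)
    (hG : ∀ (q : MvPolynomial (Fin d) κ) (m : M), G (q • m) = q ^ p • G m)
    (q : MvPolynomial (Fin d) (Germ (U : Filter ℕ) κ)) (v : BV κ d M U) :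
    BV.frob U hp G hG (q • v) = q ^ p • BV.frob U hp G hG v := by
  obtain ⟨f, h, rfl⟩ := BV.exists_mk v
  obtain ⟨q', hq'⟩ := BV.exists_smul q
  rw [BV.smul_mk hq', BV.frob_mk, BV.frob_mk, BV.smul_mk (phi_pow hq' p)]
  exact BV.mk_congr fun t => hG _ _

end Frobenius

theorem ultra (p : ℕ) [Fact p.Prime] {κ : Type u} [Field κ] [CharP κ p] {d : ℕ} {M : Type v} [AddCommGroup M]
    [Module (MvPolynomial (Fin d) κ) M] [IsArtinian (MvPolynomial (Fin d) κ) M] (htor : Tor (vars κ d) M)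
    (G : M →+ M) (hG : ∀ (q : MvPolynomial (Fin d) κ) (m : M), G (q • m) = q ^ p • G m)
    (hinj : ∀ m, G m = 0 → m = 0) (U : Ultrafilter ℕ) (F : Set (ℕ → M))
    (h1 : ∀ f ∈ F, ∃ k, ∀ᶠ t in (U : Filter ℕ), f t ∈ E (vars κ d) M k)
    (h2 : ∀ f ∈ F, ∀ g : ℕ → M, (∀ᶠ t in (U : Filter ℕ), f t = g t) → g ∈ F)
    (h3 : (fun _ => 0) ∈ F) (h4 : ∀ f ∈ F, ∀ g ∈ F, (fun t => f t + g t) ∈ F)
    (h5 : ∀ f ∈ F, ∀ q : ℕ → MvPolynomial (Fin d) κ, (fun t => q t • f t) ∈ F)
    (h6 : ∀ f ∈ F, (fun t => G (f t)) ∈ F) (h7 : ∀ m : M, (fun _ => m) ∈ F → m = 0) :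
    ∀ f ∈ F, ∀ᶠ t in (U : Filter ℕ), f t = 0 := by
  classical
  have hp : p.Prime := Fact.out
  let _ : Module κ M := Module.compHom M (C : κ →+* MvPolynomial (Fin d) κ)
  have : IsScalarTower κ (MvPolynomial (Fin d) κ) M :=
    { smul_assoc := fun c q m => by
        rw [smul_eq_C_mul, mul_smul]
        rfl }
  let _ : Algebra κ (Germ (U : Filter ℕ) κ) :=
    ((Germ.coeRingHom (U : Filter ℕ)).comp (Pi.constRingHom ℕ κ)).toAlgebra
  have halg : ∀ c : κ, algebraMap κ (Germ (U : Filter ℕ) κ) c = (↑c : Germ (U : Filter ℕ) κ) :=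
    fun c => rfl
  have : CharP (Germ (U : Filter ℕ) κ) p :=
    charP_of_injective_ringHom (algebraMap κ (Germ (U : Filter ℕ) κ)).injective p
  let e := Module.Basis.ofVectorSpace κ M
  -- the bounded germs are Artinian
  have hart : IsArtinian (MvPolynomial (Fin d) (Germ (U : Filter ℕ) κ)) (BV κ d M U) := by
    apply isArtinian_of_fin BV.tor
    have hfin : FiniteDimensional κ ((E (vars κ d) M 1).restrictScalars κ) := fin_E (K := κ) 1
    let w := Module.finBasis κ ((E (vars κ d) M 1).restrictScalars κ)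
    have hspan : FiniteDimensional (Germ (U : Filter ℕ) κ) (Submodule.span (Germ (U : Filter ℕ) κ)
        (Set.range fun i => BV.cst U htor (w i : M))) :=
      FiniteDimensional.span_of_finite _ (Set.finite_range _)
    have hle : (E (vars (Germ (U : Filter ℕ) κ) d) (BV κ d M U) 1).restrictScalars
        (Germ (U : Filter ℕ) κ) ≤ Submodule.span (Germ (U : Filter ℕ) κ)
        (Set.range fun i => BV.cst U htor (w i : M)) := by
      intro v hv
      rw [Submodule.restrictScalars_mem] at hv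
      obtain ⟨f, h, rfl⟩ := BV.exists_mk v
      exact BV.mem_span htor _ w h (BV.eventually_of_mem_E_one hv)
    exact Submodule.finiteDimensional_of_le hle
  -- the submodule of the classes of the elements of `F`
  let N : Submodule (MvPolynomial (Fin d) (Germ (U : Filter ℕ) κ)) (BV κ d M U) :=
    { carrier := {v | ∃ f, ∃ hf : f ∈ F, v = BV.mk f (h1 f hf)}
      zero_mem' := ⟨_, h3, rfl⟩
      add_mem' := by
        rintro _ _ ⟨f, hf, rfl⟩ ⟨g, hg, rfl⟩
        exact ⟨_, h4 f hf g hg, rfl⟩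
      smul_mem' := by
        rintro q _ ⟨f, hf, rfl⟩
        obtain ⟨q', hq'⟩ := BV.exists_smul q
        exact ⟨_, h5 f hf q', BV.smul_mk hq' (h1 f hf)⟩ }
  have memN : ∀ v, v ∈ N ↔ ∃ f, ∃ hf : f ∈ F, v = BV.mk f (h1 f hf) := fun v => Iff.rfl
  have hrat : ∀ v : BV κ d M U, Rat (BV.basis U htor e) (⊥ : IntermediateField κ (Germ (U : Filter ℕ) κ)) v ↔
      ∀ i, ∃ c : κ, (BV.basis U htor e).repr v i = ((fun _ => c : ℕ → κ) : Germ (U : Filter ℕ) κ) := by
    intro v
    refine forall_congr' fun i => ?_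
    rw [IntermediateField.mem_bot]
    constructor
    · rintro ⟨c, hc⟩
      exact ⟨c, hc.symm⟩
    · rintro ⟨c, hc⟩
      exact ⟨c, hc.symm⟩
  have hratc : ∀ m : M, Rat (BV.basis U htor e) (⊥ : IntermediateField κ (Germ (U : Filter ℕ) κ))
      (BV.cst U htor m) := fun m => (hrat _).mpr fun i => ⟨_, BV.repr_cst htor e m i⟩
  have hbot : N = ⊥ := by
    refine rig p (κ := κ) (L := Germ (U : Filter ℕ) κ) ?_ BV.tor (BV.basis U htor e) ?_
      (BV.frob U hp.pos G hG) (BV.frob_smul hp.pos G hG) ?_ ?_ N ?_ ?_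
    · intro a ha
      obtain ⟨c, hc⟩ := rac_germ U a halg ha
      exact ⟨c, (halg c).trans hc⟩
    · intro j i
      rw [BV.basis_apply, BV.poly_smul_cst]
      exact hratc _
    · intro i
      rw [BV.basis_apply, BV.frob_cst]
      exact hratc _
    · intro v hv
      obtain ⟨f, h, rfl⟩ := BV.exists_mk v
      rw [BV.frob_mk, BV.mk_eq_zero] at hv
      rw [BV.mk_eq_zero]
      filter_upwards [hv] with t ht
      exact hinj _ ht
    · rintro v hv
      obtain ⟨f, hf, rfl⟩ := (memN v).mp hv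
      rw [memN]
      exact ⟨_, h6 f hf, BV.frob_mk hp.pos G hG (h1 f hf)⟩
    · rintro v hv hrv
      obtain ⟨m, rfl⟩ := BV.exists_cst_of_rat htor e v ((hrat v).mp hrv)
      obtain ⟨f, hf, hfm⟩ := (memN _).mp hv
      have h8 : (fun _ => m) ∈ F := by
        apply h2 f hf
        have := BV.mk_eq_iff.mp hfm.symm
        exact this
      rw [h7 m h8]
      rfl
  intro f hf
  have h8 : (BV.mk f (h1 f hf) : BV κ d M U) ∈ N := ⟨f, hf, rfl⟩
  rw [hbot, Submodule.mem_bot, BV.mk_eq_zero] at h8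
  exact h8

end Pool.Agent.Helper24.AN
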